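import Pool.Agent.FrozenUP.Complete
import Pool.Agent.UltPos.Seq

/-! Expansions of sequences as sums of polynomials times powers; frozen sequences. -/

set_option autoImplicit false

namespace Pool.Agent.UltPos

open Polynomial Finset

/-- `v n = ∑_{z ∈ S} p_z(n) z^n` for all large `n`; `S` is a finite set of nonzero numbers. -/
def IsExpansion (v : ℕ → ℚ) (S : Finset ℂ) (p : ℂ → Polynomial ℂ) : Prop :=
  (0 : ℂ) ∉ S ∧ ∃ N : ℕ, ∀ n : ℕ, N ≤ n →
    ((v n : ℚ) : ℂ) = ∑ z ∈ S, (p z).eval (n : ℂ) * z ^ n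

/-- The sequence `n ↦ ∑_{z ∈ S} p_z(x) z^n` (real part), with the polynomials frozen at `x`. -/
noncomputable def frozen (S : Finset ℂ) (p : ℂ → Polynomial ℂ) (x : ℝ) (n : ℕ) : ℝ :=
  (∑ z ∈ S, (p z).eval (x : ℂ) * z ^ n).re

/-- For all large rational `x` the sequence frozen at `x` is ultimately positive. -/
def Inst.FrozenPositive (I : Inst) : Prop :=
  ∀ v : ℕ → ℚ, I.IsSeq v → ∃ (S : Finset ℂ) (p : ℂ → Polynomial ℂ), IsExpansion v S p ∧
    ∃ τ : ℚ, ∀ x : ℚ, τ ≤ x → ∃ N : ℕ, ∀ n : ℕ, N ≤ n → 0 < frozen S p x n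

/-- exponential polynomials vanishing at all large integers vanish -/
theorem exp_poly_zero' (U : Finset ℂ) (hU : (0 : ℂ) ∉ U) (D : ℂ → ℂ[X]) (N : ℕ)
    (h : ∀ n : ℕ, N ≤ n → ∑ z ∈ U, (D z).eval (n : ℂ) * z ^ n = 0) : ∀ z ∈ U, D z = 0 := by
  classical
  have hne : ∀ z ∈ U, z ≠ 0 := fun z hz h0 => hU (h0 ▸ hz)
  have h1 := FiveNum.Bk.exp_poly_zero U id hne (fun b _ b' _ h => h)
    (∑ b ∈ U, ((C (b ^ N) * (D b).comp (X + C (N : ℂ))).natDegree + 1))
    (fun b => (C (b ^ N) * (D b).comp (X + C (N : ℂ))).natDegree + 1)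
    (fun b => C (b ^ N) * (D b).comp (X + C (N : ℂ))) le_rfl (by
      intro b _
      refine lt_of_le_of_lt Polynomial.degree_le_natDegree ?_
      exact_mod_cast Nat.lt_succ_self _) (by
      intro t _
      refine Eq.trans (Finset.sum_congr rfl fun b _ => ?_) (h (t + N) (by omega))
      simp only [id, eval_comp, eval_add, eval_mul, eval_C, eval_X]
      push_cast
      ring)
  intro z hz
  have h2 := h1 z hz
  rcases mul_eq_zero.mp h2 with h3 | h3
  · exact absurd (C_eq_zero.mp h3) (pow_ne_zero _ (hne z hz))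
  · apply Polynomial.funext
    intro y
    have h4 := congrArg (Polynomial.eval (y - N)) h3
    simp only [eval_comp, eval_add, eval_C, eval_X, eval_zero, sub_add_cancel] at h4
    rw [h4, eval_zero]

/-- The frozen sequences do not depend on the expansion. -/
theorem frozen_unique {v : ℕ → ℚ} {S S' : Finset ℂ} {p p' : ℂ → Polynomial ℂ}
    (h : IsExpansion v S p) (h' : IsExpansion v S' p') (y : ℂ) (n : ℕ) :
    ∑ z ∈ S, (p z).eval y * z ^ n = ∑ z ∈ S', (p' z).eval y * z ^ n := by
  classical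
  obtain ⟨h0, N, hN⟩ := h
  obtain ⟨h0', N', hN'⟩ := h'
  set D : ℂ → ℂ[X] := fun z => (if z ∈ S then p z else 0) - (if z ∈ S' then p' z else 0) with hD
  have hsum : ∀ (y : ℂ) (n : ℕ), ∑ z ∈ S ∪ S', (D z).eval y * z ^ n =
      ∑ z ∈ S, (p z).eval y * z ^ n - ∑ z ∈ S', (p' z).eval y * z ^ n := by
    intro y n
    have e1 : ∑ z ∈ S, (p z).eval y * z ^ n =
        ∑ z ∈ S ∪ S', (if z ∈ S then p z else 0).eval y * z ^ n := by
      rw [← Finset.sum_subset (s₁ := S) Finset.subset_union_left]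
      · refine Finset.sum_congr rfl fun z hz => ?_
        rw [if_pos hz]
      · intro z _ hz
        rw [if_neg hz, eval_zero, zero_mul]
    have e2 : ∑ z ∈ S', (p' z).eval y * z ^ n =
        ∑ z ∈ S ∪ S', (if z ∈ S' then p' z else 0).eval y * z ^ n := by
      rw [← Finset.sum_subset (s₁ := S') Finset.subset_union_right]
      · refine Finset.sum_congr rfl fun z hz => ?_
        rw [if_pos hz]
      · intro z _ hz
        rw [if_neg hz, eval_zero, zero_mul]
    rw [e1, e2, ← Finset.sum_sub_distrib]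
    refine Finset.sum_congr rfl fun z _ => ?_
    rw [hD]
    simp only
    rw [eval_sub]
    ring
  have h1 := exp_poly_zero' (S ∪ S') (by
    rw [Finset.mem_union]
    rintro (h | h)
    · exact h0 h
    · exact h0' h) D (N + N') (fun n hn => by
    rw [hsum, ← hN n (by omega), ← hN' n (by omega), sub_self])
  have h2 := hsum y n
  rw [Finset.sum_eq_zero (fun z hz => by rw [h1 z hz, eval_zero, zero_mul])] at h2
  exact (sub_eq_zero.mp h2.symm)

end Pool.Agent.UltPos

namespace Pool.Agent.FrUP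

open Polynomial Finset
open Pool.Agent.DD7719.M Pool.Agent.DD7719.M.GS Pool.Agent.UltPos

variable {k : ℕ}

/-- the polynomials of the expansion given by root data -/
noncomputable def rp (l c : Fin k → ℂ) (ex : Fin k → ℕ) (z : ℂ) : ℂ[X] :=
  open scoped Classical in ∑ i with l i = z, C (c i / z ^ ex i) * bcP (ex i)

lemma rp_sum (l c : Fin k → ℂ) (ex : Fin k → ℕ) (y : ℂ) (n : ℕ) :
    open scoped Classical in
    ∑ z ∈ (univ.filter fun i => l i ≠ 0).image l, (rp l c ex z).eval y * z ^ n =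
      ∑ i, (if l i ≠ 0 then c i / l i ^ ex i * (bcP (ex i)).eval y * l i ^ n else 0) := by
  classical
  rw [← Finset.sum_filter,
    ← Finset.sum_fiberwise_of_maps_to (t := (univ.filter fun i => l i ≠ 0).image l)
      (g := l) (fun i hi => Finset.mem_image_of_mem _ hi)]
  refine Finset.sum_congr rfl fun z hz => ?_
  obtain ⟨i0, hi0, rfl⟩ := Finset.mem_image.mp hz
  have hq : l i0 ≠ 0 := (Finset.mem_filter.mp hi0).2
  rw [rp, eval_finsetSum, Finset.sum_mul]
  refine Finset.sum_congr ?_ fun i hi => ?_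
  · ext i
    simp only [Finset.mem_filter, Finset.mem_univ, true_and]
    constructor
    · exact fun h => ⟨by rw [h]; exact hq, h⟩
    · exact fun h => h.2
  · have h1 : l i = l i0 := (Finset.mem_filter.mp hi).2
    rw [eval_mul, eval_C, h1]

/-- the expansion given by root data -/
theorem isExpansion_rp (l c : Fin k → ℂ) (ex : Fin k → ℕ) (hex : ∀ i, ex i < k) (v : ℕ → ℚ)
    (hv : ∀ n, ∑ i, c i * (n.choose (ex i) : ℂ) * l i ^ (n - ex i) = (((v n : ℚ) : ℝ) : ℂ)) :
    IsExpansion v (open scoped Classical in (univ.filter fun i => l i ≠ 0).image l) (rp l c ex) := by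
  classical
  refine ⟨?_, k, fun n hn => ?_⟩
  · intro h
    obtain ⟨i, hi, h0⟩ := Finset.mem_image.mp h
    exact (Finset.mem_filter.mp hi).2 h0
  · rw [rp_sum l c ex (n : ℂ) n]
    have h1 := hv n
    rw [Complex.ofReal_ratCast] at h1
    rw [← h1]
    refine Finset.sum_congr rfl fun i _ => ?_
    split_ifs with h
    · have h2 : l i ^ n = l i ^ ex i * l i ^ (n - ex i) := by
        rw [← pow_add]
        congr 1
        have := hex i
        omega
      have h3 := pow_ne_zero (ex i) h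
      rw [bcP_eval_nat, h2]
      field_simp
    · push Not at h
      rw [h, zero_pow (by have := hex i; omega), mul_zero]

theorem frozen_rp (l c : Fin k → ℂ) (ex : Fin k → ℕ) (x : ℝ) (n : ℕ) :
    frozen (open scoped Classical in (univ.filter fun i => l i ≠ 0).image l) (rp l c ex) x n =
      (fs l c ex x n).re := by
  classical
  unfold frozen
  rw [rp_sum l c ex (x : ℂ) n, fs]
  congr 1
  refine Finset.sum_congr rfl fun i _ => ?_
  rw [fc]
  by_cases h : l i = 0
  · rw [if_neg (not_not.mpr h), if_pos h, zero_mul]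
  · rw [if_pos h, if_neg h, bcP_eval_real]
    ring

end Pool.Agent.FrUP

namespace Pool.Agent.UltPos

open Pool.Agent.FrUP Finset

/-- frozen positivity in terms of root data -/
theorem Inst.frozenPositive_iff (I : Inst) (v : ℕ → ℚ) (hv : I.IsSeq v) {k : ℕ}
    (l c : Fin k → ℂ) (ex : Fin k → ℕ) (hex : ∀ i, ex i < k)
    (hall : ∀ n, ∑ i, c i * (n.choose (ex i) : ℂ) * l i ^ (n - ex i) = (((v n : ℚ) : ℝ) : ℂ)) :
    I.FrozenPositive ↔ ∃ τ : ℚ, ∀ x : ℚ, τ ≤ x → ∃ N : ℕ, ∀ n : ℕ, N ≤ n →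
      0 < (fs l c ex (x : ℝ) n).re := by
  classical
  have hexp := isExpansion_rp l c ex hex v hall
  constructor
  · intro h
    obtain ⟨S, p, hS, τ, hτ⟩ := h v hv
    refine ⟨τ, fun x hx => ?_⟩
    obtain ⟨N, hN⟩ := hτ x hx
    refine ⟨N, fun n hn => ?_⟩
    have h1 := hN n hn
    rw [frozen, frozen_unique hS hexp] at h1
    rw [← frozen_rp]
    exact h1
  · rintro ⟨τ, hτ⟩ w hw
    have hwv : w = v := I.exists_unique_seq.unique hw hv
    subst hwv
    refine ⟨_, _, hexp, τ, fun x hx => ?_⟩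
    obtain ⟨N, hN⟩ := hτ x hx
    refine ⟨N, fun n hn => ?_⟩
    rw [frozen_rp]
    exact hN n hn

end Pool.Agent.UltPos
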