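import Pool.Agent.FrozenUP.Cert

/-! The frozen sequences of a real sequence are real. -/

set_option autoImplicit false

namespace Pool.Agent.FrUP

open Polynomial Finset
open Pool.Agent.DD7719.M Pool.Agent.DD7719.M.GS

variable {k : ℕ}

lemma gP_of_not_mem (l c : Fin k → ℂ) (ex : Fin k → ℕ) (n0 j : ℕ) (X : ℂ)
    (h : ∀ i, l i ^ n0 ≠ X) : gP l c ex n0 j X = 0 := by
  classical
  unfold gP
  apply Finset.sum_eq_zero
  intro i hi
  exact absurd (Finset.mem_filter.mp hi).2 (h i)

/-- the conjugation symmetry of the polynomial coefficients -/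
lemma gP_conj (l c : Fin k → ℂ) (ex : Fin k → ℕ) (n0 j : ℕ) (hn0 : 0 < n0)
    (hj : ∀ i, ex i < j) (v : ℕ → ℝ)
    (hv : ∀ n, ∑ i, c i * (n.choose (ex i) : ℂ) * l i ^ (n - ex i) = (v n : ℂ)) (X : ℂ)
    (hX : X ≠ 0) (x : ℝ) :
    (starRingEnd ℂ) ((gP l c ex n0 j ((starRingEnd ℂ) X)).eval (x : ℂ)) =
      (gP l c ex n0 j X).eval (x : ℂ) := by
  classical
  have hn0C : (n0 : ℂ) ≠ 0 := by exact_mod_cast hn0.ne'
  set B1 := (univ.filter fun i => l i ≠ 0).image (fun i => l i ^ n0) with hB1
  set B := B1 ∪ B1.image (starRingEnd ℂ) with hB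
  have hB0 : ∀ b ∈ B, b ≠ 0 := by
    intro b hb
    rcases Finset.mem_union.mp hb with hb | hb
    · obtain ⟨i, hi, rfl⟩ := Finset.mem_image.mp hb
      exact pow_ne_zero _ (Finset.mem_filter.mp hi).2
    · obtain ⟨b', hb', rfl⟩ := Finset.mem_image.mp hb
      obtain ⟨i, hi, rfl⟩ := Finset.mem_image.mp hb'
      exact (_root_.map_ne_zero _).mpr (pow_ne_zero _ (Finset.mem_filter.mp hi).2)
  have hBc : ∀ b, b ∈ B → (starRingEnd ℂ) b ∈ B := by
    intro b hb
    rcases Finset.mem_union.mp hb with hb | hb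
    · exact Finset.mem_union_right _ (Finset.mem_image_of_mem _ hb)
    · obtain ⟨b', hb', rfl⟩ := Finset.mem_image.mp hb
      rw [Complex.conj_conj]
      exact Finset.mem_union_left _ hb'
  -- sums over B
  have hsum : ∀ (y : ℂ) (T : ℂ → ℂ), ∑ b ∈ B, (gP l c ex n0 j b).eval y * T b =
      ∑ i, (if l i ≠ 0 then c i * (bcP (ex i)).eval y * l i ^ (j - ex i) * T (l i ^ n0) else 0) := by
    intro y T
    rw [sum_grp l c ex n0 j (fun i => l i ≠ 0) (by
      intro i i' h h' h0
      apply h'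
      have h1 := norm_eq_of_pow_eq hn0 h
      rw [h0, norm_zero, norm_eq_zero] at h1
      exact h1) y T]
    symm
    apply Finset.sum_subset Finset.subset_union_left
    intro b _ hb
    rcases eq_or_ne b 0 with rfl | hb0
    · exact absurd rfl (hB0 0 ‹_›)
    rw [gP_of_not_mem l c ex n0 j b, eval_zero, zero_mul]
    intro i hi
    apply hb
    rw [← hi]
    apply Finset.mem_image_of_mem
    simp only [Finset.mem_filter, Finset.mem_univ, true_and]
    rintro h0
    rw [h0, zero_pow hn0.ne'] at hi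
    exact hb0 hi.symm
  have hval : ∀ m : ℕ, ∑ b ∈ B, (gP l c ex n0 j b).eval ((j : ℂ) + n0 * m) * b ^ m =
      (v (j + n0 * m) : ℂ) := by
    intro m
    rw [hsum ((j : ℂ) + n0 * m) (fun b => b ^ m), ← hv]
    refine Finset.sum_congr rfl fun i _ => ?_
    rw [term_eq l c ex n0 j m i (hj i).le]
    split_ifs with h
    · rfl
    · push Not at h
      rw [h, zero_pow (by have := hj i; omega)]
      ring
  -- the difference
  set R : ℂ → ℂ[X] := fun b => (gP l c ex n0 j b) -
    (gP l c ex n0 j ((starRingEnd ℂ) b)).map (starRingEnd ℂ) with hR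
  have hevc : ∀ (P : ℂ[X]) (y : ℂ), (P.map (starRingEnd ℂ)).eval y =
      (starRingEnd ℂ) (P.eval ((starRingEnd ℂ) y)) := by
    intro P y
    have h1 := Polynomial.eval_map_apply (starRingEnd ℂ) (p := P) ((starRingEnd ℂ) y)
    rw [Complex.conj_conj] at h1
    exact h1
  have hconjsum : ∀ (F : ℂ → ℂ), ∑ b ∈ B, F ((starRingEnd ℂ) b) = ∑ b ∈ B, F b := by
    intro F
    apply Finset.sum_nbij' (fun b => (starRingEnd ℂ) b) (fun b => (starRingEnd ℂ) b)
    · exact fun b hb => hBc b hb
    · exact fun b hb => hBc b hb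
    · exact fun b _ => Complex.conj_conj b
    · exact fun b _ => Complex.conj_conj b
    · exact fun b _ => rfl
  have hRz : ∀ m : ℕ, ∑ b ∈ B, (R b).eval ((j : ℂ) + n0 * m) * b ^ m = 0 := by
    intro m
    have h1 := hval m
    have h2 := congrArg (starRingEnd ℂ) h1
    rw [map_sum, Complex.conj_ofReal, ← hconjsum] at h2
    simp only [map_mul, map_pow] at h2
    have h3 : ∑ b ∈ B, (R b).eval ((j : ℂ) + n0 * m) * b ^ m =
        (∑ b ∈ B, (gP l c ex n0 j b).eval ((j : ℂ) + n0 * m) * b ^ m) -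
        ∑ b ∈ B, (starRingEnd ℂ) ((gP l c ex n0 j ((starRingEnd ℂ) b)).eval
          ((j : ℂ) + n0 * m)) * (starRingEnd ℂ) ((starRingEnd ℂ) b) ^ m := by
      rw [← Finset.sum_sub_distrib]
      refine Finset.sum_congr rfl fun b _ => ?_
      rw [hR]
      simp only
      rw [eval_sub, hevc, Complex.conj_conj]
      have h4 : (starRingEnd ℂ) ((j : ℂ) + n0 * m) = (j : ℂ) + n0 * m := by
        rw [map_add, map_mul, map_natCast, map_natCast, map_natCast]
      rw [h4]
      ring
    rw [h3, h1, h2, sub_self]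
  have hR0 := FiveNum.Bk.exp_poly_zero B id hB0 (fun b _ b' _ h => h)
    (∑ b ∈ B, (((R b).comp (C (n0 : ℂ) * Polynomial.X + C (j : ℂ))).natDegree + 1))
    (fun b => ((R b).comp (C (n0 : ℂ) * Polynomial.X + C (j : ℂ))).natDegree + 1)
    (fun b => (R b).comp (C (n0 : ℂ) * Polynomial.X + C (j : ℂ))) le_rfl (by
      intro b _
      refine lt_of_le_of_lt Polynomial.degree_le_natDegree ?_
      exact_mod_cast Nat.lt_succ_self _) (by
      intro t _
      refine Eq.trans (Finset.sum_congr rfl fun b _ => ?_) (hRz t)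
      simp only [id, eval_comp, eval_add, eval_mul, eval_C, eval_X]
      rw [add_comm])
  have hRX : ∀ b ∈ B, ∀ y : ℂ, (R b).eval y = 0 := by
    intro b hb y
    have h3 := congrArg (Polynomial.eval ((y - j) / n0)) (hR0 b hb)
    simp only [eval_comp, eval_add, eval_mul, eval_C, eval_X, eval_zero] at h3
    rw [mul_div_cancel₀ _ hn0C, sub_add_cancel] at h3
    exact h3
  by_cases hXB : X ∈ B
  · have h1 := hRX X hXB (x : ℂ)
    rw [hR] at h1
    simp only at h1
    rw [eval_sub, hevc, Complex.conj_ofReal, sub_eq_zero] at h1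
    exact h1.symm
  · have h1 : ∀ Y, Y ≠ 0 → Y ∉ B → gP l c ex n0 j Y = 0 := by
      intro Y hY hYB
      apply gP_of_not_mem
      intro i hi
      apply hYB
      apply Finset.mem_union_left
      rw [← hi]
      apply Finset.mem_image_of_mem
      simp only [Finset.mem_filter, Finset.mem_univ, true_and]
      rintro h0
      rw [h0, zero_pow hn0.ne'] at hi
      exact hY hi.symm
    rw [h1 X hX hXB, h1 _ ((_root_.map_ne_zero _).mpr hX) (fun h => hXB (by
      have := hBc _ h
      rwa [Complex.conj_conj] at this))]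
    simp

/-- **The frozen sequences are real.** -/
theorem fs_real (l c : Fin k → ℂ) (ex : Fin k → ℕ) (hk : 0 < k) (hex : ∀ i, ex i < k) (v : ℕ → ℝ)
    (hv : ∀ n, ∑ i, c i * (n.choose (ex i) : ℂ) * l i ^ (n - ex i) = (v n : ℂ)) (x : ℝ) (n : ℕ) :
    fs l c ex x n = (((fs l c ex x n).re : ℝ) : ℂ) := by
  classical
  set B1 := (univ.filter fun i => l i ≠ 0).image (fun i => l i ^ 1) with hB1
  set B := B1 ∪ B1.image (starRingEnd ℂ) with hB
  have hB0 : ∀ b ∈ B, b ≠ 0 := by
    intro b hb
    rcases Finset.mem_union.mp hb with hb | hb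
    · obtain ⟨i, hi, rfl⟩ := Finset.mem_image.mp hb
      exact pow_ne_zero _ (Finset.mem_filter.mp hi).2
    · obtain ⟨b', hb', rfl⟩ := Finset.mem_image.mp hb
      obtain ⟨i, hi, rfl⟩ := Finset.mem_image.mp hb'
      exact (_root_.map_ne_zero _).mpr (pow_ne_zero _ (Finset.mem_filter.mp hi).2)
  have hBc : ∀ b, b ∈ B → (starRingEnd ℂ) b ∈ B := by
    intro b hb
    rcases Finset.mem_union.mp hb with hb | hb
    · exact Finset.mem_union_right _ (Finset.mem_image_of_mem _ hb)
    · obtain ⟨b', hb', rfl⟩ := Finset.mem_image.mp hb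
      rw [Complex.conj_conj]
      exact Finset.mem_union_left _ hb'
  have hsum : fs l c ex x n = ∑ b ∈ B, (gP l c ex 1 k b).eval (x : ℂ) * (b ^ n / b ^ k) := by
    have h1 := sum_grp l c ex 1 k (fun i => l i ≠ 0) (by
      intro i i' h h'
      rw [pow_one, pow_one] at h
      rwa [← h]) (x : ℂ) (fun b => b ^ n / b ^ k)
    rw [← hB1] at h1
    have h2 : ∑ b ∈ B1, (gP l c ex 1 k b).eval (x : ℂ) * (b ^ n / b ^ k) =
        ∑ b ∈ B, (gP l c ex 1 k b).eval (x : ℂ) * (b ^ n / b ^ k) := by
      apply Finset.sum_subset Finset.subset_union_left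
      intro b hbB hb
      rw [gP_of_not_mem l c ex 1 k b, eval_zero, zero_mul]
      intro i hi
      apply hb
      rw [← hi]
      apply Finset.mem_image_of_mem
      simp only [Finset.mem_filter, Finset.mem_univ, true_and]
      rintro h0
      rw [h0, zero_pow one_ne_zero] at hi
      exact hB0 b hbB hi.symm
    rw [← h2, ← h1, fs]
    refine Finset.sum_congr rfl fun i _ => ?_
    split_ifs with h
    · rw [bcP_eval_real, ← fc_mul_pow l c ex x k i (hex i).le h, pow_one]
      have h3 := pow_ne_zero k h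
      field_simp
    · push Not at h
      rw [fc, if_pos h, zero_mul]
  have hconj : (starRingEnd ℂ) (fs l c ex x n) = fs l c ex x n := by
    have h1 : ∀ (F : ℂ → ℂ), ∑ b ∈ B, F ((starRingEnd ℂ) b) = ∑ b ∈ B, F b := by
      intro F
      apply Finset.sum_nbij' (fun b => (starRingEnd ℂ) b) (fun b => (starRingEnd ℂ) b)
      · exact fun b hb => hBc b hb
      · exact fun b hb => hBc b hb
      · exact fun b _ => Complex.conj_conj b
      · exact fun b _ => Complex.conj_conj b
      · exact fun b _ => rfl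
    rw [hsum, map_sum, ← h1]
    refine Finset.sum_congr rfl fun b hb => ?_
    rw [map_mul, map_div₀, map_pow, map_pow, Complex.conj_conj,
      gP_conj l c ex 1 k one_pos hex v hv b (hB0 b hb) x]
  rw [Complex.conj_eq_iff_re] at hconj
  exact hconj.symm

end Pool.Agent.FrUP
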