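import Pool.Agent.FrozenUP.Complete
import Pool.Agent.DD7719.MSimple

/-! Ultimate positivity of the frozen sequences implies ultimate positivity. -/

set_option autoImplicit false

namespace Pool.Agent.FrUP

open Module NumberField Filter Topology Finset
open Pool.Agent.DD7719.M Pool.Agent.DD7719.M.GS

variable {k : ℕ}

lemma fs_diag (l c : Fin k → ℂ) (ex : Fin k → ℕ) (hex : ∀ i, ex i < k) (v : ℕ → ℝ)
    (hv : ∀ n, ∑ i, c i * (n.choose (ex i) : ℂ) * l i ^ (n - ex i) = (v n : ℂ)) (n : ℕ)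
    (hn : k ≤ n) : fs l c ex (n : ℝ) n = (v n : ℂ) := by
  rw [← hv n, fs]
  refine Finset.sum_congr rfl fun i _ => ?_
  by_cases h : l i = 0
  · rw [h, zero_pow (by have := hex i; omega), zero_pow (by have := hex i; omega), mul_zero,
      mul_zero]
  · rw [fc_mul_pow l c ex n n i (by have := hex i; omega) h, bc_nat]
    push_cast
    rfl

/-- the growth of the threshold is smaller than linear -/
lemma ev_threshold (K₀ C : ℝ) (hK₀ : 0 < K₀) (k n0 : ℕ) (hn0 : 0 < n0) :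
    ∀ᶠ n : ℕ in atTop, K₀ * (1 + (C + k * Real.log (n + 1))) ≤ (((n - k) / n0 : ℕ) : ℝ) := by
  set ε : ℝ := 1 / (4 * (n0 : ℝ) * (K₀ * k + 1)) with hε
  have hn0R : (0 : ℝ) < n0 := by exact_mod_cast hn0
  have hε0 : 0 < ε := by positivity
  have h1 := Real.isLittleO_log_id_atTop.def hε0
  have h2 : ∀ᶠ n : ℕ in atTop, ‖Real.log ((n : ℝ) + 1)‖ ≤ ε * ‖id ((n : ℝ) + 1)‖ := by
    have h3 : Tendsto (fun n : ℕ => ((n : ℝ) + 1)) atTop atTop :=
      tendsto_natCast_atTop_atTop.atTop_add tendsto_const_nhds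
    exact h3.eventually h1
  obtain ⟨N1, hN1⟩ := exists_nat_gt (4 * (n0 : ℝ) * (K₀ * (1 + |C|) + 2 + k))
  filter_upwards [h2, eventually_ge_atTop N1, eventually_ge_atTop (k + 1)] with n hn hnN hnk
  rw [id, Real.norm_eq_abs, Real.norm_eq_abs, abs_of_pos (show (0 : ℝ) < (n : ℝ) + 1 by positivity)]
    at hn
  have h3 : Real.log ((n : ℝ) + 1) ≤ ε * ((n : ℝ) + 1) := (le_abs_self _).trans hn
  have h4 : ((n : ℝ) - k) / n0 - 1 ≤ (((n - k) / n0 : ℕ) : ℝ) := by
    have h5 := Nat.lt_div_mul_add hn0 (a := n - k)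
    have h6 : ((n - k : ℕ) : ℝ) < (((n - k) / n0 : ℕ) : ℝ) * n0 + n0 := by exact_mod_cast h5
    rw [Nat.cast_sub (by omega)] at h6
    rw [sub_le_iff_le_add, div_le_iff₀ hn0R]
    linarith
  refine le_trans ?_ h4
  have hnN' : 4 * (n0 : ℝ) * (K₀ * (1 + |C|) + 2 + k) < n := by
    have : (N1 : ℝ) ≤ n := by exact_mod_cast hnN
    linarith
  have hkR : (0 : ℝ) ≤ k := Nat.cast_nonneg k
  have hC : C ≤ |C| := le_abs_self C
  have h7 : K₀ * (k * Real.log ((n : ℝ) + 1)) ≤ ((n : ℝ) + 1) / (4 * n0) := by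
    calc K₀ * (k * Real.log ((n : ℝ) + 1)) ≤ K₀ * (k * (ε * ((n : ℝ) + 1))) := by gcongr
      _ = (K₀ * k) * ε * ((n : ℝ) + 1) := by ring
      _ ≤ (K₀ * k + 1) * ε * ((n : ℝ) + 1) := by
          have : (0 : ℝ) ≤ (n : ℝ) + 1 := by positivity
          gcongr
          linarith
      _ = ((n : ℝ) + 1) / (4 * n0) := by
          rw [hε]
          field_simp
  have h8 : K₀ * (1 + C) ≤ (n : ℝ) / (4 * n0) - 2 - k := by
    have h9 : K₀ * (1 + |C|) + 2 + k ≤ (n : ℝ) / (4 * n0) := by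
      rw [le_div_iff₀ (by positivity)]
      linarith
    have h10 : K₀ * (1 + C) ≤ K₀ * (1 + |C|) := by gcongr
    linarith
  have h11 : ((n : ℝ) - k) / n0 ≥ (n : ℝ) / n0 - k := by
    rw [sub_div]
    have : (k : ℝ) / n0 ≤ k := div_le_self hkR (by exact_mod_cast hn0)
    linarith
  have h12 : ((n : ℝ) + 1) / (4 * n0) ≤ (n : ℝ) / (4 * n0) + 1 := by
    rw [add_div]
    have : (1 : ℝ) / (4 * n0) ≤ 1 := by
      rw [div_le_one (by positivity)]
      have : (1 : ℝ) ≤ n0 := by exact_mod_cast hn0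
      linarith
    linarith
  have h13 : (n : ℝ) / n0 = 4 * ((n : ℝ) / (4 * n0)) := by field_simp
  have h14 : 0 ≤ (n : ℝ) / (4 * n0) := by positivity
  have h15 : K₀ * (1 + (C + k * Real.log (n + 1))) = K₀ * (1 + C) +
      K₀ * (k * Real.log ((n : ℝ) + 1)) := by ring
  rw [h15]
  nlinarith

theorem up_of_frozen (l c : Fin k → ℂ) (ex : Fin k → ℕ) (hk : 0 < k) (hex : ∀ i, ex i < k)
    (hac : ∀ i, IsIntegral ℚ (c i)) (hal : ∀ i, IsIntegral ℚ (l i))
    (hconj : ∀ i, ∃ i', l i' = (starRingEnd ℂ) (l i)) (v : ℕ → ℝ)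
    (hv : ∀ n, ∑ i, c i * (n.choose (ex i) : ℂ) * l i ^ (n - ex i) = (v n : ℂ))
    (h : ∃ N0 : ℕ, ∀ N : ℕ, N0 ≤ N → ∃ M : ℕ, ∀ n, M ≤ n → 0 < (fs l c ex (N : ℝ) n).re) :
    ∃ N1 : ℕ, ∀ n, N1 ≤ n → 0 < v n := by
  classical
  obtain ⟨N, hN, htor⟩ := exists_common_torsion l
  -- the number field
  set S : Set ℂ := {Complex.I} ∪ (Set.range c ∪ Set.range l) with hS
  have hint : ∀ x ∈ S, IsIntegral ℚ x := by
    rintro x (rfl | ⟨i, rfl⟩ | ⟨i, rfl⟩)
    · refine ⟨Polynomial.X ^ 2 + 1, by monicity!, by simp⟩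
    · exact hac i
    · exact hal i
  have hfinS : Finite S := by
    apply Set.Finite.to_subtype
    exact (Set.finite_singleton _).union ((Set.finite_range _).union (Set.finite_range _))
  let K := IntermediateField.adjoin ℚ S
  have : FiniteDimensional ℚ K := IntermediateField.finiteDimensional_adjoin hint
  have : NumberField K := ⟨⟩
  have hmem : ∀ x ∈ S, x ∈ K := fun x hx => IntermediateField.subset_adjoin ℚ S hx
  let φ : K →+* ℂ := algebraMap K ℂ
  let cK : Fin k → K := fun i => ⟨c i, hmem _ (Or.inr (Or.inl ⟨i, rfl⟩))⟩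
  let lK : Fin k → K := fun i => ⟨l i, hmem _ (Or.inr (Or.inr ⟨i, rfl⟩))⟩
  have hφc : ∀ i, φ (cK i) = c i := fun _ => rfl
  have hφl : ∀ i, φ (lK i) = l i := fun _ => rfl
  have hφ : ComplexEmbedding.conjugate φ ≠ φ := by
    intro h
    have h1 : φ ⟨Complex.I, hmem _ (Or.inl rfl)⟩ = Complex.I := rfl
    have h2 := congrArg (fun f : K →+* ℂ => f ⟨Complex.I, hmem _ (Or.inl rfl)⟩) h
    simp only [ComplexEmbedding.conjugate_coe_eq, h1, Complex.conj_I] at h2
    have h3 := congrArg Complex.im h2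
    simp at h3
    norm_num at h3
  choose si hsi using hconj
  -- the nonzero `N`-th powers
  set Λ : Finset K := (Finset.univ.image fun i => lK i ^ N).erase 0 with hΛ
  have hΛmem : ∀ x : Λ, ∃ i, lK i ^ N = x.1 ∧ lK i ≠ 0 := by
    intro x
    obtain ⟨h1, h2⟩ := Finset.mem_erase.mp x.2
    obtain ⟨i, _, hi⟩ := Finset.mem_image.mp h2
    refine ⟨i, hi, ?_⟩
    intro h
    apply h1
    rw [← hi, h, zero_pow hN.ne']
  have hτex : ∀ x : Λ, ∃ y : Λ, φ y.1 = (starRingEnd ℂ) (φ x.1) := by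
    intro x
    obtain ⟨i, hi, hi0⟩ := hΛmem x
    have h1 : φ (lK (si i) ^ N) = (starRingEnd ℂ) (φ x.1) := by
      rw [map_pow, hφl, hsi, ← hi, map_pow, map_pow, hφl]
    refine ⟨⟨lK (si i) ^ N, Finset.mem_erase.mpr ⟨?_, Finset.mem_image_of_mem _ (Finset.mem_univ _)⟩⟩, h1⟩
    intro h
    rw [h, map_zero] at h1
    have h2 : φ x.1 = 0 := by
      rw [← Complex.conj_conj (φ x.1), ← h1, map_zero]
    exact (Finset.mem_erase.mp x.2).1 ((map_eq_zero φ).mp h2)
  choose τ hτ using hτex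
  obtain ⟨K₀, hK₀, hthr⟩ := threshold φ hφ (fun x : Λ => x.1) (fun x => (Finset.mem_erase.mp x.2).1)
    (by
      intro x y hxy n hn h
      apply hxy
      obtain ⟨i, hi, hi0⟩ := hΛmem x
      obtain ⟨j, hj, hj0⟩ := hΛmem y
      have hy0 : y.1 ≠ 0 := (Finset.mem_erase.mp y.2).1
      rw [div_pow, div_eq_one_iff_eq (pow_ne_zero _ hy0), ← hi, ← hj, ← pow_mul, ← pow_mul] at h
      have h1 := congrArg φ h
      rw [map_pow, map_pow, hφl, hφl] at h1
      have h2 := htor i j ⟨N * n, by positivity, h1⟩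
      apply Subtype.ext
      rw [← hi, ← hj]
      apply φ.injective
      rw [map_pow, map_pow, hφl, hφl]
      exact h2) τ hτ
  -- integrality
  obtain ⟨q₀, hq₀, hqint⟩ := Pool.Agent.DD7719.exists_denominator (K := K)
    (fun p : Fin N × Fin k => cK p.2 * lK p.2 ^ (k + (p.1 : ℕ) - ex p.2))
  set g : Fin N × Fin k → 𝓞 K := fun p => ⟨_, hqint p⟩ with hg
  have hgK : ∀ p, (g p : K) = (q₀ : K) * (cK p.2 * lK p.2 ^ (k + (p.1 : ℕ) - ex p.2)) :=
    fun p => rfl
  set G : ℝ := ∑ p : Fin N × Fin k, ∑ σ : K →+* ℂ, ‖σ (g p : K)‖ with hG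
  have hGle : ∀ p (σ : K →+* ℂ), ‖σ (g p : K)‖ ≤ G := by
    intro p σ
    calc ‖σ (g p : K)‖ ≤ ∑ σ : K →+* ℂ, ‖σ (g p : K)‖ :=
          Finset.single_le_sum (f := fun σ : K →+* ℂ => ‖σ (g p : K)‖)
            (fun _ _ => norm_nonneg _) (Finset.mem_univ σ)
      _ ≤ G := Finset.single_le_sum (f := fun p => ∑ σ : K →+* ℂ, ‖σ (g p : K)‖)
            (fun _ _ => Finset.sum_nonneg fun _ _ => norm_nonneg _) (Finset.mem_univ p)
  have hG0 : 0 ≤ G := Finset.sum_nonneg fun _ _ => Finset.sum_nonneg fun _ _ => norm_nonneg _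
  have hq₀R : (0 : ℝ) < q₀ := by exact_mod_cast hq₀
  obtain ⟨N0, hN0⟩ := h
  have hev := ev_threshold K₀ (Real.log ((1 + G) * (1 + k))) hK₀ k N hN
  rw [eventually_atTop] at hev
  obtain ⟨N2, hN2⟩ := hev
  refine ⟨N0 + N2 + k + 1, fun n hn => ?_⟩
  -- the residue class
  set J : ℕ := (n - k) % N with hJ
  set m : ℕ := (n - k) / N with hm
  have hJN : J < N := Nat.mod_lt _ hN
  have hnJ : n = (k + J) + N * m := by
    have := Nat.mod_add_div (n - k) N
    rw [← hJ, ← hm] at this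
    omega
  set x : Λ → 𝓞 K := fun y => ∑ i with lK i ^ N = y.1, (n.choose (ex i) : 𝓞 K) * g (⟨J, hJN⟩, i)
    with hx
  have hxK : ∀ y : Λ, (x y : K) = ∑ i with lK i ^ N = y.1,
      (n.choose (ex i) : K) * ((q₀ : K) * (cK i * lK i ^ (k + J - ex i))) := by
    intro y
    simp only [hx]
    push_cast
    rfl
  have hφx : ∀ y : Λ, φ (x y : K) = (q₀ : ℂ) * (gP l c ex N (k + J) (φ y.1)).eval ((n : ℝ) : ℂ) := by
    intro y
    rw [hxK, map_sum, gP_eval, Finset.mul_sum]
    have hset : (Finset.univ.filter fun i => lK i ^ N = y.1) =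
        (Finset.univ.filter fun i => l i ^ N = φ y.1) := by
      ext i
      simp only [Finset.mem_filter, Finset.mem_univ, true_and]
      rw [← hφl i, ← map_pow]
      exact φ.injective.eq_iff.symm
    rw [hset]
    refine Finset.sum_congr rfl fun i _ => ?_
    rw [map_mul, map_mul, map_mul, map_pow, map_natCast, map_natCast, hφc, hφl, bcP_eval_real, bc_nat]
    push_cast
    ring
  have hsum : ∀ m' : ℕ, φ (∑ y : Λ, (x y : K) * y.1 ^ m') =
      (q₀ : ℂ) * fs l c ex (n : ℝ) ((k + J) + N * m') := by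
    intro m'
    rw [map_sum]
    have e1 : ∀ y : Λ, φ ((x y : K) * y.1 ^ m') =
        (q₀ : ℂ) * ((gP l c ex N (k + J) (φ y.1)).eval ((n : ℝ) : ℂ) * (φ y.1) ^ m') := by
      intro y
      rw [map_mul, map_pow, hφx]
      ring
    rw [Finset.sum_congr rfl fun y _ => e1 y, ← Finset.mul_sum]
    congr 1
    have e2 := sum_grp l c ex N (k + J) (fun i => l i ≠ 0) (by
      intro i i' h h' h0
      apply h'
      have h1 := norm_eq_of_pow_eq hN h
      rw [h0, norm_zero, norm_eq_zero] at h1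
      exact h1) ((n : ℝ) : ℂ) (fun X => X ^ m')
    have e3 : fs l c ex (n : ℝ) ((k + J) + N * m') = ∑ i, (if l i ≠ 0 then
        c i * (bcP (ex i)).eval ((n : ℝ) : ℂ) * l i ^ (k + J - ex i) * (l i ^ N) ^ m' else 0) := by
      rw [fs]
      refine Finset.sum_congr rfl fun i _ => ?_
      split_ifs with h0
      · rw [pow_add, ← mul_assoc, fc_mul_pow l c ex n (k + J) i (by have := hex i; omega) h0,
          bcP_eval_real, pow_mul]
      · push Not at h0
        rw [fc, if_pos h0, zero_mul]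
    rw [e3, e2, Finset.sum_coe_sort Λ (fun y => (gP l c ex N (k + J) (φ y)).eval ((n : ℝ) : ℂ) *
      (φ y) ^ m')]
    have e4 : (univ.filter fun i => l i ≠ 0).image (fun i => l i ^ N) = Λ.image φ := by
      ext X
      simp only [Finset.mem_image, Finset.mem_filter, Finset.mem_univ, true_and, hΛ,
        Finset.mem_erase]
      constructor
      · rintro ⟨i, hi, rfl⟩
        refine ⟨lK i ^ N, ⟨?_, i, rfl⟩, by rw [map_pow, hφl]⟩
        intro h0
        apply pow_ne_zero N hi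
        rw [← hφl i, ← map_pow, h0, map_zero]
      · rintro ⟨y, ⟨hy, i, rfl⟩, rfl⟩
        refine ⟨i, ?_, by rw [map_pow, hφl]⟩
        intro h0
        apply hy
        apply φ.injective
        rw [map_pow, hφl, h0, zero_pow hN.ne', map_zero]
    rw [e4, Finset.sum_image (fun a _ b _ h => φ.injective h)]
  set B : ℝ := ((1 + G) * (1 + k)) * ((n : ℝ) + 1) ^ k with hB
  have hkR : (0 : ℝ) ≤ k := Nat.cast_nonneg k
  have hn1 : (1 : ℝ) ≤ ((n : ℝ) + 1) ^ k := one_le_pow₀ (by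
    have : (0 : ℝ) ≤ n := Nat.cast_nonneg n
    linarith)
  have hGk : (1 : ℝ) ≤ (1 + G) * (1 + k) := by nlinarith
  have hBlog : Real.log B = Real.log ((1 + G) * (1 + k)) + k * Real.log ((n : ℝ) + 1) := by
    rw [hB, Real.log_mul (by linarith) (by linarith), Real.log_pow]
  have h1 := hthr x B (by rw [hB]; nlinarith) (by
    intro σ y
    rw [hx]
    simp only
    push_cast
    rw [map_sum]
    refine (norm_sum_le _ _).trans ?_
    have h2 : ∀ i ∈ (Finset.univ.filter fun i => lK i ^ N = y.1),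
        ‖σ ((n.choose (ex i) : K) * (g (⟨J, hJN⟩, i) : K))‖ ≤ ((n : ℝ) + 1) ^ k * G := by
      intro i _
      rw [map_mul, norm_mul, map_natCast, Complex.norm_natCast]
      refine mul_le_mul ?_ (hGle _ _) (norm_nonneg _) (by positivity)
      have h3 : (n.choose (ex i) : ℝ) ≤ (n : ℝ) ^ ex i := by exact_mod_cast Nat.choose_le_pow n (ex i)
      refine h3.trans ?_
      calc (n : ℝ) ^ ex i ≤ ((n : ℝ) + 1) ^ ex i := by gcongr; linarith
        _ ≤ ((n : ℝ) + 1) ^ k := pow_le_pow_right₀ (by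
            have : (0 : ℝ) ≤ n := Nat.cast_nonneg n
            linarith) (hex i).le
    refine (Finset.sum_le_sum h2).trans ?_
    rw [Finset.sum_const, nsmul_eq_mul]
    have h4 : ((Finset.univ.filter fun i => lK i ^ N = y.1).card : ℝ) ≤ k := by
      have := (Finset.univ.filter fun i => lK i ^ N = y.1).card_le_univ
      rw [Fintype.card_fin] at this
      exact_mod_cast this
    have h5 : 0 ≤ ((n : ℝ) + 1) ^ k * G := by positivity
    calc ((Finset.univ.filter fun i => lK i ^ N = y.1).card : ℝ) * (((n : ℝ) + 1) ^ k * G)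
        ≤ k * (((n : ℝ) + 1) ^ k * G) := mul_le_mul_of_nonneg_right h4 h5
      _ ≤ B := by
          rw [hB]
          have : k * G ≤ (1 + G) * (1 + k) := by nlinarith
          nlinarith) (by
    intro y
    rw [hφx, hφx, map_mul, map_natCast]
    congr 1
    have h3 := gP_conj l c ex N (k + J) hN (fun i => by have := hex i; omega) v hv (φ (τ y).1) (by
      rw [Ne, map_eq_zero]
      exact (Finset.mem_erase.mp (τ y).2).1) (n : ℝ)
    rw [← h3, hτ y, Complex.conj_conj]) (by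
    obtain ⟨M, hM⟩ := hN0 n (by omega)
    refine ⟨M, fun m' hm' => ?_⟩
    rw [hsum]
    have h3 := hM ((k + J) + N * m') (by nlinarith)
    have h4 : ((q₀ : ℂ) * fs l c ex (n : ℝ) ((k + J) + N * m')).re =
        (q₀ : ℝ) * (fs l c ex (n : ℝ) ((k + J) + N * m')).re := by
      rw [← Complex.ofReal_natCast, Complex.re_ofReal_mul]
    rw [h4]
    positivity) m (by
    rw [hBlog]
    exact hN2 n (by omega))
  rw [hsum, ← hnJ, fs_diag l c ex hex v hv n (by omega)] at h1
  rw [← Complex.ofReal_natCast, ← Complex.ofReal_mul, Complex.ofReal_re] at h1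
  exact (mul_pos_iff_of_pos_left hq₀R).mp h1

end Pool.Agent.FrUP
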