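import Pool.Agent.FrozenUP.Circle2
import Pool.Agent.DD7719.MThresh

/-! The structure of the leading circle in low order. -/

set_option autoImplicit false

namespace Pool.Agent.FrUP

open Complex Filter Topology Polynomial

lemma eval_lead (p : ℂ[X]) (D : ℕ) (hD : p.natDegree ≤ D) (x : ℝ) (hx : 1 ≤ x) :
    ‖p.eval (x : ℂ) - p.coeff D * (x : ℂ) ^ D‖ ≤
      (∑ i ∈ Finset.range D, ‖p.coeff i‖) * (x ^ D / x) := by
  have hx0 : 0 < x := by linarith
  rw [Polynomial.eval_eq_sum_range' (Nat.lt_succ_of_le hD), Finset.sum_range_succ,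
    add_sub_cancel_right, Finset.sum_mul]
  refine (norm_sum_le _ _).trans (Finset.sum_le_sum fun i hi => ?_)
  rw [norm_mul, norm_pow, norm_real, Real.norm_of_nonneg hx0.le]
  refine mul_le_mul_of_nonneg_left ?_ (norm_nonneg _)
  rw [le_div_iff₀ hx0, ← pow_succ]
  exact pow_le_pow_right₀ hx (Finset.mem_range.mp hi)

section
variable (V : Finset ℂ) (p : ℂ → ℂ[X]) (D : ℕ)

/-- the leading coefficient function -/
noncomputable def leadF (m : ℕ) : ℝ := (∑ z ∈ V, (p z).coeff D * z ^ m).re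

lemma near_lead (hV1 : ∀ z ∈ V, ‖z‖ = 1) (hD : ∀ z ∈ V, (p z).natDegree ≤ D) :
    ∃ B : ℝ, 0 ≤ B ∧ ∀ x : ℝ, 1 ≤ x → ∀ m : ℕ,
      |(∑ z ∈ V, (p z).eval (x : ℂ) * z ^ m).re - x ^ D * leadF V p D m| ≤ B * (x ^ D / x) := by
  refine ⟨∑ z ∈ V, ∑ i ∈ Finset.range D, ‖(p z).coeff i‖, Finset.sum_nonneg fun _ _ =>
    Finset.sum_nonneg fun _ _ => norm_nonneg _, fun x hx m => ?_⟩
  have h1 : (∑ z ∈ V, (p z).eval (x : ℂ) * z ^ m).re - x ^ D * leadF V p D m =
      (∑ z ∈ V, ((p z).eval (x : ℂ) - (p z).coeff D * (x : ℂ) ^ D) * z ^ m).re := by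
    unfold leadF
    rw [← re_ofReal_mul, ← sub_re]
    congr 1
    rw [Finset.mul_sum, ← Finset.sum_sub_distrib]
    refine Finset.sum_congr rfl fun z _ => ?_
    push_cast
    ring
  rw [h1]
  refine (abs_re_le_norm _).trans ((norm_sum_le _ _).trans ?_)
  rw [Finset.sum_mul]
  refine Finset.sum_le_sum fun z hz => ?_
  rw [norm_mul, norm_pow, hV1 z hz, one_pow, mul_one]
  exact eval_lead (p z) D (hD z hz) x hx

/-- The leading coefficient function is nonnegative. -/
lemma leadF_nonneg (hV1 : ∀ z ∈ V, ‖z‖ = 1) (hD : ∀ z ∈ V, (p z).natDegree ≤ D) (j n0 : ℕ)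
    (hn0 : 0 < n0) (r K : ℝ) (hr0 : 0 < r) (hr : r < 1)
    (hup : ∀ᶠ m : ℕ in atTop, -(K * r ^ m) ≤
      (∑ z ∈ V, (p z).eval (((j + n0 * m : ℕ) : ℝ) : ℂ) * z ^ m).re) (m0 : ℕ) :
    0 ≤ leadF V p D m0 := by
  by_contra hcon
  push Not at hcon
  set η : ℝ := -leadF V p D m0 with hη
  have hη0 : 0 < η := by linarith
  obtain ⟨B, hB0, hB⟩ := near_lead V p D hV1 hD
  obtain ⟨M, hM⟩ := eventually_atTop.mp hup
  have hr1 := (tendsto_pow_atTop_nhds_zero_of_lt_one hr0.le hr).const_mul K
  rw [mul_zero] at hr1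
  obtain ⟨M1, hM1⟩ := eventually_atTop.mp (hr1.eventually (gt_mem_nhds (show (0 : ℝ) < η / 4 by
    linarith)))
  obtain ⟨M2, hM2⟩ := exists_nat_gt (4 * B / η)
  set S : ℝ := ∑ z ∈ V, ‖(p z).coeff D‖ with hS
  have hS0 : 0 ≤ S := Finset.sum_nonneg fun _ _ => norm_nonneg _
  obtain ⟨t, ht, htV⟩ := Pool.Agent.DD7719.M.simul_return (fun z : V => (z : ℂ))
    (fun z => hV1 z z.2) (M + M1 + M2 + 1) (η / (2 * (S + 1))) (by positivity)
  have hm1 : 1 ≤ m0 + t := by omega
  have h1 := hM (m0 + t) (by omega)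
  have h2 := hM1 (m0 + t) (by omega)
  have hxm : ((m0 + t : ℕ) : ℝ) ≤ ((j + n0 * (m0 + t) : ℕ) : ℝ) := by
    have : m0 + t ≤ j + n0 * (m0 + t) := by nlinarith
    exact_mod_cast this
  set x : ℝ := ((j + n0 * (m0 + t) : ℕ) : ℝ) with hx
  have hmR : (1 : ℝ) ≤ ((m0 + t : ℕ) : ℝ) := by exact_mod_cast hm1
  have hx1 : 1 ≤ x := by linarith
  have hx0 : 0 < x := by linarith
  have h3 := (abs_le.mp (hB x hx1 (m0 + t))).2
  -- the leading function at the return time
  have h4 : leadF V p D (m0 + t) ≤ -η / 2 := by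
    have h5 : leadF V p D (m0 + t) - leadF V p D m0 =
        (∑ z ∈ V, (p z).coeff D * z ^ m0 * (z ^ t - 1)).re := by
      unfold leadF
      rw [← sub_re, ← Finset.sum_sub_distrib]
      congr 1
      refine Finset.sum_congr rfl fun z _ => ?_
      rw [pow_add]
      ring
    have h6 : ‖∑ z ∈ V, (p z).coeff D * z ^ m0 * (z ^ t - 1)‖ ≤ η / 2 := by
      refine (norm_sum_le _ _).trans ?_
      calc ∑ z ∈ V, ‖(p z).coeff D * z ^ m0 * (z ^ t - 1)‖
          ≤ ∑ z ∈ V, ‖(p z).coeff D‖ * (η / (2 * (S + 1))) := by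
            refine Finset.sum_le_sum fun z hz => ?_
            rw [norm_mul, norm_mul, norm_pow, hV1 z hz, one_pow, mul_one]
            exact mul_le_mul_of_nonneg_left (htV ⟨z, hz⟩).le (norm_nonneg _)
        _ = S * (η / (2 * (S + 1))) := by rw [← Finset.sum_mul]
        _ ≤ η / 2 := by
            rw [mul_div_assoc', div_le_div_iff₀ (by positivity) (by norm_num)]
            nlinarith
    have h7 := (le_abs_self _).trans ((abs_re_le_norm _).trans h6)
    rw [← h5] at h7
    linarith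
  have hxD : 1 ≤ x ^ D := one_le_pow₀ hx1
  have h5 : B * (x ^ D / x) ≤ x ^ D * (η / 4) := by
    have h6 : 4 * B / η < x := by
      have : ((M2 : ℕ) : ℝ) ≤ ((m0 + t : ℕ) : ℝ) := by exact_mod_cast (by omega : M2 ≤ m0 + t)
      linarith
    rw [div_lt_iff₀ hη0] at h6
    have h7 : B / x ≤ η / 4 := by
      rw [div_le_div_iff₀ hx0 (by norm_num)]
      linarith
    calc B * (x ^ D / x) = x ^ D * (B / x) := by ring
      _ ≤ x ^ D * (η / 4) := by gcongr
  have h6 : x ^ D * leadF V p D (m0 + t) ≤ x ^ D * (-η / 2) :=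
    mul_le_mul_of_nonneg_left h4 (by positivity)
  have h7 : x ^ D * (η / 4) ≥ η / 4 := by nlinarith
  nlinarith

end

/-- **Structure in low order.** -/
theorem low_order (V : Finset ℂ) (p : ℂ → ℂ[X]) (hp0 : ∀ z ∈ V, p z ≠ 0)
    (hV1 : ∀ z ∈ V, ‖z‖ = 1) (hVc : ∀ z ∈ V, (starRingEnd ℂ) z ∈ V)
    (hpc : ∀ z ∈ V, ∀ i, (p ((starRingEnd ℂ) z)).coeff i = (starRingEnd ℂ) ((p z).coeff i))
    (htor : ∀ z ∈ V, ∀ n : ℕ, 0 < n → z ^ n = 1 → z = 1)
    (hcount : ∑ z ∈ V, ((p z).natDegree + 1) ≤ 7) (j n0 : ℕ) (hn0 : 0 < n0) (r K : ℝ)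
    (hr0 : 0 < r) (hr : r < 1) (hK : 0 ≤ K)
    (hup : ∀ᶠ m : ℕ in atTop, -(K * r ^ m) ≤
      (∑ z ∈ V, (p z).eval (((j + n0 * m : ℕ) : ℝ) : ℂ) * z ^ m).re)
    (hneg : ∀ X : ℝ, ∃ x, X ≤ x ∧ ∃ m : ℕ, (∑ z ∈ V, (p z).eval (x : ℂ) * z ^ m).re < 0)
    (halg : ∀ z ∈ V, IsIntegral ℚ z ∧ ∀ i, IsIntegral ℚ ((p z).coeff i)) :
    ∃ α ∈ V, 1 ∈ V ∧ (∀ m : ℕ, 0 < m → α ^ m ≠ 1) ∧ (p α).coeff 1 ≠ 0 ∧
      (p 1).coeff 1 = ((2 * ‖(p α).coeff 1‖ : ℝ) : ℂ) ∧
      IsIntegral ℚ (-((starRingEnd ℂ) ((p α).coeff 1)) / (‖(p α).coeff 1‖ : ℂ)) ∧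
      ‖-((starRingEnd ℂ) ((p α).coeff 1)) / (‖(p α).coeff 1‖ : ℂ)‖ = 1 ∧
      ∃ σ : ℝ, (σ = 1 ∨ σ = -1) ∧ ∃ c : ℝ, 0 < c ∧
      ∀ᶠ m : ℕ in atTop, ∀ y : ℝ, 0 < y → y < c / m →
        α ^ m ≠ -((starRingEnd ℂ) ((p α).coeff 1)) / (‖(p α).coeff 1‖ : ℂ) *
          exp (((σ * y : ℝ) : ℂ) * I) := by
  classical
  have hVne : V.Nonempty := by
    by_contra h
    rw [Finset.not_nonempty_iff_eq_empty] at h
    obtain ⟨x, -, m, hm⟩ := hneg 0
    rw [h, Finset.sum_empty, zero_re] at hm
    exact lt_irrefl _ hm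
  obtain ⟨z1, hz1, hmax⟩ := Finset.exists_max_image V (fun z => (p z).natDegree) hVne
  set D := (p z1).natDegree with hDdef
  have hlead := leadF_nonneg V p D hV1 hmax j n0 hn0 r K hr0 hr hup
  have hlc : ∀ z ∈ V, (p z).natDegree = D → (p z).coeff D ≠ 0 := by
    intro z hz h
    rw [← h]
    exact leadingCoeff_ne_zero.mpr (hp0 z hz)
  have hlc' : ∀ z ∈ V, (p z).coeff D ≠ 0 → (p z).natDegree = D := fun z hz h =>
    le_antisymm (hmax z hz) (le_natDegree_of_ne_zero h)
  have hconjD : ∀ z ∈ V, (p z).natDegree = D → (p ((starRingEnd ℂ) z)).natDegree = D := by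
    intro z hz h
    apply hlc' _ (hVc z hz)
    rw [hpc z hz, Ne, map_eq_zero]
    exact hlc z hz h
  have hconjne : ∀ z ∈ V, z ≠ 1 → (starRingEnd ℂ) z ≠ z := by
    intro z hz h1 h2
    apply h1
    apply htor z hz 2 (by norm_num)
    have h3 := mul_conj' z
    rw [h2, hV1 z hz, ofReal_one, one_pow] at h3
    rw [sq]
    exact h3
  have hconjconj : ∀ z : ℂ, (starRingEnd ℂ) ((starRingEnd ℂ) z) = z := fun z => conj_conj z
  -- the degree is positive
  have hD1 : 1 ≤ D := by
    by_contra hD0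
    have hD0 : D = 0 := by omega
    obtain ⟨x, -, m, hm⟩ := hneg 0
    have h1 := hlead m
    unfold leadF at h1
    have h2 : ∑ z ∈ V, (p z).eval (x : ℂ) * z ^ m = ∑ z ∈ V, (p z).coeff D * z ^ m := by
      refine Finset.sum_congr rfl fun z hz => ?_
      rw [eq_C_of_natDegree_eq_zero (le_antisymm ((hmax z hz).trans_eq hD0) (Nat.zero_le _)),
        eval_C, hD0, coeff_C_zero]
    rw [h2] at hm
    linarith
  -- there is a top value different from one
  have hex1 : ∃ z ∈ V, (p z).natDegree = D ∧ z ≠ 1 := by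
    by_contra hcon
    push Not at hcon
    have h11 : z1 = 1 := hcon z1 hz1 rfl
    have h1V : (1 : ℂ) ∈ V := h11 ▸ hz1
    have hF : ∀ m, leadF V p D m = ((p 1).coeff D).re := by
      intro m
      unfold leadF
      congr 1
      rw [Finset.sum_eq_single 1]
      · rw [one_pow, mul_one]
      · intro z hz hz1
        have h3 : (p z).coeff D = 0 := by
          by_contra h4
          exact hz1 (hcon z hz (hlc' z hz h4))
        rw [h3, zero_mul]
      · exact fun h => absurd h1V h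
    have himz : ((p 1).coeff D).im = 0 := by
      have h3 := hpc 1 h1V D
      rw [map_one] at h3
      have h4 := congrArg Complex.im h3
      rw [conj_im] at h4
      linarith
    have hapos : 0 < ((p 1).coeff D).re := by
      rcases (hF 0 ▸ hlead 0).lt_or_eq with h | h
      · exact h
      · exfalso
        apply hlc 1 h1V (by rw [← h11])
        apply Complex.ext
        · rw [← h, zero_re]
        · rw [himz, zero_im]
    obtain ⟨B, hB0, hB⟩ := near_lead V p D hV1 hmax
    obtain ⟨x, hx, m, hm⟩ := hneg (max 1 (B / ((p 1).coeff D).re))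
    have hx1 : 1 ≤ x := (le_max_left _ _).trans hx
    have hx2 : B / ((p 1).coeff D).re ≤ x := (le_max_right _ _).trans hx
    have hx0 : 0 < x := by linarith
    rw [div_le_iff₀ hapos] at hx2
    have h3 := (abs_le.mp (hB x hx1 m)).1
    rw [hF] at h3
    have hxD : 0 < x ^ D := by positivity
    have h4 : B * (x ^ D / x) ≤ x ^ D * ((p 1).coeff D).re := by
      have h5 : B / x ≤ ((p 1).coeff D).re := by
        rw [div_le_iff₀ hx0]
        linarith
      calc B * (x ^ D / x) = x ^ D * (B / x) := by ring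
        _ ≤ x ^ D * ((p 1).coeff D).re := by gcongr
    linarith
  obtain ⟨z2, hz2, hz2D, hz21⟩ := hex1
  set z2' := (starRingEnd ℂ) z2 with hz2'
  have hz2'V : z2' ∈ V := hVc z2 hz2
  have hne2 : z2' ≠ z2 := hconjne z2 hz2 hz21
  have hz2'1 : z2' ≠ 1 := by
    intro h
    apply hz21
    have := congrArg (starRingEnd ℂ) h
    rwa [hz2', hconjconj, map_one] at this
  have hntor : ∀ m : ℕ, 0 < m → z2 ^ m ≠ 1 := fun m hm h => hz21 (htor z2 hz2 m hm h)
  -- one is a top value
  have h1V : (1 : ℂ) ∈ V ∧ (p 1).natDegree = D := by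
    by_contra hcon
    have hVD : ∀ z ∈ V, (p z).natDegree = D → z = z2 ∨ z = z2' := by
      intro z hz hzD
      by_contra hzc
      push Not at hzc
      have hz1 : z ≠ 1 := by
        rintro rfl
        exact hcon ⟨hz, hzD⟩
      have hne := hconjne z hz hz1
      have hT : ({z2, z2', z, (starRingEnd ℂ) z} : Finset ℂ) ⊆ V := by
        intro w hw
        simp only [Finset.mem_insert, Finset.mem_singleton] at hw
        rcases hw with rfl | rfl | rfl | rfl
        · exact hz2
        · exact hz2'V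
        · exact hz
        · exact hVc z hz
      have hcard : ({z2, z2', z, (starRingEnd ℂ) z} : Finset ℂ).card = 4 := by
        have h5 : z2 ≠ (starRingEnd ℂ) z := by
          intro h
          apply hzc.2
          rw [hz2', h, hconjconj]
        have h6 : z2' ≠ (starRingEnd ℂ) z := by
          intro h
          apply hzc.1
          have := congrArg (starRingEnd ℂ) h
          rw [hz2', hconjconj, hconjconj] at this
          exact this.symm
        rw [Finset.card_insert_of_notMem, Finset.card_insert_of_notMem,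
          Finset.card_insert_of_notMem, Finset.card_singleton]
        · simp only [Finset.mem_singleton]
          exact hne.symm
        · simp only [Finset.mem_insert, Finset.mem_singleton, not_or]
          exact ⟨hzc.2.symm, h6⟩
        · simp only [Finset.mem_insert, Finset.mem_singleton, not_or]
          exact ⟨hne2.symm, hzc.1.symm, h5⟩
      have h7 := Finset.card_nsmul_le_sum ({z2, z2', z, (starRingEnd ℂ) z} : Finset ℂ)
        (fun z => (p z).natDegree + 1) 2 (by
          intro w hw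
          simp only [Finset.mem_insert, Finset.mem_singleton] at hw
          rcases hw with rfl | rfl | rfl | rfl
          · omega
          · have := hconjD z2 hz2 hz2D
            rw [← hz2'] at this
            omega
          · omega
          · have := hconjD z hz hzD
            omega)
      rw [hcard] at h7
      have h8 := Finset.sum_le_sum_of_subset (f := fun z => (p z).natDegree + 1) hT
      simp only [smul_eq_mul] at h7
      omega
    have hF : ∀ m, leadF V p D m = 2 * ((p z2).coeff D * z2 ^ m).re := by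
      intro m
      unfold leadF
      have h5 : ∑ z ∈ V, (p z).coeff D * z ^ m =
          ∑ z ∈ ({z2, z2'} : Finset ℂ), (p z).coeff D * z ^ m := by
        symm
        apply Finset.sum_subset
        · intro w hw
          simp only [Finset.mem_insert, Finset.mem_singleton] at hw
          rcases hw with rfl | rfl
          · exact hz2
          · exact hz2'V
        · intro z hz hz'
          simp only [Finset.mem_insert, Finset.mem_singleton, not_or] at hz'
          have h3 : (p z).coeff D = 0 := by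
            by_contra h4
            rcases hVD z hz (hlc' z hz h4) with h | h
            · exact hz'.1 h
            · exact hz'.2 h
          rw [h3, zero_mul]
      rw [h5, Finset.sum_pair hne2.symm, hz2', hpc z2 hz2, ← map_pow, ← map_mul, add_re, conj_re]
      ring
    set b := (p z2).coeff D with hb
    have hb0 : b ≠ 0 := hlc z2 hz2 hz2D
    have hbn : 0 < ‖b‖ := norm_pos_iff.mpr hb0
    set w : ℂ := -((starRingEnd ℂ) b) / ‖b‖ with hw
    have hwn : ‖w‖ = 1 := by
      rw [hw, norm_div, norm_neg, norm_conj, norm_real, norm_norm, div_self hbn.ne']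
    have hbw : b * w = ((-‖b‖ : ℝ) : ℂ) := by
      rw [hw]
      have h2 : b * (starRingEnd ℂ) b = (‖b‖ : ℂ) ^ 2 := mul_conj' b
      have h3 : (‖b‖ : ℂ) ≠ 0 := by exact_mod_cast hbn.ne'
      field_simp
      rw [h2]
      push_cast
      ring
    obtain ⟨m, -, hm⟩ := dense_pow z2 w (hV1 z2 hz2) hntor hwn 0 (1 / 2) (by norm_num)
    have h5 := hlead m
    rw [hF] at h5
    have h6 : (b * z2 ^ m).re = (b * w).re + (b * (z2 ^ m - w)).re := by
      rw [← add_re]
      congr 1
      ring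
    have h7 := (le_abs_self _).trans (abs_re_le_norm (b * (z2 ^ m - w)))
    rw [norm_mul] at h7
    rw [h6, hbw, ofReal_re] at h5
    have h8 : ‖b‖ * ‖z2 ^ m - w‖ < ‖b‖ * (1 / 2) := mul_lt_mul_of_pos_left hm hbn
    linarith
  obtain ⟨h1V, h1D⟩ := h1V
  -- the degree is one
  have hT3 : ({1, z2, z2'} : Finset ℂ) ⊆ V := by
    intro w hw
    simp only [Finset.mem_insert, Finset.mem_singleton] at hw
    rcases hw with rfl | rfl | rfl
    · exact h1V
    · exact hz2
    · exact hz2'V
  have hz2'D : (p z2').natDegree = D := hconjD z2 hz2 hz2D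
  have hsum3 : ∑ z ∈ ({1, z2, z2'} : Finset ℂ), ((p z).natDegree + 1) = 3 * (D + 1) := by
    rw [Finset.sum_insert, Finset.sum_pair hne2.symm, h1D, hz2D, hz2'D]
    · ring
    · simp only [Finset.mem_insert, Finset.mem_singleton, not_or]
      exact ⟨hz21.symm, hz2'1.symm⟩
  have hDone : D = 1 := by
    have := Finset.sum_le_sum_of_subset (f := fun z => (p z).natDegree + 1) hT3
    rw [hsum3] at this
    omega
  have hVeq : V = {1, z2, z2'} := by
    apply Finset.Subset.antisymm _ hT3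
    intro z hz
    by_contra hzc
    simp only [Finset.mem_insert, Finset.mem_singleton, not_or] at hzc
    obtain ⟨hc1, hc2, hc3⟩ := hzc
    have hne := hconjne z hz hc1
    have h5 : (starRingEnd ℂ) z ∉ ({1, z2, z2'} : Finset ℂ) := by
      simp only [Finset.mem_insert, Finset.mem_singleton, not_or]
      refine ⟨fun h => hc1 ?_, fun h => hc3 ?_, fun h => hc2 ?_⟩
      · have := congrArg (starRingEnd ℂ) h
        rwa [hconjconj, map_one] at this
      · rw [hz2', ← h, hconjconj]
      · have := congrArg (starRingEnd ℂ) h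
        rwa [hconjconj, hz2', hconjconj] at this
    have h6 : z ∉ insert ((starRingEnd ℂ) z) ({1, z2, z2'} : Finset ℂ) := by
      simp only [Finset.mem_insert, Finset.mem_singleton, not_or]
      exact ⟨hne.symm, hc1, hc2, hc3⟩
    have hT : insert z (insert ((starRingEnd ℂ) z) ({1, z2, z2'} : Finset ℂ)) ⊆ V := by
      intro w hw
      rw [Finset.mem_insert, Finset.mem_insert] at hw
      rcases hw with rfl | rfl | hw
      · exact hz
      · exact hVc z hz
      · exact hT3 hw
    have h7 := Finset.sum_le_sum_of_subset (f := fun z => (p z).natDegree + 1) hT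
    rw [Finset.sum_insert h6, Finset.sum_insert h5, hsum3] at h7
    omega
  -- the explicit form
  have hform : ∀ (x : ℝ) (m : ℕ), (∑ z ∈ V, (p z).eval (x : ℂ) * z ^ m).re =
      Fab ((p 1).coeff 1).re ((p 1).coeff 0).re ((p z2).coeff 1) ((p z2).coeff 0) x (z2 ^ m) := by
    intro x m
    have hev : ∀ z ∈ V, (p z).eval (x : ℂ) = (p z).coeff 1 * x + (p z).coeff 0 := by
      intro z hz
      rw [Polynomial.eval_eq_sum_range' (show (p z).natDegree < 2 by
        have := hmax z hz
        omega), Finset.sum_range_succ, Finset.sum_range_one]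
      ring
    rw [Finset.sum_congr rfl (fun z hz => by rw [hev z hz]), hVeq, Finset.sum_insert (by
      simp only [Finset.mem_insert, Finset.mem_singleton, not_or]
      exact ⟨hz21.symm, hz2'1.symm⟩), Finset.sum_pair hne2.symm]
    have h5 : ((p z2').coeff 1 * (x : ℂ) + (p z2').coeff 0) * z2' ^ m =
        (starRingEnd ℂ) (((p z2).coeff 1 * x + (p z2).coeff 0) * z2 ^ m) := by
      rw [hz2', hpc z2 hz2, hpc z2 hz2, map_mul, map_add, map_mul, map_pow, conj_ofReal]
    rw [h5, one_pow, mul_one, add_re, add_re, add_re, conj_re]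
    unfold Fab
    rw [re_mul_ofReal]
    ring
  have hbne : (p z2).coeff 1 ≠ 0 := by
    have := hlc z2 hz2 hz2D
    rwa [hDone] at this
  have hup' : ∀ᶠ m : ℕ in atTop, -(K * r ^ m) ≤ Fab ((p 1).coeff 1).re ((p 1).coeff 0).re
      ((p z2).coeff 1) ((p z2).coeff 0) ((j + n0 * m : ℕ) : ℝ) (z2 ^ m) := by
    filter_upwards [hup] with m hm
    rwa [hform] at hm
  have hneg' : ∀ X : ℝ, ∃ x, X ≤ x ∧ ∃ z : ℂ, ‖z‖ = 1 ∧ Fab ((p 1).coeff 1).re
      ((p 1).coeff 0).re ((p z2).coeff 1) ((p z2).coeff 0) x z < 0 := by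
    intro X
    obtain ⟨x, hx, m, hm⟩ := hneg X
    refine ⟨x, hx, z2 ^ m, by rw [norm_pow, hV1 z2 hz2, one_pow], ?_⟩
    rwa [hform] at hm
  have hle := lead_eq z2 _ _ _ _ (hV1 z2 hz2) hntor hbne j n0 hn0 r K hr0 hr hK hup' hneg'
  obtain ⟨hi, hn, hσ⟩ := gap_circle z2 _ _ _ _ (hV1 z2 hz2) hntor hbne j n0 hn0 r K hr0 hr hK hup'
    hneg' (halg z2 hz2).1 ((halg z2 hz2).2 1)
  refine ⟨z2, hz2, h1V, hntor, hbne, ?_, hi, hn, hσ⟩
  apply Complex.ext
  · rw [ofReal_re, hle]
  · have h3 := hpc 1 h1V 1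
    rw [map_one] at h3
    have h4 := congrArg Complex.im h3
    rw [conj_im] at h4
    rw [ofReal_im]
    linarith

end Pool.Agent.FrUP
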