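import Pool.Agent.FrozenUP.GapData
import Pool.Agent.FrozenUP.Low

/-! Ultimately positive sequences of order at most seven which are not frozen positive. -/

set_option autoImplicit false

namespace Pool.Agent.FrUP

open Filter Topology Finset Polynomial
open Pool.Agent.DD7719.M Pool.Agent.DD7719.M.GS

variable {k : ℕ}

lemma bcP_natDegree (e : ℕ) : (bcP e).natDegree ≤ e := by
  unfold bcP
  refine (natDegree_C_mul_le _ _).trans ?_
  rw [descPochhammer_natDegree]

lemma bcP_coeff_integral (e i : ℕ) : IsIntegral ℚ ((bcP e).coeff i) := by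
  unfold bcP
  rw [coeff_C_mul, ← descPochhammer_map (Int.castRingHom ℂ), coeff_map]
  refine IsIntegral.mul ?_ ?_
  · have : ((e.factorial : ℂ)⁻¹) = algebraMap ℚ ℂ ((e.factorial : ℚ)⁻¹) := by
      rw [eq_ratCast]
      push_cast
      rfl
    rw [this]
    exact isIntegral_algebraMap
  · have : (Int.castRingHom ℂ) ((descPochhammer ℤ e).coeff i) =
        algebraMap ℚ ℂ (((descPochhammer ℤ e).coeff i : ℤ) : ℚ) := by
      rw [eq_ratCast, eq_intCast]
      push_cast
      rfl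
    rw [this]
    exact isIntegral_algebraMap

lemma gP_coeff_integral (l c : Fin k → ℂ) (ex : Fin k → ℕ) (n0 j : ℕ)
    (hac : ∀ i, IsIntegral ℚ (c i)) (hal : ∀ i, IsIntegral ℚ (l i)) (X : ℂ) (i : ℕ) :
    IsIntegral ℚ ((gP l c ex n0 j X).coeff i) := by
  unfold gP
  rw [finset_sum_coeff]
  refine IsIntegral.sum _ fun t _ => ?_
  rw [coeff_C_mul]
  exact ((hac t).mul ((hal t).pow _)).mul (bcP_coeff_integral _ _)

open scoped Classical in
/-- the degree is smaller than the number of indices -/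
lemma gP_natDegree_lt (l c : Fin k → ℂ) (ex : Fin k → ℕ) (n0 j : ℕ)
    (hdc : ∀ i, ∀ e, e < ex i → ∃ i', l i' = l i ∧ ex i' = e) (X : ℂ)
    (h : gP l c ex n0 j X ≠ 0) :
    (gP l c ex n0 j X).natDegree + 1 ≤ (univ.filter fun i => l i ^ n0 = X).card := by
  have hne : (univ.filter fun i => l i ^ n0 = X).Nonempty := by
    by_contra hcon
    rw [Finset.not_nonempty_iff_eq_empty] at hcon
    apply h
    unfold gP
    rw [hcon, Finset.sum_empty]
  obtain ⟨i0, hi0, hmax⟩ := Finset.exists_max_image _ ex hne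
  have hdeg : (gP l c ex n0 j X).natDegree ≤ ex i0 := by
    unfold gP
    apply natDegree_sum_le_of_forall_le
    intro i hi
    exact ((natDegree_C_mul_le _ _).trans (bcP_natDegree _)).trans (hmax i hi)
  have hi0' : l i0 ^ n0 = X := (Finset.mem_filter.mp hi0).2
  have hex : ∀ e : ℕ, e ≤ ex i0 → ∃ i', l i' = l i0 ∧ ex i' = e := by
    intro e he
    rcases he.lt_or_eq with h | h
    · exact hdc i0 e h
    · exact ⟨i0, rfl, h.symm⟩
  have : Nonempty (Fin k) := ⟨i0⟩
  choose! g hg using hex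
  calc (gP l c ex n0 j X).natDegree + 1 ≤ (range (ex i0 + 1)).card := by
        rw [Finset.card_range]
        omega
    _ ≤ (univ.filter fun i => l i ^ n0 = X).card := by
        apply Finset.card_le_card_of_injOn g
        · intro e he
          have h1 := hg e (Nat.lt_succ_iff.mp (Finset.mem_range.mp (Finset.mem_coe.mp he)))
          simp only [Finset.coe_filter, Finset.mem_univ, true_and, Set.mem_ofPred_eq]
          rw [h1.1, hi0']
        · intro e he e' he' h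
          have h1 := hg e (Nat.lt_succ_iff.mp (Finset.mem_range.mp (Finset.mem_coe.mp he)))
          have h2 := hg e' (Nat.lt_succ_iff.mp (Finset.mem_range.mp (Finset.mem_coe.mp he')))
          rw [← h1.2, ← h2.2, h]

open scoped Classical in
/-- **Order at most seven.** -/
theorem gap_seven_F (l c : Fin k → ℂ) (ex : Fin k → ℕ) (hk7 : k ≤ 7) (e n0 j : ℕ) (i1 : Fin k)
    (hex : ∀ i, ex i < k) (hdc : ∀ i, ∀ e, e < ex i → ∃ i', l i' = l i ∧ ex i' = e)
    (hconj : ∀ i, ∃ i', l i' = (starRingEnd ℂ) (l i)) (δ : ℝ) (hδ : δ ≤ 1)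
    (htor : ∀ i i', l i ≠ 0 → l i' ≠ 0 → (∃ n : ℕ, 0 < n ∧ (l i / l i') ^ n = 1) →
      (l i / l i') ^ e = 1)
    (hac : ∀ i, IsIntegral ℚ (c i)) (hal : ∀ i, IsIntegral ℚ (l i))
    (v : ℕ → ℝ)
    (hv : ∀ n, ∑ i, c i * (n.choose (ex i) : ℂ) * l i ^ (n - ex i) = (v n : ℂ))
    (hup : ∃ N, ∀ n, N ≤ n → 0 < v n)
    (hn0 : 0 < n0) (hj : k ≤ j) (hen0 : e ∣ n0) (hδn : ∀ i, ‖nz (l i) ^ n0 - 1‖ ≤ δ)
    (hρ : 0 < ‖l i1‖) (hvan : ∀ i, ‖l i1‖ < ‖l i‖ → gP l c ex n0 j (l i ^ n0) = 0)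
    (hneg : ∀ X : ℝ, ∃ x, X ≤ x ∧ ∃ m : ℕ, (∑ i, (if ‖l i‖ = ‖l i1‖ then
        c i * ((bc (ex i) x : ℝ) : ℂ) * l i ^ (j - ex i) * (nz (l i) ^ n0) ^ m else 0)).re < 0) :
    ∃ (i : Fin k) (β : ℂ), l i ≠ 0 ∧ IsAlgebraic ℚ β ∧ ‖β‖ = 1 ∧
      (∀ m : ℕ, 0 < m → nz (l i) ^ m ≠ 1) ∧ ∃ a : ℝ, 0 < a ∧ ∃ M : ℕ, ∀ m : ℕ, M ≤ m →
        ∀ y : ℝ, 0 < y → y < a / m →
          (nz (l i) ^ n0) ^ m ≠ β * Complex.exp ((y : ℂ) * Complex.I) := by
  set ρ : ℝ := ‖l i1‖ with hρdef
  have hjex : ∀ i, ex i < j := fun i => lt_of_lt_of_le (hex i) hj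
  have hjex' : ∀ i, ex i ≤ j := fun i => (hjex i).le
  set P : ℂ := ((ρ ^ n0 : ℝ) : ℂ) with hP
  have hPr : 0 < ρ ^ n0 := by positivity
  have hP0 : P ≠ 0 := by
    rw [hP]
    exact_mod_cast hPr.ne'
  set q : Fin k → Prop := fun i => ‖l i‖ = ρ with hq
  have hqq : ∀ i i', l i ^ n0 = l i' ^ n0 → q i → q i' := by
    intro i i' h h'
    rw [hq] at h' ⊢
    simp only at h' ⊢
    rw [← h', norm_eq_of_pow_eq hn0 h]
  set V0 : Finset ℂ := (univ.filter q).image (fun i => l i ^ n0) with hV0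
  set V1 : Finset ℂ := V0.filter (fun X => gP l c ex n0 j X ≠ 0) with hV1def
  set V : Finset ℂ := V1.image (fun X => X / P) with hV
  set p : ℂ → ℂ[X] := fun z => gP l c ex n0 j (P * z) with hp
  have hV1mem : ∀ X ∈ V1, (∃ i, ‖l i‖ = ρ ∧ l i ^ n0 = X) ∧ gP l c ex n0 j X ≠ 0 := by
    intro X hX
    obtain ⟨h1, h2⟩ := Finset.mem_filter.mp hX
    obtain ⟨i, hi, h3⟩ := Finset.mem_image.mp h1
    exact ⟨⟨i, (Finset.mem_filter.mp hi).2, h3⟩, h2⟩
  have hVmem : ∀ z ∈ V, ∃ X ∈ V1, z = X / P ∧ P * z = X := by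
    intro z hz
    obtain ⟨X, hX, rfl⟩ := Finset.mem_image.mp hz
    exact ⟨X, hX, rfl, mul_div_cancel₀ X hP0⟩
  have hXn : ∀ i, ‖l i‖ = ρ → l i ^ n0 = P * nz (l i) ^ n0 := by
    intro i hi
    rw [← nz_pow_eq (z := l i) n0, hi, hP]
    push_cast
    rfl
  have hVnz : ∀ z ∈ V, ∃ i, ‖l i‖ = ρ ∧ z = nz (l i) ^ n0 ∧ P * z = l i ^ n0 := by
    intro z hz
    obtain ⟨X, hX, h1, h2⟩ := hVmem z hz
    obtain ⟨⟨i, hi, h3⟩, -⟩ := hV1mem X hX
    refine ⟨i, hi, ?_, by rw [h2, h3]⟩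
    rw [h1, ← h3, hXn i hi, mul_div_cancel_left₀ _ hP0]
  have hVu : ∀ z ∈ V, ‖z‖ = 1 := by
    intro z hz
    obtain ⟨i, -, rfl, -⟩ := hVnz z hz
    rw [norm_pow, norm_nz, one_pow]
  have hp0 : ∀ z ∈ V, p z ≠ 0 := by
    intro z hz
    obtain ⟨X, hX, -, h2⟩ := hVmem z hz
    simp only [hp]
    rw [h2]
    exact (hV1mem X hX).2
  -- conjugation
  have hgc : ∀ X : ℂ, X ≠ 0 → ∀ i, (gP l c ex n0 j ((starRingEnd ℂ) X)).coeff i =
      (starRingEnd ℂ) ((gP l c ex n0 j X).coeff i) := by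
    intro X hX i
    have h1 : gP l c ex n0 j ((starRingEnd ℂ) X) =
        (gP l c ex n0 j X).map (starRingEnd ℂ) := by
      apply Polynomial.eq_of_infinite_eval_eq
      refine Set.Infinite.mono (s := Set.range fun x : ℝ => (x : ℂ)) ?_
        (Set.infinite_range_of_injective Complex.ofReal_injective)
      rintro _ ⟨x, rfl⟩
      rw [Set.mem_ofPred_eq]
      have h2 := gP_conj l c ex n0 j hn0 hjex v hv X hX x
      have h3 := congrArg (starRingEnd ℂ) h2
      rw [Complex.conj_conj] at h3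
      rw [h3, ← eval_map_apply, Complex.conj_ofReal]
    rw [h1, coeff_map]
  have hV1c : ∀ X ∈ V1, (starRingEnd ℂ) X ∈ V1 := by
    intro X hX
    obtain ⟨⟨i, hi, h3⟩, h4⟩ := hV1mem X hX
    have hX0 : X ≠ 0 := by
      rw [← h3, ← norm_ne_zero_iff, norm_pow, hi]
      exact pow_ne_zero _ hρ.ne'
    have hne : gP l c ex n0 j ((starRingEnd ℂ) X) ≠ 0 := by
      intro h
      apply h4
      ext t
      have h5 := hgc X hX0 t
      rw [h, coeff_zero] at h5
      rw [coeff_zero]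
      exact (map_eq_zero _).mp h5.symm
    rw [hV1def, Finset.mem_filter]
    refine ⟨?_, hne⟩
    by_contra hcon
    apply hne
    apply gP_of_not_mem
    intro i' h
    apply hcon
    rw [hV0, Finset.mem_image]
    refine ⟨i', ?_, h⟩
    rw [Finset.mem_filter]
    refine ⟨Finset.mem_univ _, ?_⟩
    have h5 : ‖l i'‖ ^ n0 = ρ ^ n0 := by
      rw [← norm_pow, h, Complex.norm_conj, ← h3, norm_pow, hi]
    exact (pow_left_inj₀ (norm_nonneg _) hρ.le hn0.ne').mp h5
  have hPc : (starRingEnd ℂ) P = P := by rw [hP, Complex.conj_ofReal]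
  have hVc : ∀ z ∈ V, (starRingEnd ℂ) z ∈ V := by
    intro z hz
    obtain ⟨X, hX, rfl, -⟩ := hVmem z hz
    rw [hV, Finset.mem_image]
    refine ⟨(starRingEnd ℂ) X, hV1c X hX, ?_⟩
    rw [map_div₀, hPc]
  have hpc : ∀ z ∈ V, ∀ i, (p ((starRingEnd ℂ) z)).coeff i =
      (starRingEnd ℂ) ((p z).coeff i) := by
    intro z hz i
    simp only [hp]
    have h1 : P * (starRingEnd ℂ) z = (starRingEnd ℂ) (P * z) := by rw [map_mul, hPc]
    rw [h1]
    apply hgc
    apply mul_ne_zero hP0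
    rw [← norm_ne_zero_iff, hVu z hz]
    exact one_ne_zero
  have htorV : ∀ z ∈ V, ∀ n : ℕ, 0 < n → z ^ n = 1 → z = 1 := by
    intro z hz n hn h
    obtain ⟨i, hi, rfl, -⟩ := hVnz z hz
    have hli : l i ≠ 0 := by
      rw [← norm_ne_zero_iff, hi]
      exact hρ.ne'
    obtain ⟨i', hi'⟩ := hconj i
    have hratio : l i / l i' = nz (l i) ^ 2 := by
      have hnn : (‖l i‖ : ℂ) ≠ 0 := by
        rw [hi]
        exact_mod_cast hρ.ne'
      have hcn : (starRingEnd ℂ) (nz (l i)) = (nz (l i))⁻¹ := by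
        have h5 := Complex.mul_conj' (nz (l i))
        rw [norm_nz, Complex.ofReal_one, one_pow] at h5
        exact eq_inv_of_mul_eq_one_right h5
      have hnz0 : nz (l i) ≠ 0 := by
        rw [← norm_ne_zero_iff, norm_nz]
        exact one_ne_zero
      rw [hi', ← nz_mul_norm (l i), map_mul, Complex.conj_ofReal]
      have h6 : (‖(‖l i‖ : ℂ) * nz (l i)‖ : ℝ) = ‖l i‖ := by rw [nz_mul_norm]
      have h7 : nz ((‖l i‖ : ℂ) * nz (l i)) = nz (l i) := by rw [nz_mul_norm]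
      rw [h7, hcn]
      field_simp
    have h1 : (l i / l i') ^ e = 1 := by
      apply htor i i' hli
      · rw [hi']
        exact (_root_.map_ne_zero _).mpr hli
      · refine ⟨n0 * n, Nat.mul_pos hn0 hn, ?_⟩
        rw [hratio, ← pow_mul, show 2 * (n0 * n) = n0 * n * 2 by ring, pow_mul, pow_mul, h, one_pow]
    have h2 : (nz (l i) ^ n0) ^ 2 = 1 := by
      obtain ⟨r, hr⟩ := hen0
      have h3 : (l i / l i') ^ n0 = 1 := by rw [hr, pow_mul, h1, one_pow]
      rw [hratio, ← pow_mul, mul_comm, pow_mul] at h3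
      exact h3
    have h2' : (nz (l i) ^ n0 - 1) * (nz (l i) ^ n0 + 1) = 0 := by linear_combination h2
    have h2'' : nz (l i) ^ n0 = 1 ∨ nz (l i) ^ n0 = -1 := by
      rcases mul_eq_zero.mp h2' with h3 | h3
      · exact Or.inl (sub_eq_zero.mp h3)
      · exact Or.inr (eq_neg_of_add_eq_zero_left h3)
    rcases h2'' with h3 | h3
    · exact h3
    · exfalso
      have h4 := hδn i
      rw [h3] at h4
      have h5 : ‖(-1 : ℂ) - 1‖ = 2 := by
        norm_num
      rw [h5] at h4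
      linarith
  -- the count
  have hPinj : Function.Injective (fun X : ℂ => X / P) := by
    intro X Y h
    simp only at h
    rwa [div_left_inj' hP0] at h
  have hcount : ∑ z ∈ V, ((p z).natDegree + 1) ≤ 7 := by
    rw [hV, Finset.sum_image (fun X _ Y _ h => hPinj h)]
    have h1 : ∀ X ∈ V1, (p (X / P)).natDegree + 1 ≤ (univ.filter fun i => l i ^ n0 = X).card := by
      intro X hX
      simp only [hp]
      rw [mul_div_cancel₀ X hP0]
      exact gP_natDegree_lt l c ex n0 j hdc X (hV1mem X hX).2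
    refine (Finset.sum_le_sum h1).trans ?_
    have h2 : ∑ X ∈ V1, (univ.filter fun i => l i ^ n0 = X).card =
        (univ.filter fun i => l i ^ n0 ∈ V1).card := by
      rw [Finset.card_eq_sum_card_fiberwise (f := fun i => l i ^ n0) (t := V1)
        (fun i hi => by
          rw [Finset.coe_filter, Set.mem_ofPred_eq] at hi
          exact Finset.mem_coe.mpr hi.2)]
      refine Finset.sum_congr rfl fun X hX => ?_
      congr 1
      ext i
      simp only [Finset.mem_filter, Finset.mem_univ, true_and]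
      constructor
      · rintro h
        exact ⟨h ▸ hX, h⟩
      · exact fun h => h.2
    rw [h2]
    refine (Finset.card_filter_le _ _).trans ?_
    rw [Finset.card_univ, Fintype.card_fin]
    exact hk7
  -- the sum over the circle
  have hsum : ∀ (x : ℝ) (m : ℕ), ∑ i, (if ‖l i‖ = ρ then c i * ((bc (ex i) x : ℝ) : ℂ) *
      l i ^ (j - ex i) * (nz (l i) ^ n0) ^ m else 0) =
      ∑ z ∈ V, (p z).eval (x : ℂ) * z ^ m := by
    intro x m
    have h1 := sum_grp l c ex n0 j q hqq (x : ℂ) (fun X => (X / P) ^ m)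
    have h2 : ∑ i, (if ‖l i‖ = ρ then c i * ((bc (ex i) x : ℝ) : ℂ) *
      l i ^ (j - ex i) * (nz (l i) ^ n0) ^ m else 0) = ∑ i, (if q i then
        c i * (bcP (ex i)).eval (x : ℂ) * l i ^ (j - ex i) * (l i ^ n0 / P) ^ m else 0) := by
      refine Finset.sum_congr rfl fun i _ => ?_
      by_cases hi : ‖l i‖ = ρ
      · have hqi : q i := hi
        rw [if_pos hi, if_pos hqi, bcP_eval_real, hXn i hi, mul_div_cancel_left₀ _ hP0]
      · have hqi : ¬ q i := hi
        rw [if_neg hi, if_neg hqi]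
    rw [h2, h1, hV, Finset.sum_image (fun X _ Y _ h => hPinj h), hV1def, Finset.sum_filter]
    refine Finset.sum_congr rfl fun X _ => ?_
    simp only [hp]
    rw [mul_div_cancel₀ X hP0]
    by_cases h3 : gP l c ex n0 j X = 0
    · rw [h3]
      simp
    · rw [if_pos h3]
  -- the smaller circles
  obtain ⟨r0, hr0, hr0'⟩ : ∃ r0 : ℝ, r0 < 1 ∧ ∀ i, ‖l i‖ < ρ → ‖l i‖ ^ n0 / ρ ^ n0 ≤ r0 := by
    obtain ⟨i2, -, hi2⟩ := Finset.exists_max_image (univ : Finset (Fin k))
      (fun i => if ‖l i‖ < ρ then ‖l i‖ ^ n0 / ρ ^ n0 else 0) ⟨i1, Finset.mem_univ _⟩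
    refine ⟨if ‖l i2‖ < ρ then ‖l i2‖ ^ n0 / ρ ^ n0 else 0, ?_, fun i hi => ?_⟩
    · split_ifs with h
      · rw [div_lt_one hPr]
        exact pow_lt_pow_left₀ h (norm_nonneg _) hn0.ne'
      · exact one_pos
    · have := hi2 i (Finset.mem_univ _)
      rw [if_pos hi] at this
      exact this
  set r : ℝ := max (1 / 2) ((1 + r0) / 2) with hr
  have hrpos : 0 < r := lt_of_lt_of_le (by norm_num) (le_max_left _ _)
  have hr1 : r < 1 := max_lt (by norm_num) (by linarith)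
  have hr0r : r0 < r := lt_of_lt_of_le (by linarith) (le_max_right _ _)
  set K : ℝ := ∑ i, ‖c i * l i ^ (j - ex i)‖ with hK
  have hK0 : 0 ≤ K := Finset.sum_nonneg fun _ _ => norm_nonneg _
  have hsmall : ∀ i, ∀ᶠ m : ℕ in atTop, ‖l i‖ < ρ →
      ((j + n0 * m).choose (ex i) : ℝ) * (‖l i‖ ^ n0 / ρ ^ n0) ^ m ≤ r ^ m := by
    intro i
    by_cases hi : ‖l i‖ < ρ
    · have h1 := choose_mul_pow_tendsto j n0 (ex i) hn0 (x := (‖l i‖ ^ n0 / ρ ^ n0) / r)
        (by positivity) (by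
          rw [div_lt_one hrpos]
          exact lt_of_le_of_lt (hr0' i hi) hr0r)
      filter_upwards [h1.eventually (gt_mem_nhds one_pos)] with m hm _
      rw [div_pow, mul_div_assoc', div_lt_one (pow_pos hrpos m)] at hm
      exact hm.le
    · exact Filter.Eventually.of_forall fun m h => absurd h hi
  have hsmall' : ∀ᶠ m : ℕ in atTop, ∀ i, ‖l i‖ < ρ →
      ((j + n0 * m).choose (ex i) : ℝ) * (‖l i‖ ^ n0 / ρ ^ n0) ^ m ≤ r ^ m :=
    Filter.eventually_all.mpr hsmall
  obtain ⟨N, hN⟩ := hup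
  have hupV : ∀ᶠ m : ℕ in atTop, -(K * r ^ m) ≤
      (∑ z ∈ V, (p z).eval (((j + n0 * m : ℕ) : ℝ) : ℂ) * z ^ m).re := by
    filter_upwards [hsmall', eventually_ge_atTop N] with m hm hmN
    have hpos : 0 < v (j + n0 * m) := hN _ (by nlinarith)
    have hqρ : ∀ i i', l i ^ n0 = l i' ^ n0 → ρ < ‖l i‖ → ρ < ‖l i'‖ := by
      intro i i' h h'
      rwa [← norm_eq_of_pow_eq hn0 h]
    have h1 := sum_eq_zero_of_gP l c ex n0 j hjex' (fun i => ρ < ‖l i‖) hqρ hvan m
    have h2 : ∀ i, c i * ((j + n0 * m).choose (ex i) : ℂ) * l i ^ (j + n0 * m - ex i) =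
        c i * ((bc (ex i) ((j + n0 * m : ℕ) : ℝ) : ℝ) : ℂ) * l i ^ (j - ex i) *
          (l i ^ n0) ^ m := by
      intro i
      rw [bc_nat]
      have h3 : l i ^ (j + n0 * m - ex i) = l i ^ (j - ex i) * (l i ^ n0) ^ m := by
        rw [← pow_mul, ← pow_add]
        congr 1
        have := hjex' i
        omega
      rw [h3]
      push_cast
      ring
    have h3 : (v (j + n0 * m) : ℂ) = P ^ m * ((∑ i, (if ‖l i‖ = ρ then
        c i * ((bc (ex i) ((j + n0 * m : ℕ) : ℝ) : ℝ) : ℂ) * l i ^ (j - ex i) *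
          (nz (l i) ^ n0) ^ m else 0)) + ∑ i, (if ‖l i‖ < ρ then
        c i * ((j + n0 * m).choose (ex i) : ℂ) * l i ^ (j - ex i) * (l i ^ n0 / P) ^ m else 0)) := by
      have h30 : (v (j + n0 * m) : ℂ) =
          ∑ i, c i * ((j + n0 * m).choose (ex i) : ℂ) * l i ^ (j + n0 * m - ex i) -
          ∑ i, (if ρ < ‖l i‖ then c i * ((j + n0 * m).choose (ex i) : ℂ) *
            l i ^ (j + n0 * m - ex i) else 0) := by
        rw [h1, sub_zero, hv]
      rw [h30, ← Finset.sum_sub_distrib, ← Finset.sum_add_distrib, Finset.mul_sum]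
      refine Finset.sum_congr rfl fun i _ => ?_
      rcases lt_trichotomy (‖l i‖) ρ with h | h | h
      · rw [if_neg (not_lt.mpr h.le), if_neg h.ne, if_pos h, sub_zero, zero_add]
        have h4 : l i ^ (j + n0 * m - ex i) = l i ^ (j - ex i) * (l i ^ n0) ^ m := by
          rw [← pow_mul, ← pow_add]
          congr 1
          have := hjex' i
          omega
        have h5 := pow_ne_zero m hP0
        rw [h4, div_pow]
        field_simp
      · rw [if_neg (not_lt.mpr h.le), if_pos h, if_neg (not_lt.mpr h.ge), sub_zero, add_zero,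
          h2 i, hXn i h, mul_pow]
        ring
      · rw [if_pos h, if_neg h.ne', if_neg (not_lt.mpr h.le), sub_self, add_zero, mul_zero]
    rw [hsum] at h3
    set E : ℂ := ∑ i, (if ‖l i‖ < ρ then
        c i * ((j + n0 * m).choose (ex i) : ℂ) * l i ^ (j - ex i) * (l i ^ n0 / P) ^ m else 0)
      with hE
    have hEle : ‖E‖ ≤ K * r ^ m := by
      rw [hE, hK, Finset.sum_mul]
      refine (norm_sum_le _ _).trans (Finset.sum_le_sum fun i _ => ?_)
      split_ifs with h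
      · have h4 : ‖c i * ((j + n0 * m).choose (ex i) : ℂ) * l i ^ (j - ex i) *
            (l i ^ n0 / P) ^ m‖ = ‖c i * l i ^ (j - ex i)‖ *
            (((j + n0 * m).choose (ex i) : ℝ) * (‖l i‖ ^ n0 / ρ ^ n0) ^ m) := by
          have h5 : ‖l i ^ n0 / P‖ = ‖l i‖ ^ n0 / ρ ^ n0 := by
            rw [norm_div, norm_pow, hP, Complex.norm_real, Real.norm_of_nonneg hPr.le]
          rw [norm_mul, norm_mul, norm_mul, norm_mul, Complex.norm_natCast,
            norm_pow (l i ^ n0 / P) m, h5]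
          ring
        rw [h4]
        exact mul_le_mul_of_nonneg_left (hm i h) (norm_nonneg _)
      · rw [norm_zero]
        positivity
    have h4 := congrArg Complex.re h3
    have h5 : P ^ m = (((ρ ^ n0) ^ m : ℝ) : ℂ) := by
      rw [hP]
      push_cast
      rfl
    rw [h5, Complex.ofReal_re, Complex.re_ofReal_mul, Complex.add_re] at h4
    have h6 : 0 < (∑ z ∈ V, (p z).eval (((j + n0 * m : ℕ) : ℝ) : ℂ) * z ^ m).re + E.re := by
      by_contra hcon
      push Not at hcon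
      have : (ρ ^ n0) ^ m * ((∑ z ∈ V, (p z).eval (((j + n0 * m : ℕ) : ℝ) : ℂ) * z ^ m).re +
          E.re) ≤ 0 := mul_nonpos_of_nonneg_of_nonpos (by positivity) hcon
      linarith
    have h7 := (le_abs_self _).trans ((Complex.abs_re_le_norm E).trans hEle)
    linarith
  have hnegV : ∀ X : ℝ, ∃ x, X ≤ x ∧ ∃ m : ℕ,
      (∑ z ∈ V, (p z).eval (x : ℂ) * z ^ m).re < 0 := by
    intro X
    obtain ⟨x, hx, m, hm⟩ := hneg X
    refine ⟨x, hx, m, ?_⟩
    rwa [hsum] at hm
  have hli1 : IsIntegral ℚ ((ρ : ℝ) : ℂ) := by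
    have hc1 : IsIntegral ℚ ((starRingEnd ℂ) (l i1)) := by
      obtain ⟨i', hi'⟩ := hconj i1
      rw [← hi']
      exact hal i'
    have h1 : IsIntegral ℚ (((ρ : ℝ) : ℂ) ^ 2) := by
      rw [hρdef, ← Complex.mul_conj']
      exact (hal i1).mul hc1
    exact h1.of_pow (by norm_num)
  have hPint : IsIntegral ℚ P := by
    rw [hP]
    push_cast
    exact hli1.pow n0
  have halgV : ∀ z ∈ V, IsIntegral ℚ z ∧ ∀ i, IsIntegral ℚ ((p z).coeff i) := by
    intro z hz
    obtain ⟨X, hX, rfl, -⟩ := hVmem z hz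
    obtain ⟨⟨i, -, h3⟩, -⟩ := hV1mem X hX
    refine ⟨?_, fun t => gP_coeff_integral l c ex n0 j hac hal _ t⟩
    rw [div_eq_mul_inv, ← h3]
    exact ((hal i).pow _).mul hPint.inv
  obtain ⟨α, hαV, -, hαt, hb0, -, hβi, hβn, σ, hσ, a, ha, hev⟩ := low_order V p hp0 hVu hVc hpc
    htorV hcount j n0 hn0 r K hrpos hr1 hK0 hupV hnegV halgV
  set β : ℂ := -((starRingEnd ℂ) ((p α).coeff 1)) / (‖(p α).coeff 1‖ : ℂ) with hβ
  obtain ⟨M, hM⟩ := eventually_atTop.mp hev
  obtain ⟨i, hi, hαi, -⟩ := hVnz α hαV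
  have hnt : ∀ m : ℕ, 0 < m → nz (l i) ^ m ≠ 1 := by
    intro m hm h
    apply hαt m hm
    rw [hαi, ← pow_mul, mul_comm, pow_mul, h, one_pow]
  have hli : l i ≠ 0 := by
    rw [← norm_ne_zero_iff, hi]
    exact hρ.ne'
  rcases hσ with rfl | rfl
  · refine ⟨i, β, hli, hβi.isAlgebraic, hβn, hnt, a, ha, M, fun m hm y hy0 hya => ?_⟩
    have h1 := hM m hm y hy0 hya
    rwa [one_mul, hαi] at h1
  · have hcβ : IsIntegral ℚ ((starRingEnd ℂ) β) := by
      have h1 : (starRingEnd ℂ) β = β⁻¹ := by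
        have h5 := Complex.mul_conj' β
        rw [hβn, Complex.ofReal_one, one_pow] at h5
        exact eq_inv_of_mul_eq_one_right h5
      rw [h1]
      exact hβi.inv
    obtain ⟨i', hi'⟩ := hconj i
    have hnzc : nz (l i') = (starRingEnd ℂ) (nz (l i)) := by
      have hli' : (starRingEnd ℂ) (l i) ≠ 0 := (_root_.map_ne_zero _).mpr hli
      rw [hi']
      unfold nz
      rw [if_neg hli, if_neg hli', map_div₀, Complex.norm_conj, Complex.conj_ofReal]
    refine ⟨i', (starRingEnd ℂ) β, ?_, hcβ.isAlgebraic, ?_, ?_, a, ha, M,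
      fun m hm y hy0 hya h => ?_⟩
    · rw [hi']
      exact (_root_.map_ne_zero _).mpr hli
    · rw [Complex.norm_conj]
      exact hβn
    · intro m hm h
      apply hnt m hm
      rw [hnzc, ← map_pow] at h
      have := congrArg (starRingEnd ℂ) h
      rwa [Complex.conj_conj, map_one] at this
    · apply hM m hm y hy0 hya
      rw [hnzc, ← map_pow, ← map_pow] at h
      have h1 := congrArg (starRingEnd ℂ) h
      rw [Complex.conj_conj, map_mul, Complex.conj_conj, ← Complex.exp_conj, map_mul,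
        Complex.conj_ofReal, Complex.conj_I] at h1
      rw [hαi, h1]
      congr 2
      push_cast
      ring

end Pool.Agent.FrUP
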