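import Pool.Agent.FrozenUP.Cert
import Pool.Agent.DD7719.NQ

/-! The certificate as an existential real condition. -/

set_option autoImplicit false

namespace Pool.Agent.FrUP

open Finset
open Pool.Agent.DD7719.M Pool.Agent.DD7719.M.GS Pool.Agent.PT Pool.Agent.AllR

/-- the last clause -/
def QX (k : ℕ) (tt : ℝ) : QT := fun l c ex _ j A s d ρ z _ _ _ =>
  d + 1 = k ∧ (ρ = 0 ∨ (∑ d' ∈ range k, bc d' tt * (Lev k s d' l c z ex A j ρ).re) < 0)

theorem qX_congr (k : ℕ) (tt : ℝ) : QCongr k (QX k tt) := by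
  intro l c ex ex' n0 j A A' s d ρ z z' Z1 Z2 hex hA h
  unfold QX at h ⊢
  simp only [lev_congr hex hA]
  exact h

lemma levX_eq {k : ℕ} (l c : Fin k → ℂ) (ex : Fin k → ℕ) (hex : ∀ i, ex i < k)
    (A : Fin k → Fin k → ℤ) (s j : ℕ) (ρ x : ℝ) (z : Fin k → ℂ) :
    (LevX l c ex A s j ρ x z).re = ∑ d ∈ range k, bc d x * (LevF l c ex A s j d ρ z).re := by
  classical
  have h1 : LevX l c ex A s j ρ x z = ∑ d ∈ range k, ((bc d x : ℝ) : ℂ) *
      LevF l c ex A s j d ρ z := by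
    unfold LevX LevF
    simp only [Finset.mul_sum]
    rw [Finset.sum_comm]
    refine Finset.sum_congr rfl fun i _ => ?_
    rw [Finset.sum_eq_single (ex i)]
    · by_cases h : ‖l i‖ = ρ
      · simp only [h, and_self, if_true]
        unfold Wt
        ring
      · simp only [h, false_and, if_false, mul_zero]
    · intro d _ hd
      rw [if_neg (fun h => hd h.2.symm), mul_zero]
    · intro h
      exact absurd (Finset.mem_range.mpr (hex i)) h
  rw [h1, Complex.re_sum]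
  refine Finset.sum_congr rfl fun d _ => ?_
  rw [Complex.re_ofReal_mul]

section
variable {Γ : Type} (kk bm bn : List Γ → ℕ)
  (hk : UF (fun x _ => kk x)) (hbm : UF (fun x _ => bm x)) (hbn : UF (fun x _ => bn x))

include hk hbm hbn in
/-- the level sum in the environment `d', d, s` -/
theorem cf_lev3 {zr : (ℕ → ℝ) → ℕ → ℂ}
    (hz : ∀ {g : List Γ → (ℕ → ℕ) → ℕ}, UF g → CF (fun x e α => zr α (g x e))) :
    CF (fun x e α => Lev (kk x) (e 2) (e 0) (rl α) (rc α) (zr α) (rex (kk x) α)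
      (rA (bm x) α) (rj (bn x + kk x) α) (rρ α)) := by
  classical
  unfold Lev
  refine CF.sum hk ?_
  refine CF.msub (m := fun x e α => rex (kk x) α (e 0))
    (f := fun x e α q => if ‖rl α (e 0)‖ = rρ α ∧ q = e 1 then
      rc α (e 0) * rl α (e 0) ^ (rj (bn x + kk x) α - e 1) *
      ∏ t ∈ Finset.range (kk x), (if t < e 3 then zr α t ^ rA (bm x) α t (e 0) else 1) else 0)
    (ns_rex hk (UF.var 0)) ?_
  refine CF.rite ?_ ?_ ?_ CF.zero
  · exact RE.and (RE.eq (cf_rl (UF.var 1)).norm rf_rρ) (RE.up (UP.eq (UF.var 0) (UF.var 2)))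
  · refine (RE.or (RE.ne (cf_rl (UF.var 1)).norm rf_rρ)
      (RE.up (UP.ne (UF.var 0) (UF.var 2)))).congr fun x e α => ?_
    exact not_and_or.symm
  · refine ((cf_rc (UF.var 1)).mul (CF.npow (cf_rl (UF.var 1))
      (NF.tsub (nf_rj (hbn.add hk)) (NF.uf (UF.var 2))))).mul (CF.prod hk ?_)
    exact CF.ite (UP.lt (UF.var 0) (UF.var 5)) (CF.zpow (hz (UF.var 0))
      (zf_rA hbm (UF.var 0) (UF.var 2))) CF.one

theorem rf_bc : RF (Γ := Γ) (fun x e α => bc (e 0) (α 0)) := by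
  unfold bc
  refine RF.div (RF.prod (b := fun _ e => e 0) (f := fun _ _ α i => α 0 - (i : ℝ)) (UF.var 0) ?_)
    (RF.prod (b := fun _ e => e 0) (f := fun _ _ _ i => (i : ℝ) + 1) (UF.var 0) ?_)
  · exact (RF.var (UF.const 0)).sub (RF.nat (UF.var 0))
  · exact (RF.nat (UF.var 0)).add RF.one

include hk hbm hbn in
theorem re_QX : RE (fun x e α => QX (kk x) (α 0) (rl (fun v => α (2 * v + 1)))
      (rc (fun v => α (2 * v + 1))) (rex (kk x) (fun v => α (2 * v + 1)))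
      (rn0 (bn x) (fun v => α (2 * v + 1))) (rj (bn x + kk x) (fun v => α (2 * v + 1)))
      (rA (bm x) (fun v => α (2 * v + 1))) (e 1) (e 0) (rρ (fun v => α (2 * v + 1)))
      (rz (fun v => α (2 * v + 1))) (rz' (fun v => α (2 * v + 1)))
      (rz1 (fun v => α (2 * v + 1))) (rz2 (fun v => α (2 * v + 1)))) := by
  unfold QX
  have hL := cf_lev3 kk bm bn hk hbm hbn (zr := rz) cf_rz
  refine RE.and (RE.up (UP.eq ((UF.var 0).add (UF.const 1)) hk))
    (RE.or (RE.aff (RE.eq rf_rρ RF.zero) 2 1) (RE.lt (RF.sum hk ?_) RF.zero))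
  exact rf_bc.mul (RF.aff hL.re 2 1)

end

/-! ### Conversions -/

theorem certQX_toF {k : ℕ} {l c : ℕ → ℂ} {ex : ℕ → ℕ} (hex : ∀ i, i < k → ex i < k) {bm bn : ℕ}
    {ε δ tt : ℝ} (h : CertQN k l c ex bm bn ε δ (QX k tt)) :
    CertX k (fun i => l i) (fun i => c i) (fun i => ex i) (2 ^ bm) (2 ^ bn) ε δ tt := by
  obtain ⟨n0, j, A, H, D, s, w, τ, z, z', Z1, Z2, ρ, d, hbase, hz, hz', hQ⟩ := h
  refine ⟨n0, j, fun i t => A i t, fun i t => H i t, D, s, fun i t => w i t, fun i => τ i, ρ, d,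
    fun t => z t, hbase.toF, fun t => hz t t.2, hQ.1, ?_⟩
  rcases hQ.2 with h | h
  · exact Or.inl h
  · right
    rw [levX_eq _ _ _ (fun i => hex i i.2)]
    simp only [lev_eq_levF] at h
    exact h

theorem CertX.toN {k : ℕ} {l c : ℕ → ℂ} {ex : ℕ → ℕ} (hex : ∀ i, i < k → ex i < k)
    {M Nb bm bn : ℕ} {ε δ tt : ℝ}
    (h : CertX k (fun i => l i) (fun i => c i) (fun i => ex i) M Nb ε δ tt)
    (hM : M < 2 ^ bm) (hN : Nb < 2 ^ bn) :
    CertQN k l c ex bm bn ε δ (QX k tt) := by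
  classical
  obtain ⟨n0, j, A, H, D, s, w, τ, ρ, d, z, hbase, hz, hd, hQ⟩ := h
  refine ⟨n0, j, ext2 0 A, ext2 0 H, D, s, ext2 0 w, ext1 0 τ, ext1 1 z, fun _ => 1,
    fun _ _ => 1, fun _ _ => 1, ρ, d, hbase.toN hM hN, ?_, fun _ _ => norm_one, hd, ?_⟩
  · rw [forall_fin]
    intro t
    rw [ext1_fin]
    exact hz t
  · rcases hQ with h | h
    · exact Or.inl h
    · right
      rw [levX_eq _ _ _ (fun i => hex i i.2)] at h
      refine lt_of_eq_of_lt (Finset.sum_congr rfl fun d' _ => ?_) h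
      rw [levF_ext l c ex A s j d' ρ z (ext1 1 z) (ext1_fin 1 z)]

end Pool.Agent.FrUP
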