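import Pool.Agent.FrozenUP.Complete
import Pool.Agent.FrozenUP.QX
import Pool.Agent.DD7719.GSimple

/-! Non-critical ultimately positive sequences have ultimately positive frozen sequences. -/

set_option autoImplicit false

namespace Pool.Agent.FrUP

open Filter Topology Finset
open Pool.Agent.DD7719.M Pool.Agent.DD7719.M.GS

/-! ### Binomial coefficients of large real numbers -/

lemma bc_zero (x : ℝ) : bc 0 x = 1 := by simp [bc]

lemma bc_succ (e : ℕ) (x : ℝ) : bc (e + 1) x = bc e x * ((x - e) / (e + 1)) := by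
  unfold bc
  rw [prod_range_succ, prod_range_succ]
  have h1 : (∏ i ∈ range e, ((i : ℝ) + 1)) ≠ 0 := by
    apply Finset.prod_ne_zero_iff.mpr
    intro i _
    positivity
  have h2 : ((e : ℝ) + 1) ≠ 0 := by positivity
  field_simp

lemma bc_pos (e : ℕ) (x : ℝ) (hx : (e : ℝ) ≤ x) : 0 < bc e x := by
  induction e with
  | zero => rw [bc_zero]; exact one_pos
  | succ e ih =>
    push_cast at hx
    rw [bc_succ]
    have h1 := ih (by linarith)
    have h2 : 0 < x - e := by linarith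
    positivity

lemma bc_ratio (e : ℕ) (x : ℝ) (hx : 2 * (e : ℝ) < x) :
    ∀ d < e, bc d x ≤ (e / (x - e)) * bc e x := by
  induction e with
  | zero => intro d hd; omega
  | succ e ih =>
    intro d hd
    push_cast at hx
    have he0 : (0 : ℝ) ≤ e := Nat.cast_nonneg e
    have hxe : 0 < x - e := by linarith
    have hxe1 : 0 < x - (e + 1) := by linarith
    have hpos := bc_pos e x (by linarith)
    have h1 : bc e x ≤ (((e + 1 : ℕ) : ℝ) / (x - ((e + 1 : ℕ) : ℝ))) * bc (e + 1) x := by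
      rw [bc_succ]
      push_cast
      have h2 : ((e : ℝ) + 1) / (x - (e + 1)) * (bc e x * ((x - e) / (e + 1))) =
          bc e x * ((x - e) / (x - (e + 1))) := by
        field_simp
      rw [h2]
      have h3 : 1 ≤ (x - e) / (x - (e + 1)) := by
        rw [one_le_div hxe1]
        linarith
      nlinarith
    rcases Nat.lt_succ_iff_lt_or_eq.mp hd with h | h
    · refine (ih (by linarith) d h).trans (le_trans ?_ h1)
      have h4 : (e : ℝ) / (x - e) ≤ 1 := by
        rw [div_le_one hxe]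
        linarith
      nlinarith
    · rw [h]
      exact h1

variable {k : ℕ}

open scoped Classical in
/-- if the real parts of a level vanish, so does the level -/
lemma level_zero (l c : Fin k → ℂ) (ex : Fin k → ℕ) (n0 j : ℕ) (hn0 : 0 < n0)
    (hexj : ∀ i, ex i ≤ j) (v : ℕ → ℝ)
    (hv : ∀ n, ∑ i, c i * (n.choose (ex i) : ℂ) * l i ^ (n - ex i) = (v n : ℂ)) (ρ : ℝ) (d : ℕ)
    (hρ : 0 < ρ) (hvan : ∀ m, ∑ i, (if Above ρ d (l i) (ex i) then
      c i * ((j + n0 * m).choose (ex i) : ℂ) * l i ^ (j + n0 * m - ex i) else 0) = 0)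
    (hre : ∀ m, (levelSum l c ex n0 j ρ d m).re = 0) (m : ℕ) :
    ∑ i, (if ‖l i‖ = ρ ∧ ex i = d then
      c i * ((j + n0 * m).choose (ex i) : ℂ) * l i ^ (j + n0 * m - ex i) else 0) = 0 := by
  have hlev := level_asym l c ex n0 j hn0 hexj ρ d hρ hvan
  have hasym : Tendsto (fun M : ℕ => ((v (j + n0 * M) : ℝ) : ℂ) /
      ((ρ ^ (n0 * M) * (M : ℝ) ^ d : ℝ) : ℂ) -
    ((((j + n0 * M).choose d : ℝ) / (M : ℝ) ^ d : ℝ) : ℂ) *
      levelSum l c ex n0 j ρ d M)
    atTop (𝓝 0) := by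
    refine hlev.congr fun M => ?_
    rw [hv]
  obtain ⟨-, -, h3, -⟩ := level_data l c ex n0 j hn0 v ρ d hρ hasym
  have h4 := sum_vanish l c ex n0 j hexj (fun i => ‖l i‖ = ρ ∧ ex i = d) (by
    rintro i i' h h' ⟨h1, h2⟩
    exact ⟨by rw [← norm_eq_of_pow_eq hn0 h]; exact h1, by rw [← h']; exact h2⟩) (by
    rintro i ⟨h1, h2⟩
    by_contra hG
    have hi : l i ≠ 0 := norm_pos_iff.mp (by rw [h1]; exact hρ)
    have hnt := levelSum_not_tendsto l c ex n0 j hn0 i hi hG 1 0 (fun i' _ h => by simpa using h)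
    apply hnt
    rw [h1, h2]
    simpa using h3 hre) m
  refine Eq.trans (Finset.sum_congr rfl fun i _ => ?_) h4
  by_cases h : ‖l i‖ = ρ ∧ ex i = d
  · rw [if_pos h, if_pos h]
  · rw [if_neg h, if_neg h]

open scoped Classical in
/-- **Nonnegativity of the frozen leading function of a circle.** -/
theorem lev_nonneg (l c : Fin k → ℂ) (ex : Fin k → ℕ) (hex : ∀ i, ex i < k) (n0 j : ℕ)
    (hn0 : 0 < n0) (hexj : ∀ i, ex i ≤ j) (v : ℕ → ℝ)
    (hv : ∀ n, ∑ i, c i * (n.choose (ex i) : ℂ) * l i ^ (n - ex i) = (v n : ℂ))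
    (A : Fin k → Fin k → ℤ) (s : ℕ) (y : Fin k → ℝ) (hrep : Rep l n0 A s y) (ρ : ℝ) (hρ : 0 < ρ)
    (hvan : ∀ m, ∑ i, (if ρ < ‖l i‖ then
      c i * ((j + n0 * m).choose (ex i) : ℂ) * l i ^ (j + n0 * m - ex i) else 0) = 0)
    (hno : ∀ d < k, (∀ m, ∑ i, (if Above ρ d (l i) (ex i) then
      c i * ((j + n0 * m).choose (ex i) : ℂ) * l i ^ (j + n0 * m - ex i) else 0) = 0) →
      ∀ z z' : Fin k → ℂ, (∀ t, ‖z t‖ = 1) → (∀ t, ‖z' t‖ = 1) →
      ¬ ((LevF l c ex A s j d ρ z).re < 0 ∨ (0 < d ∧ (LevF l c ex A s j d ρ z).re ≤ 0 ∧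
        (LevF l c ex A s j d ρ z').re ≠ 0))) :
    ∃ τ : ℝ, ∀ x : ℝ, τ ≤ x → ∀ z : Fin k → ℂ, (∀ t, ‖z t‖ = 1) →
      0 ≤ (LevX l c ex A s j ρ x z).re := by
  -- vanishing above a level whose upper levels vanish
  have hstep : ∀ e d : ℕ, d + e + 1 = k → (∀ d', d < d' → d' < k → ∀ z : Fin k → ℂ,
      (∀ t, ‖z t‖ = 1) → (LevF l c ex A s j d' ρ z).re = 0) →
      ∀ m, ∑ i, (if Above ρ d (l i) (ex i) then
      c i * ((j + n0 * m).choose (ex i) : ℂ) * l i ^ (j + n0 * m - ex i) else 0) = 0 := by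
    intro e
    induction e with
    | zero =>
      intro d hd _ m
      refine Eq.trans (Finset.sum_congr rfl fun i _ => ?_) (hvan m)
      have h2 : Above ρ d (l i) (ex i) ↔ ρ < ‖l i‖ := above_iff (by omega) (hex i)
      simp only [h2]
    | succ e ih =>
      intro d hd h m
      have h1 := ih (d + 1) (by omega) (fun d' hd' hd'k => h d' (by omega) hd'k)
      have h2 := level_zero l c ex n0 j hn0 hexj v hv ρ (d + 1) hρ h1 (fun m => by
        rw [levelSum_eq l c ex n0 j (d + 1) ρ s A y hrep.1 hrep.2 m]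
        exact h (d + 1) (by omega) (by omega) _ (fun t => Complex.norm_exp_ofReal_mul_I _)) m
      rw [← add_zero (0 : ℂ)]
      refine Eq.trans ?_ (congrArg₂ (· + ·) (h1 m) h2)
      rw [← Finset.sum_add_distrib]
      refine Finset.sum_congr rfl fun i _ => ?_
      unfold Above
      by_cases ha : ρ < ‖l i‖
      · have hb : ¬ (‖l i‖ = ρ ∧ ex i = d + 1) := fun hb => by linarith [hb.1]
        simp only [ha, true_or, if_true, hb, if_false, add_zero]
      · by_cases hb : ‖l i‖ = ρ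
        · by_cases hc : d + 1 < ex i
          · have hd1 : ¬ ex i = d + 1 := by omega
            have hd2 : d < ex i := by omega
            simp only [ha, hb, hρ, hc, hd1, hd2, true_and, and_true, or_true, if_true, and_false,
              if_false, add_zero]
          · by_cases hd1 : ex i = d + 1
            · have hd2 : d < ex i := by omega
              simp only [ha, hb, hρ, hc, hd1, hd2, true_and, and_true, false_or,
                if_true, if_false, zero_add, and_self, lt_self_iff_false]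
              rw [if_pos (by omega)]
            · have hd2 : ¬ d < ex i := by omega
              simp only [ha, hb, hρ, hc, hd1, hd2, true_and, and_false, or_false,
                if_false, add_zero]
        · simp only [ha, hb, false_and, or_false, if_false, add_zero]
  by_cases hD : ∃ d, d < k ∧ ∃ z : Fin k → ℂ, (∀ t, ‖z t‖ = 1) ∧
      (LevF l c ex A s j d ρ z).re ≠ 0
  swap
  · push Not at hD
    refine ⟨0, fun x _ z hz => ?_⟩
    rw [levX_eq l c ex hex]
    apply le_of_eq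
    symm
    apply Finset.sum_eq_zero
    intro d hd
    rw [hD d (Finset.mem_range.mp hd) z hz, mul_zero]
  · obtain ⟨d1, ⟨hd1k, z1, hz1, hne1⟩, hmax⟩ : ∃ d1, (d1 < k ∧ ∃ z : Fin k → ℂ, (∀ t, ‖z t‖ = 1) ∧
        (LevF l c ex A s j d1 ρ z).re ≠ 0) ∧ ∀ d', d1 < d' → d' < k → ∀ z : Fin k → ℂ,
        (∀ t, ‖z t‖ = 1) → (LevF l c ex A s j d' ρ z).re = 0 := by
      classical
      obtain ⟨d0, hd0⟩ := hD
      obtain ⟨d1, hd1, hmax⟩ := Finset.exists_max_image ((range k).filter fun d =>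
        ∃ z : Fin k → ℂ, (∀ t, ‖z t‖ = 1) ∧ (LevF l c ex A s j d ρ z).re ≠ 0) id
        ⟨d0, by simp only [Finset.mem_filter, Finset.mem_range]; exact hd0⟩
      simp only [Finset.mem_filter, Finset.mem_range] at hd1 hmax
      refine ⟨d1, hd1, fun d' hd' hd'k z hz => ?_⟩
      by_contra hcon
      have := hmax d' ⟨hd'k, z, hz, hcon⟩
      simp only [id] at this
      omega
    have hv1 := hstep (k - 1 - d1) d1 (by omega) hmax
    have hn1 := hno d1 hd1k hv1
    have hnn : ∀ z : Fin k → ℂ, (∀ t, ‖z t‖ = 1) → 0 ≤ (LevF l c ex A s j d1 ρ z).re := by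
      intro z hz
      by_contra hcon
      exact hn1 z z hz hz (Or.inl (not_le.mp hcon))
    -- only levels up to d1 matter
    have hexp : ∀ x : ℝ, ∀ z : Fin k → ℂ, (∀ t, ‖z t‖ = 1) →
        (LevX l c ex A s j ρ x z).re = ∑ d ∈ range (d1 + 1), bc d x * (LevF l c ex A s j d ρ z).re := by
      intro x z hz
      rw [levX_eq l c ex hex]
      symm
      apply Finset.sum_subset
      · intro d hd
        rw [Finset.mem_range] at hd ⊢
        omega
      · intro d hd hd'
        rw [Finset.mem_range] at hd hd'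
        rw [hmax d (by omega) hd z hz, mul_zero]
    rcases Nat.eq_zero_or_pos d1 with h0 | hd10
    · refine ⟨0, fun x _ z hz => ?_⟩
      rw [hexp x z hz, h0, zero_add, Finset.sum_range_one, bc_zero, one_mul, ← h0]
      exact hnn z hz
    · have hpos : ∀ z : Fin k → ℂ, (∀ t, ‖z t‖ = 1) → 0 < (LevF l c ex A s j d1 ρ z).re := by
        intro z hz
        by_contra hcon
        exact hn1 z z1 hz hz1 (Or.inr ⟨hd10, not_lt.mp hcon, hne1⟩)
      obtain ⟨μ, hμ, hμle⟩ := exists_torus_bound l c ex A s j d1 ρ hpos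
      obtain ⟨C, hC0, hC⟩ : ∃ C : ℝ, 0 ≤ C ∧ ∀ d < d1, ∀ z : Fin k → ℂ, (∀ t, ‖z t‖ = 1) →
          |(LevF l c ex A s j d ρ z).re| ≤ C := by
        refine ⟨∑ d ∈ range d1, ∑ i, ‖c i * l i ^ (j - d)‖, Finset.sum_nonneg fun _ _ =>
          Finset.sum_nonneg fun _ _ => norm_nonneg _, fun d hd z hz => ?_⟩
        refine (Complex.abs_re_le_norm _).trans ?_
        refine le_trans ?_ (Finset.single_le_sum (f := fun d => ∑ i, ‖c i * l i ^ (j - d)‖)
          (fun _ _ => Finset.sum_nonneg fun _ _ => norm_nonneg _) (Finset.mem_range.mpr hd))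
        unfold LevF
        refine (norm_sum_le _ _).trans (Finset.sum_le_sum fun i _ => ?_)
        split_ifs
        · rw [norm_mul, show (∏ t : Fin k, (if (t : ℕ) < s then z t ^ A t i else 1)) =
            Wt A s z i from rfl, norm_Wt A s z hz i, mul_one]
        · rw [norm_zero]
          exact norm_nonneg _
      refine ⟨2 * d1 + 1 + d1 * d1 * C / μ, fun x hx z hz => ?_⟩
      have hd1R : (0 : ℝ) ≤ d1 := Nat.cast_nonneg d1
      have hq : 0 ≤ (d1 : ℝ) * d1 * C / μ := by positivity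
      have hx2 : 2 * (d1 : ℝ) < x := by linarith
      have hxd : 0 < x - d1 := by linarith
      rw [hexp x z hz, Finset.sum_range_succ]
      have hb := bc_pos d1 x (by linarith)
      have h1 : -(d1 * ((d1 / (x - d1)) * bc d1 x) * C) ≤
          ∑ d ∈ range d1, bc d x * (LevF l c ex A s j d ρ z).re := by
        rw [neg_le, ← Finset.sum_neg_distrib]
        calc ∑ d ∈ range d1, -(bc d x * (LevF l c ex A s j d ρ z).re)
            ≤ ∑ _d ∈ range d1, ((d1 / (x - d1)) * bc d1 x) * C := by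
              refine Finset.sum_le_sum fun d hd => ?_
              rw [Finset.mem_range] at hd
              have h2 := bc_ratio d1 x hx2 d hd
              have h3 := bc_pos d x (by
                have : (d : ℝ) ≤ d1 := by exact_mod_cast hd.le
                linarith)
              have h4 := hC d hd z hz
              calc -(bc d x * (LevF l c ex A s j d ρ z).re)
                  ≤ |bc d x * (LevF l c ex A s j d ρ z).re| := neg_le_abs _
                _ = bc d x * |(LevF l c ex A s j d ρ z).re| := by rw [abs_mul, abs_of_pos h3]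
                _ ≤ _ := mul_le_mul h2 h4 (abs_nonneg _) (by positivity)
          _ = d1 * ((d1 / (x - d1)) * bc d1 x) * C := by
              rw [Finset.sum_const, Finset.card_range, nsmul_eq_mul]
              ring
      have h5 : bc d1 x * μ ≤ bc d1 x * (LevF l c ex A s j d1 ρ z).re :=
        mul_le_mul_of_nonneg_left (hμle z hz) hb.le
      have h6 : d1 * ((d1 / (x - d1)) * bc d1 x) * C ≤ bc d1 x * μ := by
        have h7 : (d1 : ℝ) * d1 * C / μ ≤ x - d1 := by linarith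
        rw [div_le_iff₀ hμ] at h7
        have h8 : (d1 : ℝ) * ((d1 / (x - d1)) * bc d1 x) * C = bc d1 x * (d1 * d1 * C / (x - d1)) := by
          field_simp
        rw [h8]
        refine mul_le_mul_of_nonneg_left ?_ hb.le
        rw [div_le_iff₀ hxd]
        linarith
      linarith

open scoped Classical in
/-- **Non-critical ultimately positive sequences.** -/
theorem frozen_of_noncrit (l c : Fin k → ℂ) (ex : Fin k → ℕ) (R Q MH Q' e Nb : ℕ) (hk : 0 < k)
    (hex : ∀ i, ex i < k)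
    (hR : 1 ≤ R)
    (hQ : 2 * k * R ≤ Q) (hMH : k.factorial * (Q ^ k + 1) ^ k ≤ MH) (δ : ℝ)
    (hδ0 : 0 ≤ δ) (hδ1 : 2 * k * MH * δ ≤ 1)
    (hδ2 : (k : ℝ) ^ 4 * (Q ^ k + 1) * Q ^ (k + 1) * MH ^ 3 * δ ^ 2 ≤ 1)
    (hδ3 : 2 * (k : ℝ) * R * δ ≤ 1)
    (hQ' : 0 < Q') (hδQ' : 7 / (Q' : ℝ) ≤ δ) (he : 0 < e) (hNb : e * Q' ^ k ≤ Nb)
    (hrb : RelBound k l R)
    (htor : ∀ i i', l i ≠ 0 → l i' ≠ 0 → (∃ n : ℕ, 0 < n ∧ (l i / l i') ^ n = 1) →
      (l i / l i') ^ e = 1)
    (hac : ∀ i, IsIntegral ℚ (c i)) (hal : ∀ i, IsIntegral ℚ (l i))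
    (v : ℕ → ℝ)
    (hv : ∀ n, ∑ i, c i * (n.choose (ex i) : ℂ) * l i ^ (n - ex i) = (v n : ℂ))
    (hup : ∃ N, ∀ n, N ≤ n → 0 < v n)
    (hno : ¬ CertF k l c ex MH Nb (2 / Q) δ) :
    ∃ τ : ℝ, ∀ x : ℚ, τ ≤ x → ∃ N, ∀ n, N ≤ n → 0 < (fs l c ex (x : ℝ) n).re := by
  obtain ⟨n0, hn0, hn0Nb, hen0, hdata⟩ := class_data0 l c ex R Q MH Q' e Nb hk hex hR hQ hMH δ
    hδ0 hδ1 hδ2 hδ3 hQ' hδQ' he hNb hrb v hv
  obtain ⟨τ0, hτ0⟩ := exists_root_bound l c ex Nb
  -- the threshold of a class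
  have hcls : ∀ j, k ≤ j → j < k + n0 → ∃ τ : ℝ, ∀ x : ℝ, τ ≤ x → ClsOK l c ex x n0 j := by
    intro j hj hj'
    obtain ⟨A, H, D, s, w, τ', y, hrep, hcase⟩ := hdata j hj hj'
    have hexj : ∀ i, ex i ≤ j := fun i => ((hex i).le.trans hj)
    have hbase : ∀ (ρ : ℝ) (d : ℕ), 0 ≤ ρ → d < k → (∀ m, ∑ i, (if Above ρ d (l i) (ex i) then
        c i * ((j + n0 * m).choose (ex i) : ℂ) * l i ^ (j + n0 * m - ex i) else 0) = 0) →
        BaseF k l c ex MH Nb (2 / Q) δ n0 j A H D s w τ' ρ d := by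
      intro ρ d hρ hd hvan
      rcases hcase with hb | ⟨i0, hb, _⟩
      · exact BaseF_change hb ρ d hρ hd (fun m _ => hvan m)
      · exact BaseF_change hb ρ d hρ hd (fun m _ => hvan m)
    -- the circles
    have hcirc : ∀ i1 : Fin k, ∃ τ : ℝ, ∀ x : ℝ, τ ≤ x → 0 < ‖l i1‖ →
        (∀ m, ∑ i, (if ‖l i1‖ < ‖l i‖ then
          c i * ((j + n0 * m).choose (ex i) : ℂ) * l i ^ (j + n0 * m - ex i) else 0) = 0) →
        ∀ z : Fin k → ℂ, (∀ t, ‖z t‖ = 1) → 0 ≤ (LevX l c ex A s j ‖l i1‖ x z).re := by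
      intro i1
      by_cases h0 : 0 < ‖l i1‖ ∧ (∀ m, ∑ i, (if ‖l i1‖ < ‖l i‖ then
          c i * ((j + n0 * m).choose (ex i) : ℂ) * l i ^ (j + n0 * m - ex i) else 0) = 0)
      · obtain ⟨τ, hτ⟩ := lev_nonneg l c ex hex n0 j hn0 hexj v hv A s y hrep ‖l i1‖ h0.1 h0.2 (by
          intro d hd hvan z z' hz hz' hcon
          obtain ⟨h1, h2, h3, h4, h5, h6, h7, h8, h9, h10, h11, h12, h13, h14, h15, h16⟩ :=
            hbase ‖l i1‖ d h0.1.le hd hvan
          exact hno ⟨n0, j, A, H, D, s, w, τ', z, z', ‖l i1‖, d, h1, h2, h3, h4, h5, h6, h7, h8,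
            h9, h10, h11, h12, h13, hz, hz', h14, h15, h16, Or.inr hcon⟩)
        exact ⟨τ, fun x hx _ _ => hτ x hx⟩
      · exact ⟨0, fun x _ h1 h2 => absurd ⟨h1, h2⟩ h0⟩
    choose τc hτc using hcirc
    obtain ⟨T, hT⟩ : ∃ T : ℝ, ∀ i1, τc i1 ≤ T := by
      obtain ⟨T, hT⟩ := (Finset.univ.image τc).bddAbove
      exact ⟨T, fun i => hT (Finset.mem_coe.mpr (Finset.mem_image_of_mem _ (Finset.mem_univ i)))⟩
    refine ⟨max τ0 T, fun x hx => ?_⟩
    have hroot : ∀ i : Fin k, (gP l c ex n0 j (l i ^ n0)).eval ((x : ℝ) : ℂ) = 0 →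
        gP l c ex n0 j (l i ^ n0) = 0 :=
      fun i => hτ0 x ((le_max_left _ _).trans hx) n0 hn0Nb j (by omega) i
    refine ⟨A, s, y, hrep, fun hvan => ?_, fun ρ hρ hvan z hz => ?_⟩
    · have hq : ∀ i i', l i ^ n0 = l i' ^ n0 → l i ≠ 0 → l i' ≠ 0 := by
        intro i i' h h'
        rw [← norm_ne_zero_iff] at h' ⊢
        rwa [← norm_eq_of_pow_eq hn0 h]
      have hg := van_of_frozen l c ex n0 j hexj x hroot (fun i => l i ≠ 0) hq (fun i h => h) hvan
      obtain ⟨N, hN⟩ := hup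
      have h1 := hN (j + n0 * N) (by nlinarith)
      have h2 := sum_eq_zero_of_gP l c ex n0 j hexj (fun i => l i ≠ 0) hq hg N
      have h3 : ∑ i, c i * ((j + n0 * N).choose (ex i) : ℂ) * l i ^ (j + n0 * N - ex i) = 0 := by
        refine Eq.trans (Finset.sum_congr rfl fun i _ => ?_) h2
        split_ifs with h
        · rfl
        · push Not at h
          rw [h, zero_pow (by have := hex i; have := Nat.zero_le (n0 * N); omega), mul_zero]
      rw [hv] at h3
      have h4 : v (j + n0 * N) = 0 := by exact_mod_cast h3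
      linarith
    · have hq : ∀ i i', l i ^ n0 = l i' ^ n0 → ρ < ‖l i‖ → ρ < ‖l i'‖ := by
        intro i i' h h'
        rwa [← norm_eq_of_pow_eq hn0 h]
      have hg := van_of_frozen l c ex n0 j hexj x hroot (fun i => ρ < ‖l i‖) hq
        (fun i h => norm_pos_iff.mp (hρ.trans h)) hvan
      have hval : (∑ i, (if ‖l i‖ = ρ then fc l c ex x i * l i ^ j * Wt A s z i else 0)) =
          LevX l c ex A s j ρ x z := by
        unfold LevX
        refine Finset.sum_congr rfl fun i _ => ?_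
        split_ifs with h2
        · rw [fc_mul_pow l c ex x j i (hexj i) (norm_pos_iff.mp (by rw [h2]; exact hρ))]
        · rfl
      rw [hval]
      by_cases hi1 : ∃ i1 : Fin k, ‖l i1‖ = ρ
      · obtain ⟨i1, rfl⟩ := hi1
        exact hτc i1 x ((hT i1).trans ((le_max_right _ _).trans hx)) hρ
          (sum_eq_zero_of_gP l c ex n0 j hexj (fun i => ‖l i1‖ < ‖l i‖) hq hg) z hz
      · push Not at hi1
        unfold LevX
        rw [Finset.sum_eq_zero fun i _ => if_neg (hi1 i), Complex.zero_re]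
  choose! τj hτj using hcls
  obtain ⟨T, hT⟩ : ∃ T : ℝ, ∀ j ∈ range (k + n0), τj j ≤ T := by
    obtain ⟨T, hT⟩ := ((range (k + n0)).image τj).bddAbove
    exact ⟨T, fun j hj => hT (Finset.mem_coe.mpr (Finset.mem_image_of_mem _ hj))⟩
  refine ⟨T, fun x hx => ?_⟩
  refine up_at l c ex hk x n0 hn0 ?_ hal ?_ (fun n => (fs l c ex x n).re)
    (fun n => fs_real l c ex hk hex v hv x n) ?_
  · exact fun i => fc_integral l c ex hac hal x i
  · intro i i' hi hi' n hn h
    have h4 := htor i i' hi hi' ⟨n0 * n, by positivity, h⟩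
    obtain ⟨r, hr⟩ := hen0
    rw [hr, pow_mul, h4, one_pow]
  · intro j hj hj'
    exact hτj j hj hj' x ((hT j (Finset.mem_range.mpr hj')).trans hx)

end Pool.Agent.FrUP
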