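import Pool.Agent.FrozenUP.Lang
import Pool.Agent.FrozenUP.SubUP
import Pool.Agent.FrozenUP.NonCrit
import Pool.Agent.DD7719.Final

/-! Frozen positivity lies between non-critical ultimate positivity and ultimate positivity. -/

set_option autoImplicit false

namespace Pool.Agent.UltPos

open Pool.Agent.PT Pool.Agent.AllR Pool.Agent.DD7719.M Pool.Agent.DD7719 Finset Pool.Agent.FrUP

/-- root data of an instance with algebraic coefficients -/
theorem Inst.exists_rootData_alg (I : Inst) : ∃ (l c : ℕ → ℂ) (ex : ℕ → ℕ),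
    RootData I.k (fun t => ((I.aQ t : ℚ) : ℝ)) (fun t => ((I.uQ t : ℚ) : ℝ)) l c ex ∧
    (∀ i, IsIntegral ℚ (l i)) ∧ ∀ i, IsIntegral ℚ (c i) := by
  obtain ⟨l, c, ex, hrd0, hl, hc⟩ := exists_rootData I.k I.aQ I.uQ
  exact ⟨l, c, ex, hrd0, hl, hc⟩

/-- the roots are closed under conjugation -/
theorem Inst.root_conj (I : Inst) {l c : ℕ → ℂ} {ex : ℕ → ℕ}
    (hrd : RootData I.k (fun t => ((I.aQ t : ℚ) : ℝ)) (fun t => ((I.uQ t : ℚ) : ℝ)) l c ex)
    (i : Fin I.k) : ∃ i' : Fin I.k, l i' = (starRingEnd ℂ) (l i) := by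
  have ha : ∀ t (h : t < I.k), ((fun t => ((I.aQ t : ℚ) : ℝ)) t) = (I.a ⟨t, h⟩ : ℝ) := by
    intro t h
    simp only [Inst.aQ, h, dif_pos]
  apply I.root_surj _ _ ha hrd
  rw [I.mem_rootSet_iff _ ha]
  have h1 := congrArg (starRingEnd ℂ) (hrd.root i i.2)
  rw [map_pow, map_sum] at h1
  rw [h1]
  refine Finset.sum_congr rfl fun t _ => ?_
  rw [map_mul, map_pow, Complex.conj_ofReal]

/-- **Frozen positivity implies ultimate positivity.** -/
theorem Inst.FrozenPositive.ultimatelyPositive {I : Inst} (h : I.FrozenPositive) :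
    I.UltimatelyPositive := by
  obtain ⟨v, hv, -⟩ := I.exists_unique_seq
  obtain ⟨l, c, ex, hrd, hl, hc⟩ := I.exists_rootData_alg
  have ha : ∀ t (h : t < I.k), ((fun t => ((I.aQ t : ℚ) : ℝ)) t) = (I.a ⟨t, h⟩ : ℝ) := by
    intro t h
    simp only [Inst.aQ, h, dif_pos]
  have hu : ∀ t (h : t < I.k), ((fun t => ((I.uQ t : ℚ) : ℝ)) t) = (I.u ⟨t, h⟩ : ℝ) := by
    intro t h
    simp only [Inst.uQ, h, dif_pos]
  have hall := I.all' _ _ ha hu v hv hrd
  rw [I.frozenPositive_iff v hv _ _ _ (fun i => hrd.1 i i.2) hall] at h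
  obtain ⟨τ, hτ⟩ := h
  obtain ⟨N0, hN0⟩ := exists_nat_gt τ
  obtain ⟨N1, hN1⟩ := up_of_frozen (k := I.k) (fun i => l i) (fun i => c i) (fun i => ex i) I.kpos
    (fun i => hrd.1 i i.2) (fun i => hc i) (fun i => hl i) (I.root_conj hrd)
    (fun n => ((v n : ℚ) : ℝ)) hall ⟨N0, fun N hN => by
      have h1 := hτ N (hN0.le.trans (by exact_mod_cast hN))
      push_cast at h1
      exact h1⟩
  rw [I.up_iff hv]
  exact ⟨N1, fun n hn => by exact_mod_cast hN1 n hn⟩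

/-- **Non-critical ultimately positive instances are frozen positive.** -/
theorem Inst.frozenPositive_of_not_critical {I : Inst} (hup : I.UltimatelyPositive)
    (hnc : ¬ I.CriticalM) : I.FrozenPositive := by
  obtain ⟨v, hv, -⟩ := I.exists_unique_seq
  obtain ⟨l, c, ex, hrd, hl, hc⟩ := I.exists_rootData_alg
  have ha : ∀ t (h : t < I.k), ((fun t => ((I.aQ t : ℚ) : ℝ)) t) = (I.a ⟨t, h⟩ : ℝ) := by
    intro t h
    simp only [Inst.aQ, h, dif_pos]
  have hu : ∀ t (h : t < I.k), ((fun t => ((I.uQ t : ℚ) : ℝ)) t) = (I.u ⟨t, h⟩ : ℝ) := by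
    intro t h
    simp only [Inst.uQ, h, dif_pos]
  have hall := I.all' _ _ ha hu v hv hrd
  obtain ⟨L, hkL, hb⟩ : ∃ L : ℕ, I.k ≤ L ∧
      ∀ i, (I.aNum i).natAbs ≤ 2 ^ L ∧ I.aDen i ≤ 2 ^ L := by
    refine ⟨I.k + ∑ i, ((I.aNum i).natAbs + I.aDen i), by omega, fun i => ?_⟩
    have h1 : (I.aNum i).natAbs + I.aDen i ≤ ∑ i, ((I.aNum i).natAbs + I.aDen i) :=
      Finset.single_le_sum (f := fun i => (I.aNum i).natAbs + I.aDen i)
        (fun _ _ => Nat.zero_le _) (Finset.mem_univ i)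
    have h2 : I.k + ∑ i, ((I.aNum i).natAbs + I.aDen i) <
        2 ^ (I.k + ∑ i, ((I.aNum i).natAbs + I.aDen i)) := Nat.lt_two_pow_self
    constructor <;> omega
  have hcert := I.cert_iff L hkL hb _ _ ha hu
  have hno : ¬ ∃ (l c : ℕ → ℂ) (ex : ℕ → ℕ),
      RootData I.k (fun t => ((I.aQ t : ℚ) : ℝ)) (fun t => ((I.uQ t : ℚ) : ℝ)) l c ex ∧
      CertN I.k l c ex (pbm L) (pbn L) (2 / ((2 ^ pq L : ℕ) : ℝ)) (1 / 2 ^ pdl L) := by
    rw [← hcert, not_not]
    exact ⟨hup, hnc⟩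
  obtain ⟨e, he0, hele, htor⟩ := torsion_of_roots I.k I.num I.den I.den_pos' (fun i => l i)
    (I.root_eq' _ _ ha hrd)
  obtain ⟨τ, hτ⟩ := frozen_of_noncrit (k := I.k) (fun i => l i)
      (fun i => c i) (fun i => ex i) (2 ^ pr L)
      (2 ^ pq L) (2 ^ pmh L) (2 ^ (pdl L + 3)) e (2 ^ (1 + 2 * L * L + (pdl L + 3) * L)) I.kpos
      (fun i => hrd.1 i i.2) Nat.one_le_two_pow
      (le_trans (by
        have : 2 * I.k * 2 ^ pr L ≤ 8 * I.k * 2 ^ pr L := by
          gcongr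
          norm_num
        exact this) (pQ_le hkL)) (pMH_le hkL) (1 / 2 ^ pdl L) (by positivity) (pd2 hkL) (pd4 hkL)
      (pd3 hkL) (by positivity) (pd5 L) he0 (pNb_le hkL hele) (I.relBound' L hkL hb _ _ ha hrd)
      (fun i i' h1 h2 h3 => htor i i' h1 h2 h3) (fun i => hc i) (fun i => hl i)
      (fun n => ((v n : ℚ) : ℝ)) hall (by
        obtain ⟨N, hN⟩ := (I.up_iff hv).mp hup
        exact ⟨N, fun n hn => by exact_mod_cast hN n hn⟩) (fun hF =>
        hno ⟨l, c, ex, hrd, hF.toN (two_pow_lt_pbm L) (two_pow_lt_pbn L)⟩)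
  rw [I.frozenPositive_iff v hv _ _ _ (fun i => hrd.1 i i.2) hall]
  obtain ⟨τ', hτ'⟩ := exists_rat_gt τ
  refine ⟨τ', fun x hx => hτ x ?_⟩
  have : (τ' : ℝ) ≤ (x : ℝ) := by exact_mod_cast hx
  linarith

/-- For simple recurrences frozen positivity is ultimate positivity. -/
theorem Inst.Simple.frozenPositive_iff {I : Inst} (hI : I.Simple) :
    I.FrozenPositive ↔ I.UltimatelyPositive :=
  ⟨fun h => h.ultimatelyPositive, fun h => I.frozenPositive_of_not_critical h hI.not_criticalM⟩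

end Pool.Agent.UltPos
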