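import Pool.Agent.FrozenUP.Expand
import Pool.Agent.FrozenUP.QX
import Pool.Agent.DD7719.NAssemble
import Pool.Agent.DD7719.Lang
import Pool.Agent.RElim.Unb

/-! Frozen positivity is in `∀ℝ`. -/

set_option autoImplicit false

namespace Pool.Agent.UltPos

open Pool.Agent.PT Pool.Agent.AllR Pool.Agent.DD7719.M Pool.Agent.DD7719 Finset Pool.Agent.FrUP

/-- the certificates against frozen positivity -/
def Inst.FX (I : Inst) (L : ℕ) (aR uR : ℕ → ℝ) (t : ℝ) : Prop :=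
  ∃ (l c : ℕ → ℂ) (ex : ℕ → ℕ), RootData I.k aR uR l c ex ∧
    CertQN I.k l c ex (pbm L) (pbn L) (2 / ((2 ^ pq L : ℕ) : ℝ)) (1 / 2 ^ pdl L) (QX I.k t)

section
variable (I : Inst) (L : ℕ) (hkL : I.k ≤ L)
    (hb : ∀ i, (I.aNum i).natAbs ≤ 2 ^ L ∧ I.aDen i ≤ 2 ^ L) (aR uR : ℕ → ℝ)
    (ha : ∀ t (h : t < I.k), aR t = (I.a ⟨t, h⟩ : ℝ)) (hu : ∀ t (h : t < I.k), uR t = (I.u ⟨t, h⟩ : ℝ))
    (v : ℕ → ℚ) (hv : I.IsSeq v)

include hkL hb ha hu hv in
/-- soundness -/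
theorem Inst.bounded_FX (h : I.FrozenPositive) : ∃ X : ℝ, ∀ t, I.FX L aR uR t → t ≤ X := by
  by_contra hcon
  push Not at hcon
  obtain ⟨t1, ⟨l, c, ex, hrd, -⟩, -⟩ := hcon 0
  -- the threshold for one choice of root data is used for all choices
  have hiff : ∀ (l c : ℕ → ℂ) (ex : ℕ → ℕ), RootData I.k aR uR l c ex →
      ∀ x n, (fs (fun i : Fin I.k => l i) (fun i => c i) (fun i => ex i) x n).re =
        frozen (open scoped Classical in (univ.filter fun i : Fin I.k => l i ≠ 0).image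
          (fun i : Fin I.k => l i)) (rp (fun i : Fin I.k => l i) (fun i => c i) (fun i => ex i)) x n :=
    fun l c ex _ x n => (frozen_rp _ _ _ x n).symm
  obtain ⟨S, p, hS, τ, hτ⟩ := h v hv
  obtain ⟨t, ⟨l, c, ex, hrd, hcert⟩, ht⟩ := hcon (τ + 1)
  have hexp := isExpansion_rp (fun i : Fin I.k => l i) (fun i => c i) (fun i => ex i)
    (fun i => hrd.1 i i.2) v (I.all' aR uR ha hu v hv hrd)
  obtain ⟨η, hη, hs⟩ := certX_sound (k := I.k) (fun i => l i) (fun i => c i) (fun i => ex i)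
    (2 ^ pr L) (2 ^ pbm L) (2 ^ pbn L) _ _ I.kpos (fun i => hrd.1 i i.2)
    (fun i e he => hrd.closed i e he) Nat.one_le_two_pow Nat.one_le_two_pow
    (I.relBound' L hkL hb aR uR ha hrd) (peps hkL) (pd1 hkL) t
    (certQX_toF (fun i hi => hrd.1 i hi) hcert)
  obtain ⟨x, hx1, hx2⟩ := exists_rat_btwn (show t < t + η by linarith)
  have hxτ : τ ≤ x := by
    have : (τ : ℝ) ≤ (x : ℝ) := by linarith
    exact_mod_cast this
  obtain ⟨N, hN⟩ := hτ x hxτ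
  obtain ⟨n, hn, hle⟩ := hs x (by
    rw [abs_lt]
    constructor <;> linarith) N
  have h1 := hN n hn
  rw [frozen, frozen_unique hS hexp] at h1
  rw [← frozen_rp, frozen] at hle
  linarith

include hkL hb ha hu hv in
/-- completeness -/
theorem Inst.frozenPositive_of_no (T0 : ℝ) (hno : ∀ t, T0 < t → ¬ I.FX L aR uR t) :
    I.FrozenPositive := by
  obtain ⟨l, c, ex, hrd, hl, hc⟩ : ∃ (l c : ℕ → ℂ) (ex : ℕ → ℕ), RootData I.k aR uR l c ex ∧
      (∀ i, IsIntegral ℚ (l i)) ∧ ∀ i, IsIntegral ℚ (c i) := by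
    obtain ⟨l, c, ex, hrd0, hl, hc⟩ := exists_rootData I.k I.aQ I.uQ
    exact ⟨l, c, ex, rootData_congr (by
      intro t ht
      rw [ha t ht]
      simp only [Inst.aQ, ht, dif_pos]) (by
      intro t ht
      rw [hu t ht]
      simp only [Inst.uQ, ht, dif_pos]) hrd0, hl, hc⟩
  obtain ⟨e, he0, hele, htor⟩ := torsion_of_roots I.k I.num I.den I.den_pos' (fun i => l i)
    (I.root_eq' aR uR ha hrd)
  obtain ⟨τ, hτ⟩ := frozen_complete (k := I.k) (fun i => l i)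
      (fun i => c i) (fun i => ex i) (2 ^ pr L)
      (2 ^ pq L) (2 ^ pmh L) (2 ^ (pdl L + 3)) e (2 ^ (1 + 2 * L * L + (pdl L + 3) * L)) I.kpos
      (fun i => hrd.1 i i.2) Nat.one_le_two_pow
      (le_trans (by
        have : 2 * I.k * 2 ^ pr L ≤ 8 * I.k * 2 ^ pr L := by
          gcongr
          norm_num
        exact this) (pQ_le hkL)) (pMH_le hkL) (1 / 2 ^ pdl L) (by positivity) (pd2 hkL) (pd4 hkL)
      (pd3 hkL) (by positivity) (pd5 L) he0 (pNb_le hkL hele) (I.relBound' L hkL hb aR uR ha hrd)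
      (fun i i' h1 h2 h3 => htor i i' h1 h2 h3) (fun i => hc i) (fun i => hl i)
      (fun n => ((v n : ℚ) : ℝ)) (I.all' aR uR ha hu v hv hrd) T0 (fun tt htt hF =>
        hno tt htt ⟨l, c, ex, hrd, hF.toN (fun i hi => hrd.1 i hi) (two_pow_lt_pbm L)
          (two_pow_lt_pbn L)⟩)
  rw [I.frozenPositive_iff v hv _ _ _ (fun i => hrd.1 i i.2) (I.all' aR uR ha hu v hv hrd)]
  obtain ⟨τ', hτ'⟩ := exists_rat_gt τ
  refine ⟨τ', fun x hx => hτ x ?_⟩
  have : (τ' : ℝ) ≤ (x : ℝ) := by exact_mod_cast hx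
  linarith

end

/-- **Frozen positivity is in `∀ℝ`.** -/
theorem inForallR_frozen :
    InForallR {w : List ISym | ∃ I : Inst, w = I.enc ∧ I.FrozenPositive} := by
  obtain ⟨kk, sg, nb, db, hkk, hsg, hnb, hdb, hI⟩ := exists_parser
  have h2 : RF (Γ := ISym) (fun _ _ _ => (2 : ℝ)) :=
    (RF.nat (UF.const 2)).congr fun _ _ _ => by norm_num
  have hε : RF (Γ := ISym) (fun x _ _ => (2 : ℝ) / ((2 ^ pq x.length : ℕ) : ℝ)) :=
    (h2.div (h2.pow (uf_pq UF.len))).congr fun x e α => by push_cast; rfl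
  have hδ : RF (Γ := ISym) (fun x _ _ => (1 : ℝ) / 2 ^ pdl x.length) :=
    RF.one.div (h2.pow (uf_pdl UF.len))
  have hfa : ∀ (I : Inst) (t : ℕ) (ht : t < I.k), fieldR sg nb db 0 I.enc t = (I.a ⟨t, ht⟩ : ℝ) := by
    intro I t ht
    obtain ⟨e1, e2, e3, e4, e5, e6, e7⟩ := hI I
    rw [Inst.a, fieldR]
    push_cast
    have h3 := congrArg (fun z : ℤ => (z : ℝ)) (e3 ⟨t, ht⟩)
    have h4 := congrArg (fun z : ℤ => (z : ℝ)) (e4 ⟨t, ht⟩)
    simp only at h3 h4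
    push_cast at h3 h4
    rw [h3, h4]
  have hfu : ∀ (I : Inst) (t : ℕ) (ht : t < I.k), fieldR sg nb db 1 I.enc t = (I.u ⟨t, ht⟩ : ℝ) := by
    intro I t ht
    obtain ⟨e1, e2, e3, e4, e5, e6, e7⟩ := hI I
    rw [Inst.u, fieldR]
    push_cast
    have h3 := congrArg (fun z : ℤ => (z : ℝ)) (e5 ⟨t, ht⟩)
    have h4 := congrArg (fun z : ℤ => (z : ℝ)) (e6 ⟨t, ht⟩)
    simp only at h3 h4
    push_cast at h3 h4
    rw [h3, h4]
  have hX := re_certQ (fun x α => QX (kk x) (α 0)) kk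
    (fun x => pbm x.length) (fun x => pbn x.length)
    (fieldR sg nb db 0) (fieldR sg nb db 1) _ _ hkk (uf_pbm UF.len) (uf_pbn UF.len)
    (rf_fieldR 0 hsg hnb hdb) (rf_fieldR 1 hsg hnb hdb) hε hδ (fun x α => qX_congr (kk x) (α 0))
    (re_QX kk (fun x => pbm x.length) (fun x => pbn x.length) hkk (uf_pbm UF.len)
      (uf_pbn UF.len))
  obtain ⟨P1, hP1, hB1⟩ := RElim.exists_bound
    (R := fun x t => ∃ (l c : ℕ → ℂ) (ex : ℕ → ℕ), RootData (kk x) (fieldR sg nb db 0 x)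
      (fieldR sg nb db 1 x) l c ex ∧ CertQN (kk x) l c ex (pbm x.length) (pbn x.length)
        (2 / ((2 ^ pq x.length : ℕ) : ℝ)) (1 / 2 ^ pdl x.length) (QX (kk x) t)) hX
  have hbig : RE (Γ := ISym) (fun x _ α => ∃ β : ℕ → ℝ, (2 : ℝ) ^ 2 ^ P1 x < β 0 ∧
      ∃ (l c : ℕ → ℂ) (ex : ℕ → ℕ), RootData (kk x) (fieldR sg nb db 0 x)
      (fieldR sg nb db 1 x) l c ex ∧ CertQN (kk x) l c ex (pbm x.length) (pbn x.length)
        (2 / ((2 ^ pq x.length : ℕ) : ℝ)) (1 / 2 ^ pdl x.length) (QX (kk x) (β 0))) := by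
    refine RE.exb (RE.and ?_ (RE.aff hX 2 1))
    exact RE.lt (RF.pow_two_pow h2 hP1) (RF.var (UF.const 1))
  refine RE.inForallR ((RE.up up_valid.not).or hbig) _ fun x => ?_
  constructor
  · rintro ⟨I, rfl, hfr⟩ ⟨α, h4 | h4⟩
    · exact h4 ⟨I, rfl⟩
    · obtain ⟨e1, e2, e3, e4, e5, e6, e7⟩ := hI I
      obtain ⟨v, hv, -⟩ := I.exists_unique_seq
      obtain ⟨β, hβ, h5⟩ := h4
      obtain ⟨X, hX⟩ := I.bounded_FX I.enc.length e2 (fun i => ⟨(e7 i).1.le, (e7 i).2.1.le⟩) _ _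
        (hfa I) (hfu I) v hv hfr
      obtain ⟨t', ht', h6⟩ := hB1 I.enc ⟨β 0, hβ, h5⟩ X
      simp only [e1] at h6
      exact absurd (hX t' h6) (not_le.mpr ht')
  · intro h
    have h1 : ∃ I : Inst, x = I.enc := by
      by_contra hcon
      exact h ⟨fun _ => 0, Or.inl hcon⟩
    obtain ⟨I, rfl⟩ := h1
    obtain ⟨e1, e2, e3, e4, e5, e6, e7⟩ := hI I
    obtain ⟨v, hv, -⟩ := I.exists_unique_seq
    refine ⟨I, rfl, I.frozenPositive_of_no I.enc.length e2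
      (fun i => ⟨(e7 i).1.le, (e7 i).2.1.le⟩) _ _ (hfa I) (hfu I) v hv (2 ^ 2 ^ P1 I.enc)
      (fun t ht hcon => h ⟨fun _ => 0, Or.inr ⟨fun _ => t, ht, ?_⟩⟩)⟩
    simp only [e1]
    exact hcon

end Pool.Agent.UltPos
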