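import Pool.Agent.FrozenUP.Poly
import Pool.Agent.DD7719.CertSoundMain

/-! The certificate for sequences whose frozen sequences are not ultimately positive, and its
soundness. -/

set_option autoImplicit false

namespace Pool.Agent.FrUP

open Finset
open Pool.Agent.DD7719.M Pool.Agent.DD7719.M.GS

variable {k : ℕ}

open scoped Classical in
/-- coefficients of the frozen sequence -/
noncomputable def fc (l c : Fin k → ℂ) (ex : Fin k → ℕ) (x : ℝ) (i : Fin k) : ℂ :=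
  if l i = 0 then 0 else c i * ((bc (ex i) x : ℝ) : ℂ) / l i ^ ex i

/-- the frozen sequence -/
noncomputable def fs (l c : Fin k → ℂ) (ex : Fin k → ℕ) (x : ℝ) (n : ℕ) : ℂ :=
  ∑ i, fc l c ex x i * l i ^ n

open scoped Classical in
/-- the leading function with frozen coefficients -/
noncomputable def LevX (l c : Fin k → ℂ) (ex : Fin k → ℕ) (A : Fin k → Fin k → ℤ) (s j : ℕ)
    (ρ x : ℝ) (z : Fin k → ℂ) : ℂ :=
  ∑ i, (if ‖l i‖ = ρ then c i * ((bc (ex i) x : ℝ) : ℂ) * l i ^ (j - ex i) * Wt A s z i else 0)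

/-- the certificate at the point `tt` -/
def CertX (k : ℕ) (l c : Fin k → ℂ) (ex : Fin k → ℕ) (M Nb : ℕ) (ε δ : ℝ) (tt : ℝ) : Prop :=
  ∃ (n0 j : ℕ) (A H : Fin k → Fin k → ℤ) (D : ℤ) (s : ℕ) (w : Fin k → Fin k → ℝ)
    (τ : Fin k → ℝ) (ρ : ℝ) (d : ℕ) (z : Fin k → ℂ),
    BaseF k l c ex M Nb ε δ n0 j A H D s w τ ρ d ∧ (∀ t, ‖z t‖ = 1) ∧
    d + 1 = k ∧ (ρ = 0 ∨ (LevX l c ex A s j ρ tt z).re < 0)

lemma above_iff {ρ : ℝ} {d : ℕ} {z : ℂ} {e : ℕ} (hd : d + 1 = k) (he : e < k) :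
    Above ρ d z e ↔ ρ < ‖z‖ := by
  unfold Above
  constructor
  · rintro (h | ⟨_, _, h⟩)
    · exact h
    · omega
  · exact Or.inl

lemma fc_mul_pow (l c : Fin k → ℂ) (ex : Fin k → ℕ) (x : ℝ) (j : ℕ) (i : Fin k) (hj : ex i ≤ j)
    (hi : l i ≠ 0) : fc l c ex x i * l i ^ j = c i * ((bc (ex i) x : ℝ) : ℂ) * l i ^ (j - ex i) := by
  have h1 : l i ^ j = l i ^ ex i * l i ^ (j - ex i) := by
    rw [← pow_add]
    congr 1
    omega
  have h2 := pow_ne_zero (ex i) hi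
  rw [fc, if_neg hi, h1]
  field_simp

lemma continuous_LevX (l c : Fin k → ℂ) (ex : Fin k → ℕ) (A : Fin k → Fin k → ℤ) (s j : ℕ)
    (ρ : ℝ) (z : Fin k → ℂ) : Continuous fun x => (LevX l c ex A s j ρ x z).re := by
  unfold LevX
  apply Complex.continuous_re.comp
  apply continuous_finsetSum
  intro i _
  split_ifs
  · exact ((continuous_const.mul (Complex.continuous_ofReal.comp (continuous_bc _))).mul
      continuous_const).mul continuous_const
  · exact continuous_const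

open scoped Classical in
/-- soundness at a point -/
theorem certX_sound_at (l c : Fin k → ℂ) (ex : Fin k → ℕ) (R M Nb : ℕ) (ε δ : ℝ) (hk : 0 < k)
    (hex : ∀ i, ex i < k) (hdc : ∀ i, ∀ e, e < ex i → ∃ i', l i' = l i ∧ ex i' = e)
    (hR : 1 ≤ R) (hM : 1 ≤ M) (hrb : RelBound k l R) (hε : 4 * k * R * ε ≤ 1)
    (hδ : 8 * k ^ 3 * M ^ 2 * R * δ ≤ 1) (n0 j : ℕ) (A H : Fin k → Fin k → ℤ) (D : ℤ) (s : ℕ)
    (w : Fin k → Fin k → ℝ) (τ : Fin k → ℝ) (ρ : ℝ) (d : ℕ) (z : Fin k → ℂ)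
    (hbase : BaseF k l c ex M Nb ε δ n0 j A H D s w τ ρ d) (hz : ∀ t, ‖z t‖ = 1) (hd : d + 1 = k)
    (x : ℝ) (hlast : ρ = 0 ∨ (LevX l c ex A s j ρ x z).re < 0) (N : ℕ) :
    ∃ n, N ≤ n ∧ (fs l c ex x n).re ≤ 0 := by
  obtain ⟨hn0, hn0N, hj, hjk, hs, hD, hDM, hHA, hA, hH, hδ', hw, hwε, hρ, hdk, hvan⟩ := hbase
  have hexj : ∀ i, ex i ≤ j := fun i => ((hex i).le.trans hj)
  have hvan' := vanish_gen l c ex hdc (fun i => Above ρ d (l i) (ex i)) j n0 hvan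
  have hab : ∀ i, Above ρ d (l i) (ex i) ↔ ρ < ‖l i‖ := fun i => above_iff hd (hex i)
  have hinv : ∀ i i', l i ^ n0 = l i' ^ n0 → ρ < ‖l i‖ → ρ < ‖l i'‖ := by
    intro i i' h h1
    rwa [← norm_eq_of_pow_eq hn0 h]
  have hg : ∀ i, ρ < ‖l i‖ → gP l c ex n0 j (l i ^ n0) = 0 := by
    intro i hi
    refine gP_eq_zero l c ex n0 j hn0 hexj (fun i => ρ < ‖l i‖) hinv
      (fun i hi => norm_pos_iff.mp (hρ.trans_lt hi)) (fun m => ?_) i hi
    refine Eq.trans (Finset.sum_congr rfl fun i _ => ?_) (hvan' m)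
    simp only [hab]
  have hne : ∀ i, ρ < ‖l i‖ → l i ≠ 0 := fun i hi => norm_pos_iff.mp (hρ.trans_lt hi)
  have hcert : Cert k l (fun i => fc l c ex x i * l i ^ j) M Nb ε δ := by
    refine ⟨n0, 0, A, H, D, s, w, τ, z, ρ, hn0, hn0N, hn0, hs, hD, hDM, hHA, hA, hH, hδ', hw, hwε,
      hz, hρ, fun m' _ => ?_, ?_⟩
    · have h1 := sum_eq_zero_of_gP' l c ex n0 j (fun i => ρ < ‖l i‖) hinv hg (x : ℂ)
        (fun X => X ^ m')
      refine Eq.trans (Finset.sum_congr rfl fun i _ => ?_) h1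
      split_ifs with h
      · dsimp only
        rw [fc_mul_pow l c ex x j i (hexj i) (hne i h), zero_add, bcP_eval_real, pow_mul]
      · rfl
    · rcases hlast with h | h
      · exact Or.inl h
      · rcases hρ.eq_or_lt with h0 | hρ0
        · exact Or.inl h0.symm
        right
        refine lt_of_eq_of_lt ?_ h
        congr 1
        unfold LevX Wt
        refine Finset.sum_congr rfl fun i _ => ?_
        split_ifs with h2
        · have h3 : l i ≠ 0 := norm_pos_iff.mp (by rw [h2]; exact hρ0)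
          dsimp only
          rw [fc_mul_pow l c ex x j i (hexj i) h3, pow_zero, mul_one]
        · rfl
  obtain ⟨n, hn, h⟩ := cert_sound l _ R M Nb ε δ hk hR hM hrb hε hδ hcert N
  refine ⟨j + n, by omega, ?_⟩
  refine le_of_eq_of_le ?_ h
  congr 1
  unfold fs
  refine Finset.sum_congr rfl fun i _ => ?_
  rw [pow_add]
  ring

/-- **Soundness of the certificate.** -/
theorem certX_sound (l c : Fin k → ℂ) (ex : Fin k → ℕ) (R M Nb : ℕ) (ε δ : ℝ) (hk : 0 < k)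
    (hex : ∀ i, ex i < k) (hdc : ∀ i, ∀ e, e < ex i → ∃ i', l i' = l i ∧ ex i' = e)
    (hR : 1 ≤ R) (hM : 1 ≤ M) (hrb : RelBound k l R) (hε : 4 * k * R * ε ≤ 1)
    (hδ : 8 * k ^ 3 * M ^ 2 * R * δ ≤ 1) (tt : ℝ) (h : CertX k l c ex M Nb ε δ tt) :
    ∃ η : ℝ, 0 < η ∧ ∀ x : ℝ, |x - tt| < η → ∀ N : ℕ, ∃ n, N ≤ n ∧ (fs l c ex x n).re ≤ 0 := by
  obtain ⟨n0, j, A, H, D, s, w, τ, ρ, d, z, hbase, hz, hd, hlast⟩ := h
  rcases hlast with hρ | hlast
  · exact ⟨1, one_pos, fun x _ N => certX_sound_at l c ex R M Nb ε δ hk hex hdc hR hM hrb hε hδ n0 j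
      A H D s w τ ρ d z hbase hz hd x (Or.inl hρ) N⟩
  · have h1 := (continuous_LevX l c ex A s j ρ z).tendsto tt
    have h2 := h1.eventually (gt_mem_nhds hlast)
    rw [Metric.eventually_nhds_iff] at h2
    obtain ⟨η, hη, h3⟩ := h2
    exact ⟨η, hη, fun x hx N => certX_sound_at l c ex R M Nb ε δ hk hex hdc hR hM hrb hε hδ n0 j
      A H D s w τ ρ d z hbase hz hd x (Or.inr (h3 (by rwa [Real.dist_eq]))) N⟩

end Pool.Agent.FrUP
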