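import Pool.Agent.DD7719.LowerBoundC
import Pool.Agent.DD7719.Kronecker

/-! Sequences with three dominant roots and linear coefficients: the analysis on the circle. -/

set_option autoImplicit false

namespace Pool.Agent.FrUP

open Complex Filter Topology

/-- Powers come exponentially close to a given algebraic number only finitely often. -/
lemma far (α β : ℂ) (hα : ‖α‖ = 1) (hnt : ∀ m : ℕ, 0 < m → α ^ m ≠ 1) (hβ : β ≠ 0)
    (haα : IsIntegral ℚ α) (haβ : IsIntegral ℚ β) (ε : ℝ) (hε : 0 < ε) :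
    ∀ᶠ n : ℕ in atTop, Real.exp (-(ε * n)) < ‖α ^ n - β‖ := by
  have hα0 : α ≠ 0 := by
    intro h
    rw [h, norm_zero] at hα
    exact zero_ne_one hα
  have h := Pool.Agent.DD7719.M.lower_bound_complex (m := 1) ![1, -β] ![α, 1] (by
    intro i
    fin_cases i
    · simp
    · simpa using hβ) (by
    intro i
    fin_cases i
    · simpa using hα0
    · simp) (by
    intro i
    fin_cases i
    · exact isIntegral_one
    · exact haβ.neg) (by
    intro i
    fin_cases i
    · exact haα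
    · exact isIntegral_one) (by
    intro i
    fin_cases i
    · simp
    · simp [hα]) (by
    intro i j hij n hn
    fin_cases i <;> fin_cases j
    · exact absurd rfl hij
    · simpa using hnt n hn
    · simpa using (hnt n hn).symm
    · exact absurd rfl hij) ε hε
  filter_upwards [h] with n hn
  have h3 : (∑ i, (![1, -β] : Fin (1 + 1) → ℂ) i * (![α, 1] : Fin (1 + 1) → ℂ) i ^ n) =
      α ^ n - β := (Fin.sum_univ_two _).trans (by simp [sub_eq_add_neg])
  rw [h3] at hn
  simp only [Matrix.cons_val_zero, hα, one_pow, one_mul] at hn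
  exact hn

/-- The powers are dense in the circle. -/
lemma dense_pow (α z : ℂ) (hα : ‖α‖ = 1) (hnt : ∀ m : ℕ, 0 < m → α ^ m ≠ 1) (hz : ‖z‖ = 1)
    (N : ℕ) (ε : ℝ) (hε : 0 < ε) : ∃ n : ℕ, N ≤ n ∧ ‖α ^ n - z‖ < ε := by
  have hα0 : α ≠ 0 := by
    intro h
    rw [h, norm_zero] at hα
    exact zero_ne_one hα
  obtain ⟨n, hn, h⟩ := Pool.Agent.DD7719.kronecker (m := 1) (fun _ => α) (fun _ => z)
    (fun _ => hα) (fun _ => hz) (by
      rintro g ⟨n, hn, h⟩
      simp only [Finset.univ_unique, Fin.default_eq_zero, Finset.prod_singleton] at h ⊢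
      have h0 : g 0 = 0 := by
        by_contra hg
        have h1 : α ^ (n * (g 0).natAbs) = 1 := by
          rcases Int.natAbs_eq (g 0) with h2 | h2
          · rw [h2, zpow_natCast, ← pow_mul, mul_comm] at h
            exact h
          · rw [h2, zpow_neg, inv_pow, zpow_natCast, ← pow_mul, mul_comm, inv_eq_one] at h
            exact h
        exact hnt _ (Nat.mul_pos hn (Int.natAbs_pos.mpr hg)) h1
      rw [h0, zpow_zero]) 1 one_pos N ε hε
  refine ⟨n, hn, ?_⟩
  simpa using h 0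

lemma norm_exp_sub (x y : ℝ) : ‖exp ((x : ℂ) * I) - exp ((y : ℂ) * I)‖ ≤ |x - y| := by
  have h1 : exp ((x : ℂ) * I) - exp ((y : ℂ) * I) =
      exp ((y : ℂ) * I) * (exp (((x - y : ℝ) : ℂ) * I) - 1) := by
    rw [mul_sub, ← exp_add, mul_one]
    congr 2
    push_cast
    ring
  rw [h1, norm_mul, norm_exp_ofReal_mul_I, one_mul]
  have h2 := Real.norm_exp_I_mul_ofReal_sub_one_le (x := x - y)
  rw [mul_comm] at h2
  exact h2

/-- rational approximations with large denominator -/
lemma exists_large_den (ξ : ℝ) (hξ : Irrational ξ) (A : ℕ) :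
    ∃ q : ℚ, A ≤ q.den ∧ |ξ - q| < 1 / (q.den : ℝ) ^ 2 := by
  by_contra hcon
  push Not at hcon
  have hinf := Real.infinite_rat_abs_sub_lt_one_div_den_sq_of_irrational hξ
  apply hinf
  obtain ⟨B, hB⟩ := exists_nat_gt ((|ξ| + 1) * (A + 1))
  have hfin : (((Set.Icc (-(B : ℤ)) B) ×ˢ (Set.Iic A)) : Set (ℤ × ℕ)).Finite :=
    (Set.finite_Icc _ _).prod (Set.finite_Iic _)
  refine Set.Finite.of_injOn (f := fun q : ℚ => (q.num, q.den)) (t := _) ?_ ?_ hfin
  · intro q hq
    rw [Set.mem_ofPred_eq] at hq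
    have hA : q.den < A := by
      by_contra h
      exact absurd hq (not_lt.mpr (hcon q (not_lt.mp h)))
    have hd : (0 : ℝ) < q.den := by exact_mod_cast q.den_pos
    have hd1 : (1 : ℝ) ≤ q.den := by exact_mod_cast q.den_pos
    have h1 : |ξ - q| < 1 := by
      refine hq.trans_le ?_
      rw [div_le_one (by positivity)]
      exact one_le_pow₀ hd1
    have h2 : |(q : ℝ)| ≤ |ξ| + 1 := by
      have h3 := abs_sub_abs_le_abs_sub (q : ℝ) ξ
      rw [abs_sub_comm] at h3
      linarith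
    have h4 : (q.num : ℝ) = q * q.den := by
      have := Rat.mul_den_eq_num q
      exact_mod_cast this.symm
    have h5 : |(q.num : ℝ)| < B := by
      rw [h4, abs_mul, abs_of_pos hd]
      refine lt_of_le_of_lt ?_ hB
      have h6 : (q.den : ℝ) ≤ A + 1 := by
        have : (q.den : ℝ) ≤ A := by exact_mod_cast hA.le
        linarith
      gcongr
    rw [abs_lt] at h5
    refine ⟨⟨?_, ?_⟩, hA.le⟩
    · have : -(B : ℤ) < q.num := by exact_mod_cast h5.1
      exact this.le
    · have : q.num < (B : ℤ) := by exact_mod_cast h5.2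
      exact this.le
  · intro q _ q' _ h
    simp only [Prod.mk.injEq] at h
    exact Rat.ext h.1 h.2

/-- Inhomogeneous approximation by powers. -/
lemma approx (α z : ℂ) (hα : ‖α‖ = 1) (hnt : ∀ m : ℕ, 0 < m → α ^ m ≠ 1) (hz : ‖z‖ = 1)
    (A : ℕ) : ∃ m : ℕ, A ≤ m ∧ 0 < m ∧ ‖α ^ m - z‖ ≤ 20 / m := by
  set θ : ℝ := α.arg / (2 * Real.pi) with hθ
  have hpi := Real.pi_pos
  have hαθ : exp (((2 * Real.pi * θ : ℝ) : ℂ) * I) = α := by
    have h1 : 2 * Real.pi * θ = α.arg := by
      rw [hθ]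
      field_simp
    rw [h1]
    have h2 := norm_mul_exp_arg_mul_I α
    rwa [hα, ofReal_one, one_mul] at h2
  have hirr : Irrational θ := by
    rintro ⟨q, hq⟩
    apply hnt q.den q.den_pos
    rw [← hαθ, ← exp_nat_mul, ← hq]
    have h1 : ((q.den : ℕ) : ℂ) * (((2 * Real.pi * (q : ℝ) : ℝ) : ℂ) * I) =
        (q.num : ℤ) * (2 * Real.pi * I) := by
      have h2 : ((q : ℚ) : ℂ) * ((q.den : ℕ) : ℂ) = ((q.num : ℤ) : ℂ) := by
        exact_mod_cast congrArg (fun x : ℚ => (x : ℂ)) (Rat.mul_den_eq_num q)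
      rw [← h2]
      push_cast
      ring
    rw [h1]
    exact exp_int_mul_two_pi_mul_I q.num
  set B := max A 1 with hB
  obtain ⟨q, hqB, hq⟩ := exists_large_den θ hirr B
  set d := q.den with hd
  have hdpos : 0 < d := q.den_pos
  have hdR : (0 : ℝ) < d := by exact_mod_cast hdpos
  set z' : ℂ := z / α ^ B with hz'
  have hz'n : ‖z'‖ = 1 := by
    rw [hz', norm_div, norm_pow, hα, hz, one_pow, div_one]
  set γ : ℝ := z'.arg / (2 * Real.pi) with hγ
  have hzγ : exp (((2 * Real.pi * γ : ℝ) : ℂ) * I) = z' := by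
    have h1 : 2 * Real.pi * γ = z'.arg := by
      rw [hγ]
      field_simp
    rw [h1]
    have h2 := norm_mul_exp_arg_mul_I z'
    rwa [hz'n, ofReal_one, one_mul] at h2
  set r : ℤ := round (d * γ) with hr
  have hr' : |(d : ℝ) * γ - r| ≤ 1 / 2 := abs_sub_round _
  obtain ⟨n, hnd, t, ht⟩ : ∃ n : ℕ, n < d ∧ ∃ t : ℤ, (n : ℤ) * q.num - r = t * d := by
    have : NeZero d := ⟨hdpos.ne'⟩
    have hcop : IsCoprime q.num (d : ℤ) := by
      rw [Int.isCoprime_iff_gcd_eq_one, Int.gcd]
      simpa using q.reduced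
    obtain ⟨a, b, hab⟩ := hcop
    refine ⟨(r * a % d).toNat, ?_, ?_⟩
    · have h1 := Int.emod_lt_of_pos (r * a) (show (0 : ℤ) < d by exact_mod_cast hdpos)
      have h2 := Int.emod_nonneg (r * a) (show (d : ℤ) ≠ 0 by exact_mod_cast hdpos.ne')
      omega
    · have h2 := Int.emod_nonneg (r * a) (show (d : ℤ) ≠ 0 by exact_mod_cast hdpos.ne')
      rw [Int.toNat_of_nonneg h2]
      have h3 := Int.emod_add_mul_ediv (r * a) d
      refine ⟨-(r * b) - (r * a / d) * q.num, ?_⟩
      have h4 : r * a % d = r * a - d * (r * a / d) := by linarith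
      rw [h4]
      linear_combination r * hab
  refine ⟨n + B, (le_max_left _ _).trans (Nat.le_add_left _ _), by
    have : 1 ≤ B := le_max_right _ _
    omega, ?_⟩
  have hα0 : α ^ B ≠ 0 := by
    apply pow_ne_zero
    intro h
    rw [h, norm_zero] at hα
    exact zero_ne_one hα
  have h1 : ‖α ^ (n + B) - z‖ = ‖α ^ n - z'‖ := by
    have h2 : α ^ (n + B) - z = α ^ B * (α ^ n - z') := by
      rw [hz', mul_sub, mul_div_cancel₀ _ hα0, pow_add]
      ring
    rw [h2, norm_mul, norm_pow, hα, one_pow, one_mul]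
  rw [h1]
  have h2 : α ^ n = exp (((2 * Real.pi * (n * θ - t) : ℝ) : ℂ) * I) := by
    have h3 : exp (((2 * Real.pi * (n * θ - t) : ℝ) : ℂ) * I) =
        exp ((n : ℂ) * (((2 * Real.pi * θ : ℝ) : ℂ) * I) - (t : ℂ) * (2 * Real.pi * I)) := by
      congr 1
      push_cast
      ring
    rw [h3, exp_sub, exp_int_mul_two_pi_mul_I, div_one, exp_nat_mul, hαθ]
  rw [h2, ← hzγ]
  refine (norm_exp_sub _ _).trans ?_
  have h4 : |(n : ℝ) * θ - t - γ| ≤ 3 / 2 / d := by
    have h5 : (n : ℝ) * q.num - r = t * d := by exact_mod_cast ht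
    have hqd : (q : ℝ) = q.num / d := by
      have := Rat.num_div_den q
      exact_mod_cast this.symm
    have h6 : (n : ℝ) * θ - t - γ = n * (θ - q) - (d * γ - r) / d := by
      rw [hqd]
      field_simp
      linear_combination h5
    rw [h6]
    refine (abs_sub _ _).trans ?_
    have h7 : |(n : ℝ) * (θ - q)| ≤ 1 / d := by
      rw [abs_mul, Nat.abs_cast]
      have h8 : (n : ℝ) ≤ d := by exact_mod_cast hnd.le
      calc (n : ℝ) * |θ - q| ≤ d * (1 / (d : ℝ) ^ 2) := by gcongr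
        _ = 1 / d := by field_simp
    have h9 : |((d : ℝ) * γ - r) / d| ≤ 1 / 2 / d := by
      rw [abs_div, abs_of_pos hdR]
      gcongr
    have h10 : (3 : ℝ) / 2 / d = 1 / d + 1 / 2 / d := by ring
    rw [h10]
    linarith
  have h5 : |2 * Real.pi * ((n : ℝ) * θ - t) - 2 * Real.pi * γ| =
      2 * Real.pi * |(n : ℝ) * θ - t - γ| := by
    rw [← mul_sub, abs_mul, abs_of_pos (by positivity : (0 : ℝ) < 2 * Real.pi)]
  rw [h5]
  have h6 : ((n + B : ℕ) : ℝ) ≤ 2 * d := by
    have : n + B ≤ 2 * d := by omega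
    exact_mod_cast this
  have h7 : (0 : ℝ) < ((n + B : ℕ) : ℝ) := by
    have : 1 ≤ B := le_max_right _ _
    have : 0 < n + B := by omega
    exact_mod_cast this
  calc 2 * Real.pi * |(n : ℝ) * θ - t - γ| ≤ 2 * Real.pi * (3 / 2 / d) := by gcongr
    _ ≤ 2 * 3.15 * (3 / 2 / d) := by
        gcongr
        exact Real.pi_lt_d2.le
    _ = 9.45 / d := by ring
    _ ≤ 20 / (2 * d) := by
        rw [div_le_div_iff₀ hdR (by positivity)]
        nlinarith
    _ ≤ 20 / ((n + B : ℕ) : ℝ) := by gcongr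

end Pool.Agent.FrUP
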