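import Pool.Agent.FrozenUP.Circle

/-! Sequences with three dominant roots and linear coefficients: the dichotomy. -/

set_option autoImplicit false

namespace Pool.Agent.FrUP

open Complex Filter Topology

/-- the leading function -/
noncomputable def Fab (a a' : ℝ) (b b' : ℂ) (x : ℝ) (z : ℂ) : ℝ :=
  a * x + a' + 2 * ((b * x + b') * z).re

lemma re_mul_abs_le (b z : ℂ) (hz : ‖z‖ = 1) : |(b * z).re| ≤ ‖b‖ := by
  refine (abs_re_le_norm _).trans ?_
  rw [norm_mul, hz, mul_one]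

lemma Fab_le (a a' : ℝ) (b b' : ℂ) (x : ℝ) (z w : ℂ) (hx : 0 ≤ x) (hz : ‖z‖ = 1) :
    Fab a a' b b' x z ≤ x * (a + 2 * (b * w).re + 2 * ‖b‖ * ‖z - w‖) + (|a'| + 2 * ‖b'‖) := by
  unfold Fab
  have h1 : ((b * x + b') * z).re = x * (b * z).re + (b' * z).re := by
    rw [add_mul, add_re]
    congr 1
    rw [show b * (x : ℂ) * z = (x : ℂ) * (b * z) by ring, re_ofReal_mul]
  have h2 : (b * z).re ≤ (b * w).re + ‖b‖ * ‖z - w‖ := by
    have h3 : (b * z).re - (b * w).re = (b * (z - w)).re := by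
      rw [mul_sub, sub_re]
    have h4 := (le_abs_self _).trans (abs_re_le_norm (b * (z - w)))
    rw [norm_mul] at h4
    linarith
  have h3 := (le_abs_self _).trans (re_mul_abs_le b' z hz)
  have h4 := le_abs_self a'
  have h5 : x * (b * z).re ≤ x * ((b * w).re + ‖b‖ * ‖z - w‖) := mul_le_mul_of_nonneg_left h2 hx
  rw [h1]
  nlinarith

lemma le_Fab (a a' : ℝ) (b b' : ℂ) (x : ℝ) (z : ℂ) (hx : 0 ≤ x) (hz : ‖z‖ = 1) :
    x * (a - 2 * ‖b‖) - (|a'| + 2 * ‖b'‖) ≤ Fab a a' b b' x z := by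
  unfold Fab
  have h1 : ((b * x + b') * z).re = x * (b * z).re + (b' * z).re := by
    rw [add_mul, add_re]
    congr 1
    rw [show b * (x : ℂ) * z = (x : ℂ) * (b * z) by ring, re_ofReal_mul]
  have h2 := (abs_le.mp (re_mul_abs_le b z hz)).1
  have h3 := (abs_le.mp (re_mul_abs_le b' z hz)).1
  have h4 := neg_abs_le a'
  have h5 : x * (-‖b‖) ≤ x * (b * z).re := mul_le_mul_of_nonneg_left h2 hx
  rw [h1]
  nlinarith

section
variable (α b b' : ℂ) (a a' : ℝ) (hα : ‖α‖ = 1) (hnt : ∀ m : ℕ, 0 < m → α ^ m ≠ 1)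
  (hb : b ≠ 0) (j n0 : ℕ) (hn0 : 0 < n0) (r K : ℝ) (hr0 : 0 < r) (hr : r < 1) (hK : 0 ≤ K)
  (hup : ∀ᶠ m : ℕ in atTop, -(K * r ^ m) ≤ Fab a a' b b' ((j + n0 * m : ℕ) : ℝ) (α ^ m))
  (hneg : ∀ X : ℝ, ∃ x, X ≤ x ∧ ∃ z : ℂ, ‖z‖ = 1 ∧ Fab a a' b b' x z < 0)

include hα hnt hb hn0 hr0 hr hK hup hneg in
/-- the mean value is twice the amplitude -/
lemma lead_eq : a = 2 * ‖b‖ := by
  have hbn : 0 < ‖b‖ := norm_pos_iff.mpr hb
  apply le_antisymm
  · by_contra hcon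
    push Not at hcon
    obtain ⟨x, hx, z, hz, hF⟩ := hneg (max 0 ((|a'| + 2 * ‖b'‖) / (a - 2 * ‖b‖)))
    have hx0 : 0 ≤ x := (le_max_left _ _).trans hx
    have hx1 : (|a'| + 2 * ‖b'‖) / (a - 2 * ‖b‖) ≤ x := (le_max_right _ _).trans hx
    rw [div_le_iff₀ (by linarith)] at hx1
    have := le_Fab a a' b b' x z hx0 hz
    linarith
  · by_contra hcon
    push Not at hcon
    set z : ℂ := -((starRingEnd ℂ) b) / ‖b‖ with hz
    have hzn : ‖z‖ = 1 := by
      rw [hz, norm_div, norm_neg, norm_conj, norm_real, norm_norm, div_self hbn.ne']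
    have hbz : (b * z).re = -‖b‖ := by
      have h1 : b * z = ((-‖b‖ : ℝ) : ℂ) := by
        rw [hz]
        have h2 : b * (starRingEnd ℂ) b = (‖b‖ : ℂ) ^ 2 := mul_conj' b
        have h3 : (‖b‖ : ℂ) ≠ 0 := by exact_mod_cast hbn.ne'
        field_simp
        rw [h2]
        push_cast
        ring
      rw [h1, ofReal_re]
    set η : ℝ := 2 * ‖b‖ - a with hη
    have hη0 : 0 < η := by linarith
    obtain ⟨M, hM⟩ := eventually_atTop.mp hup
    obtain ⟨M2, hM2⟩ := exists_nat_gt ((K + (|a'| + 2 * ‖b'‖)) * 2 / η)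
    obtain ⟨m, hm, hd⟩ := dense_pow α z hα hnt hzn (max M M2) (η / (4 * ‖b‖)) (by positivity)
    have h1 := hM m ((le_max_left _ _).trans hm)
    have hαm : ‖α ^ m‖ = 1 := by rw [norm_pow, hα, one_pow]
    have h2 := Fab_le a a' b b' ((j + n0 * m : ℕ) : ℝ) (α ^ m) z (Nat.cast_nonneg _) hαm
    have h3 : K * r ^ m ≤ K := by
      have := pow_le_one₀ (n := m) hr0.le hr.le
      nlinarith
    have h4 : 2 * ‖b‖ * ‖α ^ m - z‖ ≤ η / 2 := by
      calc 2 * ‖b‖ * ‖α ^ m - z‖ ≤ 2 * ‖b‖ * (η / (4 * ‖b‖)) := by gcongr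
        _ = η / 2 := by field_simp; ring
    rw [hbz] at h2
    have hxm : (m : ℝ) ≤ ((j + n0 * m : ℕ) : ℝ) := by
      have : m ≤ j + n0 * m := by nlinarith
      exact_mod_cast this
    have hmM : (M2 : ℝ) ≤ m := by exact_mod_cast (le_max_right _ _).trans hm
    have h5 : (K + (|a'| + 2 * ‖b'‖)) * 2 / η < m := by linarith
    rw [div_lt_iff₀ hη0] at h5
    have h6 : ((j + n0 * m : ℕ) : ℝ) * (a + 2 * -‖b‖ + 2 * ‖b‖ * ‖α ^ m - z‖) ≤
        ((j + n0 * m : ℕ) : ℝ) * (-(η / 2)) := by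
      apply mul_le_mul_of_nonneg_left _ (Nat.cast_nonneg _)
      linarith
    have h7 : ((j + n0 * m : ℕ) : ℝ) * (-(η / 2)) ≤ m * (-(η / 2)) := by nlinarith
    nlinarith

/-- the function around the minimum -/
lemma Fab_at (hb : b ≠ 0) (ha : a = 2 * ‖b‖) (x : ℝ) (w : ℂ) :
    Fab a a' b b' x (-((starRingEnd ℂ) b) / ‖b‖ * w) =
      (1 - w.re) * (2 * ‖b‖ * x - 2 * (b' * (-((starRingEnd ℂ) b) / ‖b‖)).re) +
      (a' + 2 * (b' * (-((starRingEnd ℂ) b) / ‖b‖)).re) -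
      2 * (b' * (-((starRingEnd ℂ) b) / ‖b‖)).im * w.im := by
  have hbn : 0 < ‖b‖ := norm_pos_iff.mpr hb
  set z : ℂ := -((starRingEnd ℂ) b) / ‖b‖ with hz
  have h1 : b * z = ((-‖b‖ : ℝ) : ℂ) := by
    rw [hz]
    have h2 : b * (starRingEnd ℂ) b = (‖b‖ : ℂ) ^ 2 := mul_conj' b
    have h3 : (‖b‖ : ℂ) ≠ 0 := by exact_mod_cast hbn.ne'
    field_simp
    rw [h2]
    push_cast
    ring
  unfold Fab
  have h2 : ((b * x + b') * (z * w)).re = x * (-‖b‖ * w.re) + (b' * z * w).re := by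
    have h3 : (b * x + b') * (z * w) = (x : ℂ) * ((b * z) * w) + b' * z * w := by ring
    rw [h3, add_re, h1, re_ofReal_mul, re_ofReal_mul]
  rw [h2, ha, mul_re (b' * z) w]
  ring

include hα hnt hb hn0 hr0 hr hK hup hneg in
/-- **The dichotomy on the circle.** -/
theorem gap_circle (haα : IsIntegral ℚ α) (hab : IsIntegral ℚ b) :
    IsIntegral ℚ (-((starRingEnd ℂ) b) / (‖b‖ : ℂ)) ∧ ‖-((starRingEnd ℂ) b) / (‖b‖ : ℂ)‖ = 1 ∧
      ∃ (σ : ℝ), (σ = 1 ∨ σ = -1) ∧ ∃ c : ℝ, 0 < c ∧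
      ∀ᶠ m : ℕ in atTop, ∀ y : ℝ, 0 < y → y < c / m →
        α ^ m ≠ -((starRingEnd ℂ) b) / (‖b‖ : ℂ) * exp (((σ * y : ℝ) : ℂ) * I) := by
  have hbn : 0 < ‖b‖ := norm_pos_iff.mpr hb
  have ha := lead_eq α b b' a a' hα hnt hb j n0 hn0 r K hr0 hr hK hup hneg
  set z : ℂ := -((starRingEnd ℂ) b) / ‖b‖ with hz
  have hzn : ‖z‖ = 1 := by
    rw [hz, norm_div, norm_neg, norm_conj, norm_real, norm_norm, div_self hbn.ne']
  have hz0 : z ≠ 0 := by
    intro h
    rw [h, norm_zero] at hzn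
    exact zero_ne_one hzn
  have hzint : IsIntegral ℚ z := by
    have hconj : IsIntegral ℚ ((starRingEnd ℂ) b) := by
      have h1 := hab.map (Complex.conjAe.restrictScalars ℚ).toAlgHom
      exact h1
    have hnorm : IsIntegral ℚ ((‖b‖ : ℝ) : ℂ) := by
      have h1 : IsIntegral ℚ (((‖b‖ : ℝ) : ℂ) ^ 2) := by
        rw [← mul_conj']
        exact hab.mul hconj
      exact h1.of_pow (by norm_num)
    rw [hz, div_eq_mul_inv]
    exact hconj.neg.mul hnorm.inv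
  set p : ℝ := (b' * z).re with hp
  set q : ℝ := (b' * z).im with hq
  set f0 : ℝ := a' + 2 * p with hf0
  have hF : ∀ x w, Fab a a' b b' x (z * w) =
      (1 - w.re) * (2 * ‖b‖ * x - 2 * p) + f0 - 2 * q * w.im := fun x w =>
    Fab_at b b' a a' hb ha x w
  have hunit : ∀ w : ℂ, ‖w‖ = 1 → w.im ^ 2 ≤ 2 * (1 - w.re) ∧ 0 ≤ 1 - w.re := by
    intro w hw
    have h1 : w.re ^ 2 + w.im ^ 2 = 1 := by
      have := normSq_eq_norm_sq w
      rw [normSq_apply, hw] at this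
      nlinarith
    have h2 : w.re ≤ 1 := by nlinarith [sq_nonneg (w.im)]
    constructor
    · nlinarith
    · linarith
  have hdec : ∀ v : ℂ, ‖v‖ = 1 → ∃ w : ℂ, ‖w‖ = 1 ∧ v = z * w := by
    intro v hv
    refine ⟨v / z, ?_, ?_⟩
    · rw [norm_div, hv, hzn, div_one]
    · rw [mul_div_cancel₀ _ hz0]
  -- `f0 = 0`
  have hf0le : f0 ≤ 0 := by
    by_contra hcon
    push Not at hcon
    obtain ⟨x, hx, v, hv, hFv⟩ := hneg ((p + q ^ 2 / f0) / ‖b‖)
    obtain ⟨w, hw, rfl⟩ := hdec v hv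
    rw [hF] at hFv
    obtain ⟨h1, h2⟩ := hunit w hw
    rw [div_le_iff₀ hbn] at hx
    have h3 : q ^ 2 ≤ f0 * (‖b‖ * x - p) := by
      have h4 : q ^ 2 / f0 ≤ ‖b‖ * x - p := by linarith
      rw [div_le_iff₀ hcon] at h4
      linarith
    have h5 : 0 ≤ f0 * ((1 - w.re) * (2 * ‖b‖ * x - 2 * p) + f0 - 2 * q * w.im) := by
      have h6 : q ^ 2 * w.im ^ 2 ≤ q ^ 2 * (2 * (1 - w.re)) :=
        mul_le_mul_of_nonneg_left h1 (sq_nonneg _)
      have h7 : q ^ 2 * (1 - w.re) ≤ f0 * (‖b‖ * x - p) * (1 - w.re) :=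
        mul_le_mul_of_nonneg_right h3 h2
      nlinarith [sq_nonneg (f0 - q * w.im)]
    have h8 := mul_neg_of_pos_of_neg hcon hFv
    linarith
  have hf0ge : 0 ≤ f0 := by
    by_contra hcon
    push Not at hcon
    obtain ⟨M, hM⟩ := eventually_atTop.mp hup
    have hr1 := (tendsto_pow_atTop_nhds_zero_of_lt_one hr0.le hr).const_mul K
    rw [mul_zero] at hr1
    obtain ⟨M1, hM1⟩ := eventually_atTop.mp (hr1.eventually (gt_mem_nhds (show (0 : ℝ) < -f0 / 2 by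
      linarith)))
    set C1 : ℝ := 400 * ‖b‖ * (j + n0) + 400 * |p| + 40 * |q| with hC1
    have hC10 : 0 ≤ C1 := by positivity
    obtain ⟨M2, hM2⟩ := exists_nat_gt (C1 * 2 / (-f0))
    obtain ⟨m, hm, hm0, hd⟩ := approx α z hα hnt hzn (max M (max M1 M2))
    have hmM : M ≤ m := (le_max_left _ _).trans hm
    have hmM1 : M1 ≤ m := (le_max_left _ _).trans ((le_max_right _ _).trans hm)
    have hmM2 : M2 ≤ m := (le_max_right _ _).trans ((le_max_right _ _).trans hm)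
    obtain ⟨w, hw, hwz⟩ := hdec (α ^ m) (by rw [norm_pow, hα, one_pow])
    have h1 := hM m hmM
    have h2 := hM1 m hmM1
    rw [hwz, hF] at h1
    have hmR : (1 : ℝ) ≤ m := by exact_mod_cast hm0
    have hmpos : (0 : ℝ) < m := by linarith
    have hw1 : ‖w - 1‖ ≤ 20 / m := by
      have h3 : z * w - z = z * (w - 1) := by ring
      rw [hwz, h3, norm_mul, hzn, one_mul] at hd
      exact hd
    have hwu : 1 - w.re ≤ 200 / m ^ 2 := by
      have h3 : ‖w - 1‖ ^ 2 = 2 * (1 - w.re) := by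
        have h4 : w.re ^ 2 + w.im ^ 2 = 1 := by
          have := normSq_eq_norm_sq w
          rw [normSq_apply, hw] at this
          nlinarith
        rw [← normSq_eq_norm_sq, normSq_apply, sub_re, sub_im, one_re, one_im]
        nlinarith
      have h4 : ‖w - 1‖ ^ 2 ≤ (20 / m) ^ 2 := pow_le_pow_left₀ (norm_nonneg _) hw1 2
      have h5 : ((20 : ℝ) / m) ^ 2 = 2 * (200 / m ^ 2) := by ring
      linarith
    have hwim : |w.im| ≤ 20 / m := by
      have h3 := abs_im_le_norm (w - 1)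
      rw [sub_im, one_im, sub_zero] at h3
      exact h3.trans hw1
    have hx : ((j + n0 * m : ℕ) : ℝ) ≤ (j + n0) * m := by
      push_cast
      have : (j : ℝ) ≤ j * m := by
        have : (0 : ℝ) ≤ j := Nat.cast_nonneg j
        nlinarith
      linarith
    obtain ⟨_, hu0⟩ := hunit w hw
    have h3 : (1 - w.re) * (2 * ‖b‖ * ((j + n0 * m : ℕ) : ℝ) - 2 * p) ≤
        (200 / m ^ 2) * (2 * ‖b‖ * ((j + n0) * m) + 2 * |p| * m) := by
      have h4 : 2 * ‖b‖ * ((j + n0 * m : ℕ) : ℝ) - 2 * p ≤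
          2 * ‖b‖ * ((j + n0) * m) + 2 * |p| * m := by
        have h5 : 2 * ‖b‖ * ((j + n0 * m : ℕ) : ℝ) ≤ 2 * ‖b‖ * ((j + n0) * m) := by gcongr
        have h6 := neg_abs_le p
        have h7 : |p| ≤ |p| * m := by
          have := abs_nonneg p
          nlinarith
        linarith
      calc (1 - w.re) * (2 * ‖b‖ * ((j + n0 * m : ℕ) : ℝ) - 2 * p)
          ≤ (1 - w.re) * (2 * ‖b‖ * ((j + n0) * m) + 2 * |p| * m) :=
            mul_le_mul_of_nonneg_left h4 hu0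
        _ ≤ (200 / m ^ 2) * (2 * ‖b‖ * ((j + n0) * m) + 2 * |p| * m) := by
            apply mul_le_mul_of_nonneg_right hwu
            positivity
    have h4 : (200 / (m : ℝ) ^ 2) * (2 * ‖b‖ * ((j + n0) * m) + 2 * |p| * m) =
        (400 * ‖b‖ * (j + n0) + 400 * |p|) / m := by
      field_simp
      ring
    have h5 : -(2 * q * w.im) ≤ 40 * |q| / m := by
      have h6 : |2 * q * w.im| ≤ 2 * |q| * (20 / m) := by
        rw [abs_mul, abs_mul, abs_of_pos (by norm_num : (0 : ℝ) < 2)]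
        gcongr
      have h7 := neg_abs_le (2 * q * w.im)
      have h8 : 2 * |q| * (20 / (m : ℝ)) = 40 * |q| / m := by ring
      linarith
    have h6 : (400 * ‖b‖ * (j + n0) + 400 * |p|) / m + 40 * |q| / m = C1 / m := by
      rw [hC1]
      ring
    have h7 : C1 / m ≤ -f0 / 2 := by
      have h8 : C1 * 2 / (-f0) < m := by
        have : (M2 : ℝ) ≤ m := by exact_mod_cast hmM2
        linarith
      rw [div_lt_iff₀ (by linarith)] at h8
      rw [div_le_iff₀ hmpos]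
      linarith
    linarith
  have hf00 : f0 = 0 := le_antisymm hf0le hf0ge
  have hq0 : q ≠ 0 := by
    intro hq0
    obtain ⟨x, hx, v, hv, hFv⟩ := hneg (p / ‖b‖)
    obtain ⟨w, hw, rfl⟩ := hdec v hv
    rw [hF, hf00, hq0] at hFv
    obtain ⟨h1, h2⟩ := hunit w hw
    rw [div_le_iff₀ hbn] at hx
    have : 0 ≤ (1 - w.re) * (2 * ‖b‖ * x - 2 * p) := mul_nonneg h2 (by linarith)
    linarith
  -- the one-sided interval
  obtain ⟨σ, hσ, hσq⟩ : ∃ σ : ℝ, (σ = 1 ∨ σ = -1) ∧ q * σ = |q| := by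
    rcases lt_or_gt_of_ne hq0 with h | h
    · exact ⟨-1, Or.inr rfl, by rw [abs_of_neg h]; ring⟩
    · exact ⟨1, Or.inl rfl, by rw [abs_of_pos h]; ring⟩
  have hqa : 0 < |q| := abs_pos.mpr hq0
  set s : ℝ := Real.sqrt r with hs
  have hs0 : 0 < s := Real.sqrt_pos.mpr hr0
  have hs1 : s < 1 := by
    rw [hs, Real.sqrt_lt' one_pos]
    simpa using hr
  have hss : s ^ 2 = r := Real.sq_sqrt hr0.le
  have hfar := far α z hα hnt hz0 haα hzint (-Real.log s) (by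
    rw [neg_pos]
    exact Real.log_neg hs0 hs1)
  have hs2 := (tendsto_pow_atTop_nhds_zero_of_lt_one hs0.le hs1).const_mul (2 * K / |q|)
  rw [mul_zero] at hs2
  have hs3 := hs2.eventually (gt_mem_nhds one_pos)
  set c : ℝ := min 1 (|q| / (2 * (‖b‖ * (j + n0) + |p|) + 1)) with hc
  have hden : 0 < 2 * (‖b‖ * (j + n0) + |p|) + 1 := by positivity
  have hc0 : 0 < c := lt_min one_pos (by positivity)
  refine ⟨hzint, hzn, σ, hσ, c, hc0, ?_⟩
  filter_upwards [hup, hfar, hs3, eventually_ge_atTop 1] with m h1 h2 h3 hm1 y hy0 hyc hcon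
  have hmR : (1 : ℝ) ≤ m := by exact_mod_cast hm1
  have hmpos : (0 : ℝ) < m := by linarith
  have hy1 : y ≤ 1 := by
    have h4 : c / m ≤ 1 := by
      rw [div_le_one hmpos]
      exact (min_le_left _ _).trans hmR
    linarith
  have hre : (exp (((σ * y : ℝ) : ℂ) * I)).re = Real.cos y := by
    rw [exp_ofReal_mul_I_re]
    rcases hσ with rfl | rfl
    · rw [one_mul]
    · rw [neg_one_mul, Real.cos_neg]
  have him : (exp (((σ * y : ℝ) : ℂ) * I)).im = σ * Real.sin y := by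
    rw [exp_ofReal_mul_I_im]
    rcases hσ with rfl | rfl
    · rw [one_mul, one_mul]
    · rw [neg_one_mul, Real.sin_neg, neg_one_mul]
  rw [hcon, hF, hre, him, hf00] at h1
  have hcos : 1 - Real.cos y ≤ y ^ 2 / 2 := by
    have := Real.one_sub_sq_div_two_le_cos (x := y)
    linarith
  have hcos0 : 0 ≤ 1 - Real.cos y := by
    have := Real.cos_le_one y
    linarith
  have hsin : y / 2 ≤ Real.sin y := by
    have h4 := Real.sin_gt_sub_cube hy0
    have h5 : y ^ 3 ≤ y := by nlinarith [mul_pos hy0 hy0]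
    linarith
  have hx : ((j + n0 * m : ℕ) : ℝ) ≤ (j + n0) * m := by
    push_cast
    have : (j : ℝ) ≤ j * m := by
      have : (0 : ℝ) ≤ j := Nat.cast_nonneg j
      nlinarith
    linarith
  have h4 : (1 - Real.cos y) * (2 * ‖b‖ * ((j + n0 * m : ℕ) : ℝ) - 2 * p) ≤
      y ^ 2 / 2 * (2 * (‖b‖ * (j + n0) + |p|) * m) := by
    have h5 : 2 * ‖b‖ * ((j + n0 * m : ℕ) : ℝ) - 2 * p ≤ 2 * (‖b‖ * (j + n0) + |p|) * m := by
      have h5 : 2 * ‖b‖ * ((j + n0 * m : ℕ) : ℝ) ≤ 2 * ‖b‖ * ((j + n0) * m) := by gcongr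
      have h6 := neg_abs_le p
      have h7 : |p| ≤ |p| * m := by
        have := abs_nonneg p
        nlinarith
      nlinarith
    calc (1 - Real.cos y) * (2 * ‖b‖ * ((j + n0 * m : ℕ) : ℝ) - 2 * p)
        ≤ (1 - Real.cos y) * (2 * (‖b‖ * (j + n0) + |p|) * m) :=
          mul_le_mul_of_nonneg_left h5 hcos0
      _ ≤ y ^ 2 / 2 * (2 * (‖b‖ * (j + n0) + |p|) * m) := by
          apply mul_le_mul_of_nonneg_right hcos
          positivity
  have h5 : y * (2 * (‖b‖ * (j + n0) + |p|) * m) ≤ |q| := by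
    have h6 : c ≤ |q| / (2 * (‖b‖ * (j + n0) + |p|) + 1) := min_le_right _ _
    rw [le_div_iff₀ hden] at h6
    rw [lt_div_iff₀ hmpos] at hyc
    have h7 : 0 ≤ 2 * (‖b‖ * (j + n0) + |p|) := by positivity
    calc y * (2 * (‖b‖ * (j + n0) + |p|) * m) = (y * m) * (2 * (‖b‖ * (j + n0) + |p|)) := by ring
      _ ≤ c * (2 * (‖b‖ * (j + n0) + |p|)) := by
          apply mul_le_mul_of_nonneg_right hyc.le h7
      _ ≤ |q| := by linarith
  have h6 : 2 * q * (σ * Real.sin y) = 2 * |q| * Real.sin y := by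
    rw [← hσq]
    ring
  have h7 : |q| * y ≤ 2 * |q| * Real.sin y := by nlinarith
  have h8 : y ^ 2 / 2 * (2 * (‖b‖ * (j + n0) + |p|) * m) ≤ |q| * y / 2 := by nlinarith
  have h9 : |q| * y / 2 ≤ K * r ^ m := by
    rw [h6] at h1
    linarith
  have h10 : ‖α ^ m - z‖ ≤ y := by
    have h11 : α ^ m - z = z * (exp (((σ * y : ℝ) : ℂ) * I) - exp (((0 : ℝ) : ℂ) * I)) := by
      rw [hcon, ofReal_zero, zero_mul, exp_zero]
      ring
    rw [h11, norm_mul, hzn, one_mul]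
    refine (norm_exp_sub _ _).trans ?_
    rw [sub_zero, abs_mul, abs_of_pos hy0]
    rcases hσ with rfl | rfl
    · rw [abs_one, one_mul]
    · rw [abs_neg, abs_one, one_mul]
  have h11 : Real.exp (-(-Real.log s * m)) = s ^ m := by
    rw [show -(-Real.log s * (m : ℝ)) = m * Real.log s by ring, Real.exp_nat_mul, Real.exp_log hs0]
  rw [h11] at h2
  have h12 : y ≤ 2 * K / |q| * r ^ m := by
    rw [div_mul_eq_mul_div, le_div_iff₀ hqa]
    linarith
  have h13 : 2 * K / |q| * r ^ m = (2 * K / |q| * s ^ m) * s ^ m := by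
    rw [← hss]
    ring
  have h14 : (2 * K / |q| * s ^ m) * s ^ m < 1 * s ^ m :=
    mul_lt_mul_of_pos_right h3 (pow_pos hs0 m)
  linarith

end

end Pool.Agent.FrUP
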