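import Pool.Agent.FrozenUP.Real

/-! Completeness: without certificates the frozen sequences are ultimately positive. -/

set_option autoImplicit false

namespace Pool.Agent.FrUP

open Finset Complex
open Pool.Agent.DD7719.M Pool.Agent.DD7719.M.GS

variable {k : ℕ}

open scoped Classical in
/-- what is needed of a class for the frozen sequence at `x` -/
def ClsOK (l c : Fin k → ℂ) (ex : Fin k → ℕ) (x : ℝ) (n0 j : ℕ) : Prop :=
  ∃ (A : Fin k → Fin k → ℤ) (s : ℕ) (y : Fin k → ℝ), Rep l n0 A s y ∧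
    (¬ ∀ m : ℕ, ∑ i, (if l i ≠ 0 then fc l c ex x i * l i ^ (j + n0 * m) else 0) = 0) ∧
    ∀ ρ : ℝ, 0 < ρ → (∀ m : ℕ, ∑ i, (if ρ < ‖l i‖ then fc l c ex x i * l i ^ (j + n0 * m)
      else 0) = 0) → ∀ z : Fin k → ℂ, (∀ t, ‖z t‖ = 1) →
      0 ≤ (∑ i, (if ‖l i‖ = ρ then fc l c ex x i * l i ^ j * Wt A s z i else 0)).re

open scoped Classical in
/-- The frozen sequence is ultimately positive. -/
theorem up_at (l c : Fin k → ℂ) (ex : Fin k → ℕ) (hk : 0 < k) (x : ℝ) (n0 : ℕ) (hn0 : 0 < n0)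
    (hac : ∀ i, IsIntegral ℚ (fc l c ex x i)) (hal : ∀ i, IsIntegral ℚ (l i))
    (htor : ∀ i i', l i ≠ 0 → l i' ≠ 0 → ∀ n : ℕ, 0 < n → (l i / l i') ^ (n0 * n) = 1 →
      (l i / l i') ^ n0 = 1)
    (v : ℕ → ℝ) (hv : ∀ n, fs l c ex x n = (v n : ℂ))
    (hcls : ∀ j, k ≤ j → j < k + n0 → ClsOK l c ex x n0 j) :
    ∃ N, ∀ n, N ≤ n → 0 < v n := by
  refine up_of_growth v k n0 hn0 fun j hj hj' => ?_
  obtain ⟨A, s, y, hrep, h1, h2⟩ := hcls j hj hj'
  have hred : ∀ (q : Fin k → Prop) [DecidablePred q],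
      (∀ m < k, ∑ i, (if q i then fc l c ex x i * ((j + n0 * m).choose 0 : ℂ) *
        l i ^ (j + n0 * m - 0) else 0) = 0) →
      ∀ m : ℕ, ∑ i, (if q i then fc l c ex x i * l i ^ (j + n0 * m) else 0) = 0 := by
    intro q _ h m
    have h3 := vanish_of_first (fun i => l i ^ n0)
      (fun i => if q i then fc l c ex x i * l i ^ j else 0) (by
        intro m' hm'
        refine Eq.trans ?_ (h m' hm')
        apply Finset.sum_congr rfl
        intro i _
        split_ifs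
        · rw [Nat.choose_zero_right, Nat.sub_zero, pow_add, pow_mul]
          push_cast
          ring
        · rw [zero_mul])
    refine Eq.trans ?_ (h3 m)
    apply Finset.sum_congr rfl
    intro i _
    split_ifs
    · rw [pow_add, pow_mul]
      ring
    · rw [zero_mul]
  refine class_growth l (fc l c ex x) (fun _ => 0) hk (fun _ => hk) n0 j hn0 hj hac hal htor s A y
    hrep.1 hrep.2 v (fun n => ?_) ?_ ?_
  · rw [← hv n, fs]
    refine Finset.sum_congr rfl fun i _ => ?_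
    rw [Nat.choose_zero_right, Nat.sub_zero]
    push_cast
    ring
  · intro h
    apply h1
    intro m
    have h3 := hred (fun i => Above 0 0 (l i) 0) h m
    refine Eq.trans (Finset.sum_congr rfl fun i _ => ?_) h3
    have h4 : Above 0 0 (l i) 0 ↔ l i ≠ 0 := by
      unfold Above
      rw [norm_pos_iff]
      constructor
      · rintro (h | ⟨_, h, _⟩)
        · exact h
        · exact absurd h (lt_irrefl _)
      · exact Or.inl
    simp only [h4]
  · intro ρ d hρ hd hvan z z' hz hz' hcon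
    rcases Nat.eq_zero_or_pos d with rfl | hd0
    · have h3 := hred (fun i => Above ρ 0 (l i) 0) hvan
      have h4 : ∀ i, Above ρ 0 (l i) 0 ↔ ρ < ‖l i‖ := by
        intro i
        unfold Above
        constructor
        · rintro (h | ⟨_, _, h⟩)
          · exact h
          · exact absurd h (lt_irrefl _)
        · exact Or.inl
      have h5 := h2 ρ hρ (fun m => by
        refine Eq.trans (Finset.sum_congr rfl fun i _ => ?_) (h3 m)
        simp only [h4]) z hz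
      rcases hcon with hcon | ⟨h, _⟩
      · refine absurd hcon (not_lt.mpr (h5.trans_eq ?_))
        congr 1
        refine Finset.sum_congr rfl fun i _ => ?_
        simp only [and_true, Nat.sub_zero]
        rfl
      · exact absurd h (lt_irrefl _)
    · have h0 : ∀ z : Fin k → ℂ, (∑ i, (if ‖l i‖ = ρ ∧ (fun _ : Fin k => 0) i = d then
          fc l c ex x i * l i ^ (j - d) *
          ∏ t : Fin k, (if (t : ℕ) < s then z t ^ A t i else 1) else 0)) = 0 := by
        intro z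
        apply Finset.sum_eq_zero
        intro i _
        rw [if_neg]
        rintro ⟨_, h⟩
        exact hd0.ne h
      rcases hcon with hcon | ⟨_, _, hcon⟩
      · exact absurd hcon (by rw [h0 z, Complex.zero_re]; exact lt_irrefl _)
      · exact hcon (by rw [h0 z', Complex.zero_re])

lemma BaseF_change {l c : Fin k → ℂ} {ex : Fin k → ℕ} {M Nb : ℕ} {ε δ : ℝ} {n0 j : ℕ}
    {A H : Fin k → Fin k → ℤ} {D : ℤ} {s : ℕ} {w : Fin k → Fin k → ℝ} {τ : Fin k → ℝ} {ρ : ℝ}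
    {d : ℕ} (h : BaseF k l c ex M Nb ε δ n0 j A H D s w τ ρ d) (ρ' : ℝ) (d' : ℕ) (hρ' : 0 ≤ ρ')
    (hd' : d' < k) (hvan : open scoped Classical in ∀ m < k,
      ∑ i, (if Above ρ' d' (l i) (ex i) then
      c i * ((j + n0 * m).choose (ex i) : ℂ) * l i ^ (j + n0 * m - ex i) else 0) = 0) :
    BaseF k l c ex M Nb ε δ n0 j A H D s w τ ρ' d' := by
  obtain ⟨h1, h2, h3, h4, h5, h6, h7, h8, h9, h10, h11, h12, h13, _, _, _⟩ := h
  exact ⟨h1, h2, h3, h4, h5, h6, h7, h8, h9, h10, h11, h12, h13, hρ', hd', hvan⟩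

open scoped Classical in
/-- a frozen sum vanishing at a generic point vanishes identically -/
lemma van_of_frozen (l c : Fin k → ℂ) (ex : Fin k → ℕ) (n0 j : ℕ)
    (hj : ∀ i, ex i ≤ j) (x : ℝ)
    (hx : ∀ i : Fin k, (gP l c ex n0 j (l i ^ n0)).eval (x : ℂ) = 0 →
      gP l c ex n0 j (l i ^ n0) = 0) (q : Fin k → Prop) [DecidablePred q]
    (hq : ∀ i i', l i ^ n0 = l i' ^ n0 → q i → q i') (hq0 : ∀ i, q i → l i ≠ 0)
    (h : ∀ m : ℕ, ∑ i, (if q i then fc l c ex x i * l i ^ (j + n0 * m) else 0) = 0) :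
    ∀ i, q i → gP l c ex n0 j (l i ^ n0) = 0 := by
  intro i hi
  apply hx
  refine gP_eval_eq_zero l c ex n0 j q hq hq0 (x : ℂ) (fun m => ?_) i hi
  refine Eq.trans (Finset.sum_congr rfl fun i _ => ?_) (h m)
  split_ifs with h3
  · rw [pow_add, ← mul_assoc, fc_mul_pow l c ex x j i (hj i) (hq0 i h3), bcP_eval_real, pow_mul]
  · rfl

lemma fc_integral (l c : Fin k → ℂ) (ex : Fin k → ℕ) (hac : ∀ i, IsIntegral ℚ (c i))
    (hal : ∀ i, IsIntegral ℚ (l i)) (x : ℚ) (i : Fin k) : IsIntegral ℚ (fc l c ex x i) := by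
  rw [fc]
  split_ifs with h
  · exact isIntegral_zero
  · have h1 : IsIntegral ℚ (((bc (ex i) (x : ℝ) : ℝ) : ℂ)) := by
      have h2 : (((bc (ex i) (x : ℝ) : ℝ) : ℂ)) = algebraMap ℚ ℂ
          ((∏ t ∈ range (ex i), (x - (t : ℚ))) / ∏ t ∈ range (ex i), ((t : ℚ) + 1)) := by
        rw [bc, eq_ratCast]
        push_cast
        rfl
      rw [h2]
      exact isIntegral_algebraMap
    have h3 : IsIntegral ℚ (l i ^ ex i)⁻¹ := ((hal i).pow _).inv
    rw [div_eq_mul_inv]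
    exact ((hac i).mul h1).mul h3

open scoped Classical in
/-- **Completeness of the certificate.** -/
theorem frozen_complete (l c : Fin k → ℂ) (ex : Fin k → ℕ) (R Q MH Q' e Nb : ℕ) (hk : 0 < k)
    (hex : ∀ i, ex i < k)
    (hR : 1 ≤ R)
    (hQ : 2 * k * R ≤ Q) (hMH : k.factorial * (Q ^ k + 1) ^ k ≤ MH) (δ : ℝ)
    (hδ0 : 0 ≤ δ) (hδ1 : 2 * k * MH * δ ≤ 1)
    (hδ2 : (k : ℝ) ^ 4 * (Q ^ k + 1) * Q ^ (k + 1) * MH ^ 3 * δ ^ 2 ≤ 1)
    (hδ3 : 2 * (k : ℝ) * R * δ ≤ 1)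
    (hQ' : 0 < Q') (hδQ' : 7 / (Q' : ℝ) ≤ δ) (he : 0 < e) (hNb : e * Q' ^ k ≤ Nb)
    (hrb : RelBound k l R)
    (htor : ∀ i i', l i ≠ 0 → l i' ≠ 0 → (∃ n : ℕ, 0 < n ∧ (l i / l i') ^ n = 1) →
      (l i / l i') ^ e = 1)
    (hac : ∀ i, IsIntegral ℚ (c i)) (hal : ∀ i, IsIntegral ℚ (l i))
    (v : ℕ → ℝ)
    (hv : ∀ n, ∑ i, c i * (n.choose (ex i) : ℂ) * l i ^ (n - ex i) = (v n : ℂ)) (T0 : ℝ)
    (hno : ∀ tt, T0 < tt → ¬ CertX k l c ex MH Nb (2 / Q) δ tt) :
    ∃ τ : ℝ, ∀ x : ℚ, τ ≤ x → ∃ N, ∀ n, N ≤ n → 0 < (fs l c ex (x : ℝ) n).re := by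
  obtain ⟨n0, hn0, hn0Nb, hen0, hdata⟩ := class_data0 l c ex R Q MH Q' e Nb hk hex hR hQ hMH δ
    hδ0 hδ1 hδ2 hδ3 hQ' hδQ' he hNb hrb v hv
  obtain ⟨τ, hτ⟩ := exists_root_bound l c ex Nb
  refine ⟨max τ (T0 + 1), fun x hx => ?_⟩
  have hxτ : τ ≤ (x : ℝ) := (le_max_left _ _).trans hx
  have hxT : T0 < (x : ℝ) := by
    have := (le_max_right τ (T0 + 1)).trans hx
    linarith
  refine up_at l c ex hk x n0 hn0 ?_ hal ?_ (fun n => (fs l c ex x n).re)
    (fun n => fs_real l c ex hk hex v hv x n) ?_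
  · exact fun i => fc_integral l c ex hac hal x i
  · intro i i' hi hi' n hn h
    have h4 := htor i i' hi hi' ⟨n0 * n, by positivity, h⟩
    obtain ⟨r, hr⟩ := hen0
    rw [hr, pow_mul, h4, one_pow]
  · intro j hj hj'
    obtain ⟨A, H, D, s, w, τ', y, hrep, hcase⟩ := hdata j hj hj'
    have hexj : ∀ i, ex i ≤ j := fun i => ((hex i).le.trans hj)
    have hroot : ∀ i : Fin k, (gP l c ex n0 j (l i ^ n0)).eval ((x : ℝ) : ℂ) = 0 →
        gP l c ex n0 j (l i ^ n0) = 0 := fun i => hτ x hxτ n0 hn0Nb j (by omega) i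
    -- base data at other levels
    have hbase : ∀ ρ : ℝ, 0 ≤ ρ → (∀ i, ρ < ‖l i‖ → gP l c ex n0 j (l i ^ n0) = 0) →
        BaseF k l c ex MH Nb (2 / Q) δ n0 j A H D s w τ' ρ (k - 1) := by
      intro ρ hρ hg
      have hvan : ∀ m < k, ∑ i, (if Above ρ (k - 1) (l i) (ex i) then
          c i * ((j + n0 * m).choose (ex i) : ℂ) * l i ^ (j + n0 * m - ex i) else 0) = 0 := by
        intro m _
        have h1 := sum_eq_zero_of_gP l c ex n0 j hexj (fun i => ρ < ‖l i‖) (by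
          intro i i' h h'
          rwa [← norm_eq_of_pow_eq hn0 h]) hg m
        refine Eq.trans (Finset.sum_congr rfl fun i _ => ?_) h1
        have h2 : Above ρ (k - 1) (l i) (ex i) ↔ ρ < ‖l i‖ := above_iff (by omega) (hex i)
        simp only [h2]
      rcases hcase with hb | ⟨i0, hb, _⟩
      · exact BaseF_change hb ρ (k - 1) hρ (by omega) hvan
      · exact BaseF_change hb ρ (k - 1) hρ (by omega) hvan
    refine ⟨A, s, y, hrep, fun hvan => ?_, fun ρ hρ hvan z hz => ?_⟩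
    · have hg := van_of_frozen l c ex n0 j hexj x hroot (fun i => l i ≠ 0) (by
        intro i i' h h'
        rw [← norm_ne_zero_iff] at h' ⊢
        rwa [← norm_eq_of_pow_eq hn0 h]) (fun i h => h) hvan
      exact hno x hxT ⟨n0, j, A, H, D, s, w, τ', 0, k - 1, fun _ => 1,
        hbase 0 le_rfl (fun i hi => hg i (norm_pos_iff.mp hi)), fun _ => norm_one, by omega,
        Or.inl rfl⟩
    · have hg := van_of_frozen l c ex n0 j hexj x hroot (fun i => ρ < ‖l i‖) (by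
        intro i i' h h'
        rwa [← norm_eq_of_pow_eq hn0 h]) (fun i h => norm_pos_iff.mp (hρ.trans h)) hvan
      by_contra hcon
      push Not at hcon
      refine hno x hxT ⟨n0, j, A, H, D, s, w, τ', ρ, k - 1, z, hbase ρ hρ.le hg, hz, by omega,
        Or.inr (lt_of_eq_of_lt ?_ hcon)⟩
      congr 1
      unfold LevX
      refine Finset.sum_congr rfl fun i _ => ?_
      split_ifs with h2
      · rw [fc_mul_pow l c ex x j i (hexj i) (norm_pos_iff.mp (by rw [h2]; exact hρ))]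
      · rfl

end Pool.Agent.FrUP
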