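import Pool.Agent.FrozenUP.Expand
import Pool.Agent.FrozenUP.Circle
import Pool.Agent.DD7719.Final

/-! A critical instance which is frozen positive: `u_n = n (2 - α^n - ᾱ^n) + 1`, `α = (3+4i)/5`. -/

set_option autoImplicit false

namespace Pool.Agent.UltPos

open Filter Topology Finset Complex

/-- `α^n + ᾱ^n` -/
def tq : ℕ → ℚ
  | 0 => 2
  | 1 => 6 / 5
  | n + 2 => 6 / 5 * tq (n + 1) - tq n

/-- the sequence of the example -/
def vq (n : ℕ) : ℚ := n * (2 - tq n) + 1

/-- the instance of the example -/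
def exI : Inst where
  k := 6
  kpos := by norm_num
  aNum := ![22, -231, 292, -231, 22, -1]
  aDen := ![5, 25, 25, 25, 5, 1]
  aDen_pos := by decide
  uNum := ![1, 9, 153, 1577, 9841, 7349]
  uDen := ![1, 5, 25, 125, 625, 625]
  uDen_pos := by decide

lemma tq_rec (n : ℕ) : tq (n + 2) = 6 / 5 * tq (n + 1) - tq n := rfl

lemma isSeq_vq : exI.IsSeq vq := by
  constructor
  · rintro ⟨i, hi⟩
    change i < 6 at hi
    interval_cases i
    · change vq 0 = ((1 : ℤ) : ℚ) / ((1 : ℕ) : ℚ)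
      norm_num [vq, tq]
    · change vq 1 = ((9 : ℤ) : ℚ) / ((5 : ℕ) : ℚ)
      norm_num [vq, tq]
    · change vq 2 = ((153 : ℤ) : ℚ) / ((25 : ℕ) : ℚ)
      norm_num [vq, tq]
    · change vq 3 = ((1577 : ℤ) : ℚ) / ((125 : ℕ) : ℚ)
      norm_num [vq, tq]
    · change vq 4 = ((9841 : ℤ) : ℚ) / ((625 : ℕ) : ℚ)
      norm_num [vq, tq]
    · change vq 5 = ((7349 : ℤ) : ℚ) / ((625 : ℕ) : ℚ)
      norm_num [vq, tq]
  · intro n hn
    obtain ⟨m, rfl⟩ : ∃ m, n = m + 6 := ⟨n - 6, by
      change 6 ≤ n at hn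
      omega⟩
    have h2 := tq_rec m
    have h3 := tq_rec (m + 1)
    have h4 := tq_rec (m + 2)
    have h5 := tq_rec (m + 3)
    have h6 := tq_rec (m + 4)
    have hs : ∑ i : Fin exI.k, exI.a i * vq (m + 6 - 1 - i) =
        22 / 5 * vq (m + 5) - 231 / 25 * vq (m + 4) + 292 / 25 * vq (m + 3) -
          231 / 25 * vq (m + 2) + 22 / 5 * vq (m + 1) - vq m := by
      change ∑ i : Fin 6, exI.a i * vq (m + 6 - 1 - i) = _
      rw [Fin.sum_univ_six]
      have a0 : exI.a (0 : Fin 6) = 22 / 5 := by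
        change ((22 : ℤ) : ℚ) / ((5 : ℕ) : ℚ) = _
        norm_num
      have a1 : exI.a (1 : Fin 6) = -231 / 25 := by
        change ((-231 : ℤ) : ℚ) / ((25 : ℕ) : ℚ) = _
        norm_num
      have a2 : exI.a (2 : Fin 6) = 292 / 25 := by
        change ((292 : ℤ) : ℚ) / ((25 : ℕ) : ℚ) = _
        norm_num
      have a3 : exI.a (3 : Fin 6) = -231 / 25 := by
        change ((-231 : ℤ) : ℚ) / ((25 : ℕ) : ℚ) = _
        norm_num
      have a4 : exI.a (4 : Fin 6) = 22 / 5 := by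
        change ((22 : ℤ) : ℚ) / ((5 : ℕ) : ℚ) = _
        norm_num
      have a5 : exI.a (5 : Fin 6) = -1 := by
        change ((-1 : ℤ) : ℚ) / ((1 : ℕ) : ℚ) = _
        norm_num
      rw [a0, a1, a2, a3, a4, a5]
      have e0 : m + 6 - 1 - ((0 : Fin 6) : ℕ) = m + 5 := by simp
      have e1 : m + 6 - 1 - ((1 : Fin 6) : ℕ) = m + 4 := by simp
      have e2 : m + 6 - 1 - ((2 : Fin 6) : ℕ) = m + 3 := by simp
      have e3 : m + 6 - 1 - ((3 : Fin 6) : ℕ) = m + 2 := by simp
      have e4 : m + 6 - 1 - ((4 : Fin 6) : ℕ) = m + 1 := by simp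
      have e5 : m + 6 - 1 - ((5 : Fin 6) : ℕ) = m := by simp
      rw [e0, e1, e2, e3, e4, e5]
      ring
    rw [hs]
    unfold vq
    simp only [add_assoc, Nat.reduceAdd] at h2 h3 h4 h5 h6
    rw [h6, h5, h4, h3, h2]
    push_cast
    ring

/-- the number `(3+4i)/5` -/
noncomputable def al : ℂ := (3 + 4 * I) / 5

lemma al_re : al.re = 3 / 5 := by
  have : al = ((3 / 5 : ℝ) : ℂ) + ((4 / 5 : ℝ) : ℂ) * I := by
    unfold al
    push_cast
    ring
  rw [this]
  simp

lemma al_im : al.im = 4 / 5 := by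
  have : al = ((3 / 5 : ℝ) : ℂ) + ((4 / 5 : ℝ) : ℂ) * I := by
    unfold al
    push_cast
    ring
  rw [this]
  simp

lemma norm_al : ‖al‖ = 1 := by
  have h : ‖al‖ ^ 2 = 1 := by
    rw [← normSq_eq_norm_sq, normSq_apply, al_re, al_im]
    norm_num
  nlinarith [norm_nonneg al]

lemma al_mul_conj : al * (starRingEnd ℂ) al = 1 := by
  rw [mul_conj', norm_al]
  norm_num

lemma al_add_conj : al + (starRingEnd ℂ) al = 6 / 5 := by
  rw [add_conj, al_re]
  push_cast
  norm_num

lemma tq_eq : ∀ n : ℕ, ((tq n : ℚ) : ℂ) = al ^ n + (starRingEnd ℂ) al ^ n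
  | 0 => by simp [tq]; norm_num
  | 1 => by
    rw [pow_one, pow_one, al_add_conj]
    simp [tq]
  | n + 2 => by
    rw [tq_rec]
    push_cast
    rw [tq_eq (n + 1), tq_eq n]
    have h1 := al_add_conj
    have h2 := al_mul_conj
    have h3 : (6 : ℂ) / 5 = al + (starRingEnd ℂ) al := h1.symm
    rw [h3]
    linear_combination (-(al ^ n) - (starRingEnd ℂ) al ^ n) * h2.symm

lemma tq_re (n : ℕ) : ((tq n : ℚ) : ℝ) = 2 * (al ^ n).re := by
  have h := congrArg Complex.re (tq_eq n)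
  rw [add_re, ← map_pow, conj_re] at h
  have h2 : (((tq n : ℚ) : ℂ)).re = ((tq n : ℚ) : ℝ) := by
    have : ((tq n : ℚ) : ℂ) = (((tq n : ℚ) : ℝ) : ℂ) := by push_cast; rfl
    rw [this, ofReal_re]
  rw [h2] at h
  linarith

lemma al_int (n : ℕ) : ∃ a b : ℤ, (3 + 4 * I) ^ (n + 1) = (a : ℂ) + b * I ∧ a % 5 = 3 ∧
    b % 5 = 4 := by
  induction n with
  | zero => exact ⟨3, 4, by push_cast; ring, by norm_num, by norm_num⟩
  | succ n ih =>
    obtain ⟨a, b, h, ha, hb⟩ := ih
    refine ⟨3 * a - 4 * b, 4 * a + 3 * b, ?_, by omega, by omega⟩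
    rw [pow_succ, h]
    push_cast
    linear_combination 4 * (b : ℂ) * I_sq

lemma al_nontorsion (n : ℕ) (hn : 0 < n) : al ^ n ≠ 1 := by
  intro h
  obtain ⟨m, rfl⟩ : ∃ m, n = m + 1 := ⟨n - 1, by omega⟩
  obtain ⟨a, b, h1, ha, hb⟩ := al_int m
  unfold al at h
  rw [div_pow, h1, div_eq_one_iff_eq (pow_ne_zero _ (by norm_num))] at h
  have h2 := congrArg Complex.re h
  have h3 : ((5 : ℂ) ^ (m + 1)) = (((5 : ℤ) ^ (m + 1) : ℤ) : ℂ) := by push_cast; rfl
  rw [h3] at h2
  simp only [add_re, intCast_re, mul_re, I_re, mul_zero, intCast_im, I_im, mul_one, sub_self,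
    add_zero] at h2
  have h4 : a = 5 ^ (m + 1) := by exact_mod_cast h2
  rw [h4, pow_succ] at ha
  omega

lemma norm_sub_sq (n : ℕ) : ‖al ^ n - 1‖ ^ 2 = 2 - ((tq n : ℚ) : ℝ) := by
  have h1 : ‖al ^ n‖ = 1 := by rw [norm_pow, norm_al, one_pow]
  have h2 : (al ^ n).re ^ 2 + (al ^ n).im ^ 2 = 1 := by
    have := normSq_eq_norm_sq (al ^ n)
    rw [normSq_apply, h1] at this
    nlinarith
  rw [← normSq_eq_norm_sq, normSq_apply, sub_re, sub_im, one_re, one_im, tq_re]
  nlinarith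

/-- the example is critical -/
theorem exI_critical : exI.Critical := by
  refine ⟨vq, isSeq_vq, isCritical_of_M ⟨0, fun n _ => ?_⟩ ?_⟩
  · unfold vq
    push_cast
    rw [← norm_sub_sq]
    positivity
  refine ⟨1, 0, 1, 1, one_pos, one_pos, one_pos, ⟨5, fun m hm => ?_⟩, ?_, ?_⟩
  · have hmR : (1 : ℝ) ≤ m := by exact_mod_cast hm
    have h1 : ‖al ^ m - 1‖ ≤ 2 := by
      refine (norm_sub_le _ _).trans ?_
      rw [norm_pow, norm_al, one_pow, norm_one]
      norm_num
    have h2 : ‖al ^ m - 1‖ ^ 2 ≤ 4 := by nlinarith [norm_nonneg (al ^ m - 1)]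
    simp only [one_mul, add_zero, one_pow, pow_one]
    unfold vq
    push_cast
    rw [← norm_sub_sq, abs_of_nonneg (by positivity)]
    nlinarith
  · intro N' J' hN' hT
    have h1 : Tendsto (fun m : ℕ => ‖al ^ (N' * m + J') - 1‖ ^ 2) atTop (𝓝 0) := by
      have h2 : Tendsto (fun m : ℕ => (1 : ℝ) / ((N' * m + J' : ℕ) : ℝ)) atTop (𝓝 0) := by
        apply Tendsto.div_atTop tendsto_const_nhds
        apply tendsto_natCast_atTop_atTop.comp
        apply tendsto_atTop_mono (f := fun m : ℕ => m) _ tendsto_id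
        intro m
        nlinarith
      have h3 := hT.sub h2
      rw [sub_zero] at h3
      refine h3.congr' ?_
      filter_upwards [eventually_ge_atTop 1] with m hm
      have hpos : (0 : ℝ) < ((N' * m + J' : ℕ) : ℝ) := by
        have : 0 < N' * m + J' := by positivity
        exact_mod_cast this
      simp only [one_mul, add_zero, one_pow, pow_one]
      rw [norm_sub_sq]
      unfold vq
      push_cast at hpos ⊢
      field_simp
      ring
    have h2 : Tendsto (fun m : ℕ => al ^ (N' * m + J')) atTop (𝓝 1) := by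
      rw [tendsto_iff_norm_sub_tendsto_zero]
      have h3 := h1.sqrt
      rw [Real.sqrt_zero] at h3
      refine h3.congr fun m => ?_
      rw [Real.sqrt_sq (norm_nonneg _)]
    have h3 : Tendsto (fun m : ℕ => al ^ (N' * (m + 1) + J')) atTop (𝓝 1) :=
      (tendsto_add_atTop_iff_nat 1).mpr h2
    have h4 : Tendsto (fun m : ℕ => al ^ (N' * (m + 1) + J')) atTop (𝓝 (1 * al ^ N')) := by
      refine (h2.mul_const (al ^ N')).congr fun m => ?_
      rw [← pow_add]
      congr 1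
      ring
    have h5 := tendsto_nhds_unique h3 h4
    rw [one_mul] at h5
    exact al_nontorsion N' hN' h5.symm
  · rintro ⟨b, hb, hev⟩
    obtain ⟨M, hM⟩ := eventually_atTop.mp hev
    obtain ⟨M2, hM2⟩ := exists_nat_gt (2 / b)
    obtain ⟨n, hn, hd⟩ := Pool.Agent.FrUP.dense_pow al 1 norm_al al_nontorsion norm_one
      (M + M2 + 1) (min 1 (b / 2)) (lt_min one_pos (by positivity))
    have h1 := hM n (by omega)
    have hn0 : 0 < n := by omega
    have hnR : (0 : ℝ) < n := by exact_mod_cast hn0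
    simp only [one_mul, add_zero, one_pow, pow_one] at h1
    unfold vq at h1
    push_cast at h1
    rw [← norm_sub_sq] at h1
    have h2 : ‖al ^ n - 1‖ < 1 := lt_of_lt_of_le hd (min_le_left _ _)
    have h3 : ‖al ^ n - 1‖ < b / 2 := lt_of_lt_of_le hd (min_le_right _ _)
    have h4 : ‖al ^ n - 1‖ ^ 2 ≤ ‖al ^ n - 1‖ := by nlinarith [norm_nonneg (al ^ n - 1)]
    have h5 : 2 / b < n := by
      have : (M2 : ℝ) ≤ n := by exact_mod_cast (by omega : M2 ≤ n)
      linarith
    rw [div_lt_iff₀ hb] at h5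
    nlinarith

/-- the example is frozen positive -/
theorem exI_frozen : exI.FrozenPositive := by
  intro v hv
  obtain rfl : v = vq := exI.exists_unique_seq.unique hv isSeq_vq
  have hne : al ≠ 1 := by
    have := al_nontorsion 1 one_pos
    rwa [pow_one] at this
  have hnec : (starRingEnd ℂ) al ≠ 1 := by
    intro h
    apply hne
    have := congrArg (starRingEnd ℂ) h
    rwa [conj_conj, map_one] at this
  have hneq : al ≠ (starRingEnd ℂ) al := by
    intro h
    have h1 := congrArg Complex.im h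
    rw [conj_im, al_im] at h1
    norm_num at h1
  have hsum : ∀ (y : ℂ) (n : ℕ), ∑ z ∈ ({1, al, (starRingEnd ℂ) al} : Finset ℂ),
      ((fun z : ℂ => if z = 1 then (2 * Polynomial.X + 1 : Polynomial ℂ) else -Polynomial.X) z).eval
        y * z ^ n = 2 * y + 1 - y * (al ^ n + (starRingEnd ℂ) al ^ n) := by
    intro y n
    rw [Finset.sum_insert (by
      simp only [Finset.mem_insert, Finset.mem_singleton, not_or]
      exact ⟨hne.symm, hnec.symm⟩), Finset.sum_pair hneq]
    simp only [if_true, if_neg hne, if_neg hnec]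
    simp only [Polynomial.eval_add, Polynomial.eval_mul, Polynomial.eval_ofNat, Polynomial.eval_X,
      Polynomial.eval_one, Polynomial.eval_neg, one_pow]
    ring
  refine ⟨{1, al, (starRingEnd ℂ) al}, fun z => if z = 1 then 2 * Polynomial.X + 1 else
    -Polynomial.X, ⟨?_, 0, fun n _ => ?_⟩, 0, fun x hx => ⟨0, fun n _ => ?_⟩⟩
  · simp only [Finset.mem_insert, Finset.mem_singleton, not_or]
    have h0 : al ≠ 0 := by
      rw [← norm_ne_zero_iff, norm_al]
      exact one_ne_zero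
    exact ⟨zero_ne_one, h0.symm, ((_root_.map_ne_zero _).mpr h0).symm⟩
  · rw [hsum, ← tq_eq]
    unfold vq
    push_cast
    ring
  · unfold frozen
    rw [hsum, ← tq_eq]
    have h1 : (2 * ((x : ℝ) : ℂ) + 1 - ((x : ℝ) : ℂ) * ((tq n : ℚ) : ℂ)) =
        ((2 * (x : ℝ) + 1 - (x : ℝ) * ((tq n : ℚ) : ℝ) : ℝ) : ℂ) := by
      push_cast
      rfl
    rw [h1, ofReal_re]
    have h2 := norm_sub_sq n
    have h3 : 0 ≤ ‖al ^ n - 1‖ ^ 2 := by positivity
    have hxR : (0 : ℝ) ≤ (x : ℝ) := by exact_mod_cast hx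
    nlinarith

end Pool.Agent.UltPos
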