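import Pool.Agent.FrozenUP.NonCrit

/-! Ultimately positive sequences which are not frozen positive: a circle with negative values. -/

set_option autoImplicit false

namespace Pool.Agent.FrUP

open Filter Topology Finset
open Pool.Agent.DD7719.M Pool.Agent.DD7719.M.GS

variable {k : ℕ}

open scoped Classical in
/-- negative values on the torus are approached by the orbit -/
lemma levX_orbit (l c : Fin k → ℂ) (ex : Fin k → ℕ) (R M Nb : ℕ) (ε δ : ℝ) (hR : 1 ≤ R)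
    (hM : 1 ≤ M) (hrb : RelBound k l R) (hε : 4 * k * R * ε ≤ 1)
    (hδ : 8 * k ^ 3 * M ^ 2 * R * δ ≤ 1) (n0 j : ℕ) (A H : Fin k → Fin k → ℤ) (D : ℤ) (s : ℕ)
    (w : Fin k → Fin k → ℝ) (τ : Fin k → ℝ) (ρ0 : ℝ) (d : ℕ)
    (hbase : BaseF k l c ex M Nb ε δ n0 j A H D s w τ ρ0 d) (ρ x : ℝ)
    (h : ∀ m : ℕ, 0 ≤ (∑ i, (if ‖l i‖ = ρ then c i * ((bc (ex i) x : ℝ) : ℂ) * l i ^ (j - ex i) *
      (nz (l i) ^ n0) ^ m else 0)).re) (z : Fin k → ℂ) (hz : ∀ t, ‖z t‖ = 1) :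
    0 ≤ (LevX l c ex A s j ρ x z).re := by
  obtain ⟨hn0, hn0N, hj, hjk, hs, hD, hDM, hHA, hA, hH, hδ', hw, hwε, hρ, hdk, hvan⟩ := hbase
  by_contra hcon
  push Not at hcon
  set S : ℝ := ∑ i, ‖c i * ((bc (ex i) x : ℝ) : ℂ) * l i ^ (j - ex i)‖ with hS
  have hS0 : 0 ≤ S := Finset.sum_nonneg fun _ _ => norm_nonneg _
  set η : ℝ := -(LevX l c ex A s j ρ x z).re / (2 * (S + 1)) with hη
  have hη0 : 0 < η := div_pos (by linarith) (by positivity)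
  obtain ⟨n, -, hclose⟩ := cert_limit l R M n0 hR hM hrb A H D s w τ ε δ hn0 hD hHA hA hH hδ' hw
    hwε hε hδ z hz n0 hn0 0 η hη0
  have h1 := h n
  have h2 : (∑ i, (if ‖l i‖ = ρ then c i * ((bc (ex i) x : ℝ) : ℂ) * l i ^ (j - ex i) *
      (nz (l i) ^ n0) ^ n else 0)) - LevX l c ex A s j ρ x z =
      ∑ i, (if ‖l i‖ = ρ then c i * ((bc (ex i) x : ℝ) : ℂ) * l i ^ (j - ex i) *
        (nz (l i) ^ (n0 * n) - Wt A s z i) else 0) := by
    unfold LevX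
    rw [← Finset.sum_sub_distrib]
    refine Finset.sum_congr rfl fun i _ => ?_
    split_ifs
    · rw [pow_mul]
      ring
    · ring
  have h3 : ‖∑ i, (if ‖l i‖ = ρ then c i * ((bc (ex i) x : ℝ) : ℂ) * l i ^ (j - ex i) *
        (nz (l i) ^ (n0 * n) - Wt A s z i) else 0)‖ ≤ S * η := by
    refine (norm_sum_le _ _).trans ?_
    rw [hS, Finset.sum_mul]
    refine Finset.sum_le_sum fun i _ => ?_
    split_ifs
    · rw [norm_mul]
      exact mul_le_mul_of_nonneg_left (hclose i).le (norm_nonneg _)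
    · rw [norm_zero]
      positivity
  have h4 := (le_abs_self _).trans ((Complex.abs_re_le_norm _).trans h3)
  rw [← h2, Complex.sub_re] at h4
  have h5 : S * η < -(LevX l c ex A s j ρ x z).re := by
    rw [hη, mul_div_assoc', div_lt_iff₀ (by positivity)]
    nlinarith
  linarith

open scoped Classical in
/-- **The data of a gap.** -/
theorem gap_data (l c : Fin k → ℂ) (ex : Fin k → ℕ) (R Q MH Q' e Nb : ℕ) (hk : 0 < k)
    (hex : ∀ i, ex i < k)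
    (hR : 1 ≤ R)
    (hQ : 2 * k * R ≤ Q) (hMH : k.factorial * (Q ^ k + 1) ^ k ≤ MH) (δ : ℝ)
    (hδ0 : 0 ≤ δ) (hδ1 : 2 * k * MH * δ ≤ 1)
    (hδ2 : (k : ℝ) ^ 4 * (Q ^ k + 1) * Q ^ (k + 1) * MH ^ 3 * δ ^ 2 ≤ 1)
    (hδ3 : 2 * (k : ℝ) * R * δ ≤ 1)
    (hQ' : 0 < Q') (hδQ' : 7 / (Q' : ℝ) ≤ δ) (he : 0 < e) (hNb : e * Q' ^ k ≤ Nb)
    (hrb : RelBound k l R) (hM1 : 1 ≤ MH) (hεs : 4 * k * R * (2 / (Q : ℝ)) ≤ 1)
    (hδs : 8 * k ^ 3 * (MH : ℝ) ^ 2 * R * δ ≤ 1)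
    (htor : ∀ i i', l i ≠ 0 → l i' ≠ 0 → (∃ n : ℕ, 0 < n ∧ (l i / l i') ^ n = 1) →
      (l i / l i') ^ e = 1)
    (hac : ∀ i, IsIntegral ℚ (c i)) (hal : ∀ i, IsIntegral ℚ (l i))
    (v : ℕ → ℝ)
    (hv : ∀ n, ∑ i, c i * (n.choose (ex i) : ℂ) * l i ^ (n - ex i) = (v n : ℂ))
    (hup : ∃ N, ∀ n, N ≤ n → 0 < v n)
    (hnot : ¬ ∃ τ : ℝ, ∀ x : ℚ, τ ≤ x → ∃ N, ∀ n, N ≤ n → 0 < (fs l c ex (x : ℝ) n).re) :
    ∃ (n0 j : ℕ) (i1 : Fin k), 0 < n0 ∧ k ≤ j ∧ e ∣ n0 ∧ (∀ i, ‖nz (l i) ^ n0 - 1‖ ≤ δ) ∧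
      0 < ‖l i1‖ ∧ (∀ i, ‖l i1‖ < ‖l i‖ → gP l c ex n0 j (l i ^ n0) = 0) ∧
      ∀ X : ℝ, ∃ x, X ≤ x ∧ ∃ m : ℕ, (∑ i, (if ‖l i‖ = ‖l i1‖ then
        c i * ((bc (ex i) x : ℝ) : ℂ) * l i ^ (j - ex i) * (nz (l i) ^ n0) ^ m else 0)).re < 0 := by
  by_contra hcon
  push Not at hcon
  apply hnot
  obtain ⟨n0, hn0, hn0Nb, hen0, hdata⟩ := class_data0 l c ex R Q MH Q' e Nb hk hex hR hQ hMH δ
    hδ0 hδ1 hδ2 hδ3 hQ' hδQ' he hNb hrb v hv
  obtain ⟨τ0, hτ0⟩ := exists_root_bound l c ex Nb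
  -- the threshold of a class
  have hcls : ∀ j, k ≤ j → j < k + n0 → ∃ τ : ℝ, ∀ x : ℝ, τ ≤ x → ClsOK l c ex x n0 j := by
    intro j hj hj'
    obtain ⟨A, H, D, s, w, τ', y, hrep, hcase⟩ := hdata j hj hj'
    have hexj : ∀ i, ex i ≤ j := fun i => ((hex i).le.trans hj)
    obtain ⟨ρ0, d0, hb0⟩ : ∃ (ρ0 : ℝ) (d0 : ℕ),
        BaseF k l c ex MH Nb (2 / Q) δ n0 j A H D s w τ' ρ0 d0 := by
      rcases hcase with hb | ⟨i0, hb, _⟩
      · exact ⟨_, _, hb⟩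
      · exact ⟨_, _, hb⟩
    have hδn : ∀ i, ‖nz (l i) ^ n0 - 1‖ ≤ δ := by
      obtain ⟨-, -, -, -, -, -, -, -, -, -, h, -⟩ := hb0
      exact h
    -- the circles
    have hcirc : ∀ i1 : Fin k, ∃ τ : ℝ, ∀ x : ℝ, τ ≤ x → 0 < ‖l i1‖ →
        (∀ i, ‖l i1‖ < ‖l i‖ → gP l c ex n0 j (l i ^ n0) = 0) →
        ∀ z : Fin k → ℂ, (∀ t, ‖z t‖ = 1) → 0 ≤ (LevX l c ex A s j ‖l i1‖ x z).re := by
      intro i1
      by_cases h0 : 0 < ‖l i1‖ ∧ (∀ i, ‖l i1‖ < ‖l i‖ → gP l c ex n0 j (l i ^ n0) = 0)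
      · obtain ⟨X, hX⟩ := hcon n0 j i1 hn0 hj hen0 hδn h0.1 h0.2
        exact ⟨X, fun x hx _ _ z hz => levX_orbit l c ex R MH Nb _ δ hR hM1 hrb hεs hδs n0 j A H
          D s w τ' ρ0 d0 hb0 _ x (fun m => hX x hx m) z hz⟩
      · exact ⟨0, fun x _ h1 h2 => absurd ⟨h1, h2⟩ h0⟩
    choose τc hτc using hcirc
    obtain ⟨T, hT⟩ : ∃ T : ℝ, ∀ i1, τc i1 ≤ T := by
      obtain ⟨T, hT⟩ := (Finset.univ.image τc).bddAbove
      exact ⟨T, fun i => hT (Finset.mem_coe.mpr (Finset.mem_image_of_mem _ (Finset.mem_univ i)))⟩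
    refine ⟨max τ0 T, fun x hx => ?_⟩
    have hroot : ∀ i : Fin k, (gP l c ex n0 j (l i ^ n0)).eval ((x : ℝ) : ℂ) = 0 →
        gP l c ex n0 j (l i ^ n0) = 0 :=
      fun i => hτ0 x ((le_max_left _ _).trans hx) n0 hn0Nb j (by omega) i
    refine ⟨A, s, y, hrep, fun hvan => ?_, fun ρ hρ hvan z hz => ?_⟩
    · have hq : ∀ i i', l i ^ n0 = l i' ^ n0 → l i ≠ 0 → l i' ≠ 0 := by
        intro i i' h h'
        rw [← norm_ne_zero_iff] at h' ⊢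
        rwa [← norm_eq_of_pow_eq hn0 h]
      have hg := van_of_frozen l c ex n0 j hexj x hroot (fun i => l i ≠ 0) hq (fun i h => h) hvan
      obtain ⟨N, hN⟩ := hup
      have h1 := hN (j + n0 * N) (by nlinarith)
      have h2 := sum_eq_zero_of_gP l c ex n0 j hexj (fun i => l i ≠ 0) hq hg N
      have h3 : ∑ i, c i * ((j + n0 * N).choose (ex i) : ℂ) * l i ^ (j + n0 * N - ex i) = 0 := by
        refine Eq.trans (Finset.sum_congr rfl fun i _ => ?_) h2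
        split_ifs with h
        · rfl
        · push Not at h
          rw [h, zero_pow (by have := hex i; have := Nat.zero_le (n0 * N); omega), mul_zero]
      rw [hv] at h3
      have h4 : v (j + n0 * N) = 0 := by exact_mod_cast h3
      linarith
    · have hq : ∀ i i', l i ^ n0 = l i' ^ n0 → ρ < ‖l i‖ → ρ < ‖l i'‖ := by
        intro i i' h h'
        rwa [← norm_eq_of_pow_eq hn0 h]
      have hg := van_of_frozen l c ex n0 j hexj x hroot (fun i => ρ < ‖l i‖) hq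
        (fun i h => norm_pos_iff.mp (hρ.trans h)) hvan
      have hval : (∑ i, (if ‖l i‖ = ρ then fc l c ex x i * l i ^ j * Wt A s z i else 0)) =
          LevX l c ex A s j ρ x z := by
        unfold LevX
        refine Finset.sum_congr rfl fun i _ => ?_
        split_ifs with h2
        · rw [fc_mul_pow l c ex x j i (hexj i) (norm_pos_iff.mp (by rw [h2]; exact hρ))]
        · rfl
      rw [hval]
      by_cases hi1 : ∃ i1 : Fin k, ‖l i1‖ = ρ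
      · obtain ⟨i1, rfl⟩ := hi1
        exact hτc i1 x ((hT i1).trans ((le_max_right _ _).trans hx)) hρ hg z hz
      · push Not at hi1
        unfold LevX
        rw [Finset.sum_eq_zero fun i _ => if_neg (hi1 i), Complex.zero_re]
  choose! τj hτj using hcls
  obtain ⟨T, hT⟩ : ∃ T : ℝ, ∀ j ∈ range (k + n0), τj j ≤ T := by
    obtain ⟨T, hT⟩ := ((range (k + n0)).image τj).bddAbove
    exact ⟨T, fun j hj => hT (Finset.mem_coe.mpr (Finset.mem_image_of_mem _ hj))⟩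
  refine ⟨T, fun x hx => ?_⟩
  refine up_at l c ex hk x n0 hn0 ?_ hal ?_ (fun n => (fs l c ex x n).re)
    (fun n => fs_real l c ex hk hex v hv x n) ?_
  · exact fun i => fc_integral l c ex hac hal x i
  · intro i i' hi hi' n hn h
    have h4 := htor i i' hi hi' ⟨n0 * n, by positivity, h⟩
    obtain ⟨r, hr⟩ := hen0
    rw [hr, pow_mul, h4, one_pow]
  · intro j hj hj'
    exact hτj j hj hj' x ((hT j (Finset.mem_range.mpr hj')).trans hx)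

end Pool.Agent.FrUP
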