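import Pool.Agent.DD7719.NComplete
import Pool.Agent.FiveNum.BkVand

/-! Polynomial coefficients of a class: the two-variable function of a recurrence sequence. -/

set_option autoImplicit false

namespace Pool.Agent.FrUP

open Polynomial Finset
open Pool.Agent.DD7719.M

/-- the binomial polynomial -/
noncomputable def bcP (e : ℕ) : ℂ[X] := C ((e.factorial : ℂ)⁻¹) * descPochhammer ℂ e

/-- the binomial coefficient of a real number -/
noncomputable def bc (e : ℕ) (x : ℝ) : ℝ :=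
  (∏ i ∈ range e, (x - (i : ℝ))) / ∏ i ∈ range e, ((i : ℝ) + 1)

lemma bc_den (e : ℕ) : ∏ i ∈ range e, ((i : ℝ) + 1) = (e.factorial : ℝ) := by
  rw [← Finset.prod_range_add_one_eq_factorial]
  push_cast
  rfl

lemma bcP_eval_nat (e n : ℕ) : (bcP e).eval (n : ℂ) = (n.choose e : ℂ) := by
  rw [bcP, eval_mul, eval_C, descPochhammer_eval_eq_descFactorial,
    Nat.descFactorial_eq_factorial_mul_choose]
  have : (e.factorial : ℂ) ≠ 0 := by exact_mod_cast e.factorial_ne_zero
  push_cast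
  field_simp

lemma bcP_eval_real (e : ℕ) (x : ℝ) : (bcP e).eval (x : ℂ) = ((bc e x : ℝ) : ℂ) := by
  rw [bcP, eval_mul, eval_C, descPochhammer_eval_eq_prod_range, bc, bc_den]
  push_cast
  rw [div_eq_inv_mul]

lemma bc_nat (e n : ℕ) : bc e (n : ℝ) = (n.choose e : ℝ) := by
  have h1 := bcP_eval_real e (n : ℝ)
  rw [ofReal_natCast', bcP_eval_nat] at h1
  exact_mod_cast h1.symm
where
  ofReal_natCast' {n : ℕ} : (((n : ℝ) : ℂ)) = (n : ℂ) := by push_cast; rfl

lemma continuous_bc (e : ℕ) : Continuous (bc e) := by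
  unfold bc
  apply Continuous.div_const
  apply continuous_finsetProd
  intro i _
  exact continuous_id.sub continuous_const

variable {k : ℕ}

open scoped Classical in
/-- the polynomial coefficient of `X^m` along the class `j + n0 m` -/
noncomputable def gP (l c : Fin k → ℂ) (ex : Fin k → ℕ) (n0 j : ℕ) (X : ℂ) : ℂ[X] :=
  ∑ i with l i ^ n0 = X, C (c i * l i ^ (j - ex i)) * bcP (ex i)

open scoped Classical in
lemma gP_eval (l c : Fin k → ℂ) (ex : Fin k → ℕ) (n0 j : ℕ) (X y : ℂ) :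
    (gP l c ex n0 j X).eval y = ∑ i with l i ^ n0 = X, c i * (bcP (ex i)).eval y *
      l i ^ (j - ex i) := by
  rw [gP, eval_finsetSum]
  refine Finset.sum_congr rfl fun i _ => ?_
  rw [eval_mul, eval_C]
  ring

open scoped Classical in
/-- grouping of the terms with the same power -/
lemma sum_grp (l c : Fin k → ℂ) (ex : Fin k → ℕ) (n0 j : ℕ) (q : Fin k → Prop)
    [DecidablePred q]
    (hq : ∀ i i', l i ^ n0 = l i' ^ n0 → q i → q i') (y : ℂ) (T : ℂ → ℂ) :
    ∑ i, (if q i then c i * (bcP (ex i)).eval y * l i ^ (j - ex i) * T (l i ^ n0) else 0) =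
      ∑ X ∈ (univ.filter q).image (fun i => l i ^ n0), (gP l c ex n0 j X).eval y * T X := by
  rw [← Finset.sum_filter,
    ← Finset.sum_fiberwise_of_maps_to (t := (univ.filter q).image (fun i => l i ^ n0))
      (g := fun i => l i ^ n0) (fun i hi => Finset.mem_image_of_mem _ hi)]
  refine Finset.sum_congr rfl fun X hX => ?_
  obtain ⟨i0, hi0, rfl⟩ := Finset.mem_image.mp hX
  have hqi0 : q i0 := (Finset.mem_filter.mp hi0).2
  rw [gP_eval, Finset.sum_mul]
  refine Finset.sum_congr ?_ fun i hi => ?_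
  · ext i
    simp only [Finset.mem_filter, Finset.mem_univ, true_and]
    constructor
    · exact fun h => h.2
    · exact fun h => ⟨hq i0 i h.symm hqi0, h⟩
  · have h1 : l i ^ n0 = l i0 ^ n0 := (Finset.mem_filter.mp hi).2
    rw [h1]

lemma term_eq (l c : Fin k → ℂ) (ex : Fin k → ℕ) (n0 j m : ℕ) (i : Fin k) (hj : ex i ≤ j) :
    c i * ((j + n0 * m).choose (ex i) : ℂ) * l i ^ (j + n0 * m - ex i) =
      c i * (bcP (ex i)).eval ((j : ℂ) + (n0 : ℂ) * (m : ℂ)) * l i ^ (j - ex i) *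
        (l i ^ n0) ^ m := by
  have h1 : ((j : ℂ) + (n0 : ℂ) * (m : ℂ)) = ((j + n0 * m : ℕ) : ℂ) := by push_cast; rfl
  have h2 : l i ^ (j + n0 * m - ex i) = l i ^ (j - ex i) * (l i ^ n0) ^ m := by
    rw [← pow_mul, ← pow_add]
    congr 1
    omega
  rw [h1, bcP_eval_nat, h2]
  ring

open scoped Classical in
/-- vanishing along the class implies vanishing of the polynomial coefficients -/
lemma gP_eq_zero (l c : Fin k → ℂ) (ex : Fin k → ℕ) (n0 j : ℕ) (hn0 : 0 < n0)
    (hj : ∀ i, ex i ≤ j) (q : Fin k → Prop) [DecidablePred q]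
    (hq : ∀ i i', l i ^ n0 = l i' ^ n0 → q i → q i') (hq0 : ∀ i, q i → l i ≠ 0)
    (h : ∀ m, ∑ i, (if q i then c i * ((j + n0 * m).choose (ex i) : ℂ) *
      l i ^ (j + n0 * m - ex i) else 0) = 0) (i : Fin k) (hi : q i) :
    gP l c ex n0 j (l i ^ n0) = 0 := by
  set B := (univ.filter q).image (fun i => l i ^ n0) with hB
  have hn0C : (n0 : ℂ) ≠ 0 := by exact_mod_cast hn0.ne'
  have h1 := FiveNum.Bk.exp_poly_zero B id (by
      intro b hb
      obtain ⟨i0, hi0, rfl⟩ := Finset.mem_image.mp hb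
      exact pow_ne_zero _ (hq0 i0 (Finset.mem_filter.mp hi0).2)) (fun b _ b' _ h => h)
    (∑ b ∈ B, (((gP l c ex n0 j b).comp (C (n0 : ℂ) * X + C (j : ℂ))).natDegree + 1))
    (fun b => ((gP l c ex n0 j b).comp (C (n0 : ℂ) * X + C (j : ℂ))).natDegree + 1)
    (fun b => (gP l c ex n0 j b).comp (C (n0 : ℂ) * X + C (j : ℂ))) le_rfl (by
      intro b _
      refine lt_of_le_of_lt Polynomial.degree_le_natDegree ?_
      exact_mod_cast Nat.lt_succ_self _) (by
      intro t _
      have e1 : (∑ i, (if q i then c i * ((j + n0 * t).choose (ex i) : ℂ) *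
          l i ^ (j + n0 * t - ex i) else 0)) = ∑ i, (if q i then c i *
          (bcP (ex i)).eval ((j : ℂ) + (n0 : ℂ) * (t : ℂ)) * l i ^ (j - ex i) *
          (fun X => X ^ t) (l i ^ n0) else 0) := by
        refine sum_congr rfl (fun i _ => ?_)
        by_cases hqi : q i
        · simp only [hqi, if_true]
          rw [term_eq l c ex n0 j t i (hj i)]
        · simp only [hqi, if_false]
      rw [← h t, e1, sum_grp l c ex n0 j q hq
        ((j : ℂ) + (n0 : ℂ) * (t : ℂ)) (fun X => X ^ t)]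
      refine Finset.sum_congr rfl fun b _ => ?_
      simp only [id, eval_comp, eval_add, eval_mul, eval_C, eval_X]
      rw [add_comm]) (l i ^ n0)
      (Finset.mem_image_of_mem _ (by simpa using hi))
  have h2 : ∀ y : ℂ, (gP l c ex n0 j (l i ^ n0)).eval y = 0 := by
    intro y
    have h3 := congrArg (Polynomial.eval ((y - j) / n0)) h1
    simp only [eval_comp, eval_add, eval_mul, eval_C, eval_X, eval_zero] at h3
    rw [mul_div_cancel₀ _ hn0C, sub_add_cancel] at h3
    exact h3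
  exact Polynomial.funext fun y => by rw [h2 y, eval_zero]

open scoped Classical in
/-- vanishing of the frozen sum implies vanishing of the values of the coefficients -/
lemma gP_eval_eq_zero (l c : Fin k → ℂ) (ex : Fin k → ℕ) (n0 j : ℕ) (q : Fin k → Prop)
    [DecidablePred q]
    (hq : ∀ i i', l i ^ n0 = l i' ^ n0 → q i → q i') (hq0 : ∀ i, q i → l i ≠ 0) (y : ℂ)
    (h : ∀ m, ∑ i, (if q i then c i * (bcP (ex i)).eval y * l i ^ (j - ex i) *
      (l i ^ n0) ^ m else 0) = 0) (i : Fin k) (hi : q i) :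
    (gP l c ex n0 j (l i ^ n0)).eval y = 0 := by
  set B := (univ.filter q).image (fun i => l i ^ n0) with hB
  have h1 := FiveNum.Bk.exp_poly_zero B id (by
      intro b hb
      obtain ⟨i0, hi0, rfl⟩ := Finset.mem_image.mp hb
      exact pow_ne_zero _ (hq0 i0 (Finset.mem_filter.mp hi0).2)) (fun b _ b' _ h => h)
    (∑ b ∈ B, 1) (fun _ => 1)
    (fun b => C ((gP l c ex n0 j b).eval y)) le_rfl (by
      intro b _
      refine lt_of_le_of_lt Polynomial.degree_C_le ?_
      norm_num) (by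
      intro t _
      rw [← h t, sum_grp l c ex n0 j q hq y (fun X => X ^ t)]
      refine Finset.sum_congr rfl fun b _ => ?_
      simp only [id, eval_C]) (l i ^ n0)
      (Finset.mem_image_of_mem _ (by simpa using hi))
  have h2 := congrArg (Polynomial.eval 0) h1
  simpa using h2

open scoped Classical in
/-- vanishing coefficients give vanishing sums, diagonal form -/
lemma sum_eq_zero_of_gP (l c : Fin k → ℂ) (ex : Fin k → ℕ) (n0 j : ℕ)
    (hj : ∀ i, ex i ≤ j) (q : Fin k → Prop) [DecidablePred q]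
    (hq : ∀ i i', l i ^ n0 = l i' ^ n0 → q i → q i')
    (h : ∀ i, q i → gP l c ex n0 j (l i ^ n0) = 0) (m : ℕ) :
    ∑ i, (if q i then c i * ((j + n0 * m).choose (ex i) : ℂ) *
      l i ^ (j + n0 * m - ex i) else 0) = 0 := by
  rw [sum_congr rfl (fun i _ => ?_), sum_grp l c ex n0 j q hq
        ((j : ℂ) + (n0 : ℂ) * (m : ℂ)) (fun X => X ^ m)]
  · apply Finset.sum_eq_zero
    intro X hX
    obtain ⟨i0, hi0, rfl⟩ := Finset.mem_image.mp hX
    rw [h i0 (Finset.mem_filter.mp hi0).2, eval_zero, zero_mul]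
  · by_cases hqi : q i
    · simp only [hqi, if_true]
      rw [term_eq l c ex n0 j m i (hj i)]
    · simp only [hqi, if_false]

open scoped Classical in
/-- vanishing coefficients give vanishing sums, two-variable form -/
lemma sum_eq_zero_of_gP' (l c : Fin k → ℂ) (ex : Fin k → ℕ) (n0 j : ℕ) (q : Fin k → Prop)
    [DecidablePred q]
    (hq : ∀ i i', l i ^ n0 = l i' ^ n0 → q i → q i')
    (h : ∀ i, q i → gP l c ex n0 j (l i ^ n0) = 0) (y : ℂ) (T : ℂ → ℂ) :
    ∑ i, (if q i then c i * (bcP (ex i)).eval y * l i ^ (j - ex i) * T (l i ^ n0) else 0) = 0 := by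
  rw [sum_grp l c ex n0 j q hq y T]
  apply Finset.sum_eq_zero
  intro X hX
  obtain ⟨i0, hi0, rfl⟩ := Finset.mem_image.mp hX
  rw [h i0 (Finset.mem_filter.mp hi0).2, eval_zero, zero_mul]

/-- beyond a bound the nonzero coefficients do not vanish -/
lemma exists_root_bound (l c : Fin k → ℂ) (ex : Fin k → ℕ) (Nb : ℕ) :
    ∃ τ : ℝ, ∀ x : ℝ, τ ≤ x → ∀ n0 ≤ Nb, ∀ j < k + Nb + 1, ∀ i : Fin k,
      (gP l c ex n0 j (l i ^ n0)).eval (x : ℂ) = 0 → gP l c ex n0 j (l i ^ n0) = 0 := by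
  classical
  have h1 : ∀ p : ℕ × ℕ × Fin k, ∃ τ : ℝ, ∀ x : ℝ, τ ≤ x →
      (gP l c ex p.1 p.2.1 (l p.2.2 ^ p.1)).eval (x : ℂ) = 0 →
      gP l c ex p.1 p.2.1 (l p.2.2 ^ p.1) = 0 := by
    intro p
    by_cases h0 : gP l c ex p.1 p.2.1 (l p.2.2 ^ p.1) = 0
    · exact ⟨0, fun _ _ _ => h0⟩
    · have hfin : {x : ℝ | (gP l c ex p.1 p.2.1 (l p.2.2 ^ p.1)).eval (x : ℂ) = 0}.Finite := by
        have h2 : {z : ℂ | (gP l c ex p.1 p.2.1 (l p.2.2 ^ p.1)).IsRoot z}.Finite :=
          Polynomial.finite_setOfPred_isRoot h0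
        exact h2.preimage (f := fun x : ℝ => (x : ℂ)) (Complex.ofReal_injective.injOn)
      obtain ⟨b, hb⟩ := hfin.bddAbove
      refine ⟨b + 1, fun x hx hz => absurd (hb hz) (not_le.mpr (by linarith))⟩
  choose τ hτ using h1
  obtain ⟨T, hT⟩ : ∃ T : ℝ, ∀ p ∈ (range (Nb + 1) ×ˢ (range (k + Nb + 1) ×ˢ (univ : Finset (Fin k)))),
      τ p ≤ T := by
    obtain ⟨T, hT⟩ := ((range (Nb + 1) ×ˢ (range (k + Nb + 1) ×ˢ (univ : Finset (Fin k)))).image
      τ).bddAbove
    exact ⟨T, fun p hp => hT (Finset.mem_coe.mpr (Finset.mem_image_of_mem _ hp))⟩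
  refine ⟨T, fun x hx n0 hn0 j hj i => ?_⟩
  have h2 := hT (n0, j, i) (by
    simp only [Finset.mem_product, Finset.mem_range, Finset.mem_univ, and_true]
    exact ⟨by omega, hj⟩)
  exact hτ (n0, j, i) x (h2.trans hx)

end Pool.Agent.FrUP
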