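import Pool.Agent.FrozenUP.GapSeven
import Pool.Agent.FrozenUP.Final

/-! The gap between frozen positivity and ultimate positivity in order at most seven. -/

set_option autoImplicit false

namespace Pool.Agent.UltPos

open Pool.Agent.PT Pool.Agent.AllR Pool.Agent.DD7719.M Pool.Agent.DD7719 Finset Pool.Agent.FrUP

/-- There are a characteristic root `z`, such that `ζ = z / |z|` is not a root of unity, `N > 0`, an
algebraic number `β` of absolute value one and `a > 0` such that the powers `ζ ^ (N m)` avoid the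
one-sided arcs `β e^(iy)`, `0 < y < a / m`, for all large `m`. -/
def Inst.OneSidedGap (I : Inst) : Prop :=
  ∃ z β : ℂ, Polynomial.aeval z I.charPoly = 0 ∧ z ≠ 0 ∧ IsAlgebraic ℚ β ∧ ‖β‖ = 1 ∧
    (∀ m : ℕ, 0 < m → (z / ‖z‖) ^ m ≠ 1) ∧ ∃ N : ℕ, 0 < N ∧ ∃ a : ℝ, 0 < a ∧
    ∃ M : ℕ, ∀ m : ℕ, M ≤ m → ∀ y : ℝ, 0 < y → y < a / m →
      (z / ‖z‖) ^ (N * m) ≠ β * Complex.exp ((y : ℂ) * Complex.I)

/-- **Order at most seven.** An ultimately positive instance which is not frozen positive has a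
one-sided gap. -/
theorem Inst.gap_seven {I : Inst} (hk : I.k ≤ 7) (hup : I.UltimatelyPositive)
    (hnf : ¬ I.FrozenPositive) : I.OneSidedGap := by
  obtain ⟨v, hv, -⟩ := I.exists_unique_seq
  obtain ⟨l, c, ex, hrd, hl, hc⟩ := I.exists_rootData_alg
  have ha : ∀ t (h : t < I.k), ((fun t => ((I.aQ t : ℚ) : ℝ)) t) = (I.a ⟨t, h⟩ : ℝ) := by
    intro t h
    simp only [Inst.aQ, h, dif_pos]
  have hu : ∀ t (h : t < I.k), ((fun t => ((I.uQ t : ℚ) : ℝ)) t) = (I.u ⟨t, h⟩ : ℝ) := by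
    intro t h
    simp only [Inst.uQ, h, dif_pos]
  have hall := I.all' _ _ ha hu v hv hrd
  obtain ⟨L, hkL, hb⟩ : ∃ L : ℕ, I.k ≤ L ∧
      ∀ i, (I.aNum i).natAbs ≤ 2 ^ L ∧ I.aDen i ≤ 2 ^ L := by
    refine ⟨I.k + ∑ i, ((I.aNum i).natAbs + I.aDen i), by omega, fun i => ?_⟩
    have h1 : (I.aNum i).natAbs + I.aDen i ≤ ∑ i, ((I.aNum i).natAbs + I.aDen i) :=
      Finset.single_le_sum (f := fun i => (I.aNum i).natAbs + I.aDen i)
        (fun _ _ => Nat.zero_le _) (Finset.mem_univ i)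
    have h2 : I.k + ∑ i, ((I.aNum i).natAbs + I.aDen i) <
        2 ^ (I.k + ∑ i, ((I.aNum i).natAbs + I.aDen i)) := Nat.lt_two_pow_self
    constructor <;> omega
  obtain ⟨e, he0, hele, htor⟩ := torsion_of_roots I.k I.num I.den I.den_pos' (fun i => l i)
    (I.root_eq' _ _ ha hrd)
  have hupv : ∃ N, ∀ n, N ≤ n → 0 < ((v n : ℚ) : ℝ) := by
    obtain ⟨N, hN⟩ := (I.up_iff hv).mp hup
    exact ⟨N, fun n hn => by exact_mod_cast hN n hn⟩
  have hδs : 8 * (I.k : ℝ) ^ 3 * ((2 ^ pmh L : ℕ) : ℝ) ^ 2 * ((2 ^ pr L : ℕ) : ℝ) *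
      (1 / 2 ^ pdl L) ≤ 1 := by
    refine le_trans ?_ (pd1 hkL)
    have h1 : ((2 ^ pmh L : ℕ) : ℝ) ≤ ((2 ^ pbm L : ℕ) : ℝ) := by
      exact_mod_cast (two_pow_lt_pbm L).le
    gcongr
  obtain ⟨n0, j, i1, hn0, hj, hen0, hδn, hρ, hvan, hneg⟩ := gap_data (k := I.k) (fun i => l i)
      (fun i => c i) (fun i => ex i) (2 ^ pr L)
      (2 ^ pq L) (2 ^ pmh L) (2 ^ (pdl L + 3)) e (2 ^ (1 + 2 * L * L + (pdl L + 3) * L)) I.kpos
      (fun i => hrd.1 i i.2) Nat.one_le_two_pow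
      (le_trans (by
        have : 2 * I.k * 2 ^ pr L ≤ 8 * I.k * 2 ^ pr L := by
          gcongr
          norm_num
        exact this) (pQ_le hkL)) (pMH_le hkL) (1 / 2 ^ pdl L) (by positivity) (pd2 hkL) (pd4 hkL)
      (pd3 hkL) (by positivity) (pd5 L) he0 (pNb_le hkL hele) (I.relBound' L hkL hb _ _ ha hrd)
      Nat.one_le_two_pow (peps hkL) hδs
      (fun i i' h1 h2 h3 => htor i i' h1 h2 h3) (fun i => hc i) (fun i => hl i)
      (fun n => ((v n : ℚ) : ℝ)) hall hupv (by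
        rintro ⟨τ, hτ⟩
        apply hnf
        rw [I.frozenPositive_iff v hv _ _ _ (fun i => hrd.1 i i.2) hall]
        obtain ⟨τ', hτ'⟩ := exists_rat_gt τ
        refine ⟨τ', fun x hx => hτ x ?_⟩
        have : (τ' : ℝ) ≤ (x : ℝ) := by exact_mod_cast hx
        linarith)
  obtain ⟨i, β, hi0, hβ, hβ1, hnt, a, ha0, M, hM⟩ := gap_seven_F (k := I.k) (fun i => l i)
    (fun i => c i) (fun i => ex i) hk e n0 j i1
    (fun i => hrd.1 i i.2) (fun i e he => hrd.closed i e he) (I.root_conj hrd) (1 / 2 ^ pdl L) (by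
      rw [div_le_one (by positivity)]
      exact one_le_pow₀ (by norm_num))
    (fun i i' h1 h2 h3 => htor i i' h1 h2 h3) (fun i => hc i) (fun i => hl i)
    (fun n => ((v n : ℚ) : ℝ)) hall hupv hn0 hj hen0 hδn hρ hvan hneg
  have hnz : nz (l i) = l i / ‖l i‖ := by
    unfold nz
    rw [if_neg hi0]
  refine ⟨l i, β, ?_, hi0, hβ, hβ1, ?_, n0, hn0, a, ha0, M, ?_⟩
  · have h1 := (I.mem_rootSet_iff _ ha (l i)).mpr (hrd.root i i.2)
    exact h1
  · intro m hm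
    rw [← hnz]
    exact hnt m hm
  · intro m hm y hy0 hya
    rw [← hnz, pow_mul]
    exact hM m hm y hy0 hya

end Pool.Agent.UltPos
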